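import Pool.Agent.T2H32.GM.Mod

set_option autoImplicit false

/-! # Many long gaps, given an interval with few rough numbers -/

open MeasureTheory ProbabilityTheory Filter Topology Finset
open scoped ENNReal
open Pool.Agent.T2H32.BF (V V_pos V_anti mertens)

namespace Pool.Agent.T2H32.GM

theorem Rg_period (t n a : ℕ) (h : primorial t ∣ a) : Rg t (a + n) ↔ Rg t n := by
  unfold Rg
  refine forall₃_congr fun p hp hpp => ?_
  have h1 : p ∣ a := (hpp.dvd_primorial_iff.2 hp).trans h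
  rw [Nat.dvd_add_right h1]

theorem count_shift (t z y a : ℕ) (h : primorial t ∣ a) :
    ((Ioc (a + z) (a + z + y)).filter (Rg t)).card = ((Ioc z (z + y)).filter (Rg t)).card := by
  symm
  refine card_bij (fun n _ => a + n) ?_ ?_ ?_
  · intro n hn
    rw [mem_filter, mem_Ioc] at hn ⊢
    exact ⟨by omega, (Rg_period t n a h).2 hn.2⟩
  · intro n _ n' _ h
    omega
  · intro n hn
    rw [mem_filter, mem_Ioc] at hn
    refine ⟨n - a, ?_, by omega⟩
    rw [mem_filter, mem_Ioc]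
    refine ⟨by omega, ?_⟩
    rw [← Rg_period t (n - a) a h]
    have e : a + (n - a) = n := by omega
    rw [e]
    exact hn.2

theorem const_int (T : ℕ → ℕ) (hT : Monotone T) (k L : ℕ) (h : k + (T (2 * k) + 1) * L ≤ 2 * k) :
    ∃ a, k ≤ a ∧ a + L ≤ 2 * k ∧ T a = T (a + L) := by
  by_contra hcon
  push Not at hcon
  have key : ∀ i, i ≤ T (2 * k) + 1 → i ≤ T (k + i * L) := by
    intro i
    induction i with
    | zero => intro _; omega
    | succ i ih =>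
      intro hi
      have h1 := ih (by omega)
      have h2 : (i + 1) * L ≤ (T (2 * k) + 1) * L := Nat.mul_le_mul_right _ hi
      have e : k + (i + 1) * L = k + i * L + L := by ring
      have h3 := hcon (k + i * L) (by omega) (by omega)
      have h4 : T (k + i * L) ≤ T (k + i * L + L) := hT (by omega)
      rw [e]
      omega
  have h1 := key (T (2 * k) + 1) le_rfl
  have h2 := hT h
  omega

theorem one_sub_ge (ε x : ℝ) (hε : 0 < ε) (hx0 : 0 ≤ x) (hx : x ≤ ε / (1 + ε)) :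
    Real.exp (-((1 + ε) * x)) ≤ 1 - x := by
  rw [le_div_iff₀ (by linarith)] at hx
  have hx1 : 0 < 1 - x := by nlinarith
  have h1 : (1 - x)⁻¹ ≤ Real.exp ((1 + ε) * x) := by
    have h2 := Real.add_one_le_exp ((1 + ε) * x)
    refine le_trans ?_ h2
    rw [inv_le_iff_one_le_mul₀ hx1]
    nlinarith
  rw [Real.exp_neg]
  exact inv_le_of_inv_le₀ hx1 h1

section

variable (T : ℕ → ℕ) (hT : Monotone T) (hTl : Tendsto (fun k : ℕ => (T k : ℝ) / Real.log k) atTop (𝓝 0))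
variable {Ω : Type*} [MeasurableSpace Ω] {P : Measure Ω}

theorem Bk_low [IsProbabilityMeasure P] (A : ℕ → Set Ω) (hA : ∀ k, MeasurableSet (A k))
    (hind : iIndepSet A P) (hP : ∀ k, P.real (A k) = q T k) (k z y R t : ℕ) (hk : 3 ≤ k) (hlk : 1 ≤ Real.log k)
    (hz : k ≤ z) (hzR : z + R ≤ 2 * k)
    (hTc : ∀ j, z < j → j ≤ z + R → T j = t)
    (hq : ∀ j, k ≤ j → j ≤ 2 * k →
      q T j = (if Rg (T j) j then (V (T j))⁻¹ else 0) / Real.log j ∧ q T j ≤ Real.log k ^ (-(1 / 2) : ℝ))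
    (ε c ρ : ℝ) (hε : 0 < ε) (hρ0 : 0 < ρ)
    (hsmall : Real.log k ^ (-(1 / 2) : ℝ) ≤ ε / (1 + ε))
    (hρ : (((Ioc z (z + y)).filter (Rg t)).card : ℝ) ≤ ρ * (V t * y))
    (hy : (y : ℝ) ≤ (1 + ε) * c * Real.log k ^ 2) (hyR : y ≤ R) (K : ℝ) (B : ℕ)
    (hfl : ∀ T k y : ℕ, |(((Ioc k (k + y)).filter (Rg T)).card : ℝ) - V T * y| ≤
      1 / 2 * (V T * y) + K * ((T : ℝ) + 1) ^ B)
    (hbig : Real.log ((2 * k : ℕ) : ℝ) ≤ 1 / 2 * ((R : ℝ) - y) - K * ((t : ℝ) + 1) ^ B * (V t)⁻¹) :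
    1 / 2 * Real.exp (-((1 + ε) ^ 2 * ρ * c * Real.log k)) ≤ P.real (Bk A z y R) := by
  have hV := V_pos t
  have hl0 : 0 < Real.log k := by linarith
  rw [real_Bk A hA hind z y R hyR]
  simp only [hP]
  have h1 : Real.exp (-((1 + ε) ^ 2 * ρ * c * Real.log k)) ≤ ∏ j ∈ Ioc z (z + y), (1 - q T j) := by
    have h2 : ∑ j ∈ Ioc z (z + y), q T j ≤ (1 + ε) * ρ * c * Real.log k := by
      have h3 : ∑ j ∈ Ioc z (z + y), q T j ≤ ∑ j ∈ Ioc z (z + y), (if Rg t j then (V t)⁻¹ else 0) / Real.log k := by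
        refine sum_le_sum fun j hj => ?_
        rw [mem_Ioc] at hj
        have h4 := (hq j (by omega) (by omega)).1
        rw [hTc j hj.1 (by omega)] at h4
        rw [h4]
        have h5 : Real.log k ≤ Real.log j :=
          Real.log_le_log (by exact_mod_cast (by omega : 0 < k)) (by exact_mod_cast (by omega : k ≤ j))
        have h6 : 0 ≤ (if Rg t j then (V t)⁻¹ else 0) := by split_ifs <;> positivity
        gcongr
      refine h3.trans ?_
      rw [← sum_div, ← sum_filter, sum_const, nsmul_eq_mul, div_le_iff₀ hl0]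
      calc (((Ioc z (z + y)).filter (Rg t)).card : ℝ) * (V t)⁻¹ ≤ ρ * (V t * y) * (V t)⁻¹ := by gcongr
        _ = ρ * y := by field_simp
        _ ≤ ρ * ((1 + ε) * c * Real.log k ^ 2) := by gcongr
        _ = _ := by ring
    calc Real.exp (-((1 + ε) ^ 2 * ρ * c * Real.log k)) ≤ Real.exp (-((1 + ε) * ∑ j ∈ Ioc z (z + y), q T j)) := by
          apply Real.exp_le_exp.2
          have := mul_le_mul_of_nonneg_left h2 (show 0 ≤ 1 + ε by linarith)
          linarith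
      _ = ∏ j ∈ Ioc z (z + y), Real.exp (-((1 + ε) * q T j)) := by
          rw [mul_sum, ← sum_neg_distrib, Real.exp_sum]
      _ ≤ _ := by
          refine prod_le_prod (fun j _ => (Real.exp_pos _).le) fun j hj => ?_
          rw [mem_Ioc] at hj
          exact one_sub_ge ε _ hε (q_nonneg T j) (((hq j (by omega) (by omega)).2).trans hsmall)
  have h2 : ∏ j ∈ Ioc (z + y) (z + R), (1 - q T j) ≤ 1 / 2 := by
    refine (prod_le T _ _).trans ?_
    have h3 : 1 ≤ ∑ j ∈ Ioc (z + y) (z + R), q T j := by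
      have hl2 : 0 < Real.log ((2 * k : ℕ) : ℝ) := Real.log_pos (by exact_mod_cast (by omega : 1 < 2 * k))
      have h3 : ∑ j ∈ Ioc (z + y) (z + R), (if Rg t j then (V t)⁻¹ else 0) / Real.log ((2 * k : ℕ) : ℝ) ≤
          ∑ j ∈ Ioc (z + y) (z + R), q T j := by
        refine sum_le_sum fun j hj => ?_
        rw [mem_Ioc] at hj
        have h4 := (hq j (by omega) (by omega)).1
        rw [hTc j (by omega) (by omega)] at h4
        rw [h4]
        have h5 : Real.log j ≤ Real.log ((2 * k : ℕ) : ℝ) :=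
          Real.log_le_log (by exact_mod_cast (by omega : 0 < j)) (by exact_mod_cast (by omega : j ≤ 2 * k))
        have h6 : 0 < Real.log j := Real.log_pos (by exact_mod_cast (by omega : 1 < j))
        have h7 : 0 ≤ (if Rg t j then (V t)⁻¹ else 0) := by split_ifs <;> positivity
        gcongr
      refine le_trans ?_ h3
      rw [← sum_div, ← sum_filter, sum_const, nsmul_eq_mul, le_div_iff₀ hl2, one_mul]
      refine hbig.trans ?_
      have h4 := hfl t (z + y) (R - y)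
      have e : z + y + (R - y) = z + R := by omega
      rw [e, Nat.cast_sub hyR, abs_le] at h4
      have h5 : 1 / 2 * (V t * ((R : ℝ) - y)) - K * ((t : ℝ) + 1) ^ B ≤
          (((Ioc (z + y) (z + R)).filter (Rg t)).card : ℝ) := by linarith [h4.1]
      have h6 := mul_le_mul_of_nonneg_right h5 (inv_nonneg.2 hV.le)
      refine le_trans (le_of_eq ?_) h6
      field_simp
    calc Real.exp (-∑ j ∈ Ioc (z + y) (z + R), q T j) ≤ Real.exp (-1) := Real.exp_le_exp.2 (by linarith)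
      _ ≤ 1 / 2 := by
        rw [Real.exp_neg, ← one_div]
        have := Real.add_one_le_exp 1
        gcongr
        linarith
  have h3 := (Real.exp_pos (-((1 + ε) ^ 2 * ρ * c * Real.log k))).le
  calc 1 / 2 * Real.exp (-((1 + ε) ^ 2 * ρ * c * Real.log k)) =
        Real.exp (-((1 + ε) ^ 2 * ρ * c * Real.log k)) * (1 / 2) := by ring
    _ ≤ _ := mul_le_mul h1 (by linarith) (by norm_num) (h3.trans h1)

/-- the block length at scale `k` -/
noncomputable def yk (c : ℝ) (k : ℕ) : ℕ := ⌈c * Real.log ((2 * k : ℕ) : ℝ) ^ 2⌉₊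

theorem log2_bounds (ε : ℝ) (hε : 0 < ε) : ∀ᶠ k : ℕ in atTop,
    Real.log k ≤ Real.log ((2 * k : ℕ) : ℝ) ∧ Real.log ((2 * k : ℕ) : ℝ) ≤ (1 + ε) * Real.log k := by
  filter_upwards [eventually_ge_atTop 1, tlog.eventually_ge_atTop (1 / ε)] with k hk h1
  have hk0 : (0 : ℝ) < k := by exact_mod_cast hk
  push_cast
  rw [Real.log_mul (by norm_num) hk0.ne']
  have h2 := Real.log_two_lt_d9
  have h3 := Real.log_two_gt_d9
  rw [div_le_iff₀ hε] at h1
  constructor <;> linarith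

theorem yk_le (c ε : ℝ) (hc : 0 < c) (hε : 0 < ε) : ∀ᶠ k : ℕ in atTop,
    (yk c k : ℝ) ≤ (1 + ε) * c * Real.log k ^ 2 := by
  set δ := min (ε / 6) 1 with hδ
  have hδ0 : 0 < δ := lt_min (by positivity) one_pos
  have hδ1 : δ ≤ 1 := min_le_right _ _
  have hδε : δ ≤ ε / 6 := min_le_left _ _
  have h0 : Tendsto (fun k : ℕ => Real.log k ^ 2) atTop atTop := (tendsto_pow_atTop (by norm_num)).comp tlog
  filter_upwards [log2_bounds δ hδ0, tlog.eventually_ge_atTop 1, h0.eventually_ge_atTop (2 / (ε * c))] with k h1 h2 h3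
  have h4 := (Nat.ceil_lt_add_one (show 0 ≤ c * Real.log ((2 * k : ℕ) : ℝ) ^ 2 by positivity)).le
  have h5 : Real.log ((2 * k : ℕ) : ℝ) ^ 2 ≤ ((1 + δ) * Real.log k) ^ 2 := by
    have : 0 ≤ Real.log ((2 * k : ℕ) : ℝ) := by linarith [h1.1]
    gcongr
    exact h1.2
  have h6 : (1 + δ) ^ 2 ≤ 1 + ε / 2 := by nlinarith
  rw [div_le_iff₀ (by positivity)] at h3
  unfold yk
  calc (⌈c * Real.log ((2 * k : ℕ) : ℝ) ^ 2⌉₊ : ℝ) ≤ c * Real.log ((2 * k : ℕ) : ℝ) ^ 2 + 1 := h4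
    _ ≤ c * ((1 + δ) * Real.log k) ^ 2 + 1 := by gcongr
    _ = (1 + δ) ^ 2 * (c * Real.log k ^ 2) + 1 := by ring
    _ ≤ (1 + ε / 2) * (c * Real.log k ^ 2) + ε / 2 * (c * Real.log k ^ 2) := by
      gcongr
      linarith
    _ = _ := by ring

/-- `exp (-(a log k)) = k ^ (-a)` -/
theorem exp_log_pow (k : ℕ) (hk : 1 ≤ k) (a : ℝ) : Real.exp (a * Real.log k) = (k : ℝ) ^ a := by
  have : (0 : ℝ) < k := by exact_mod_cast hk
  rw [Real.rpow_def_of_pos this, mul_comm]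

theorem kpow_atTop (r : ℝ) (hr : 0 < r) : Tendsto (fun k : ℕ => (k : ℝ) ^ r) atTop atTop :=
  (tendsto_rpow_atTop hr).comp tendsto_natCast_atTop_atTop

include hT hTl in
/-- **The scale lemma.** -/
theorem scale [IsProbabilityMeasure P] (A : ℕ → Set Ω) (hA : ∀ k, MeasurableSet (A k))
    (hind : iIndepSet A P) (hP : ∀ k, P.real (A k) = q T k) (c ρ η : ℝ) (hc : 0 < c) (hρ0 : 0 < ρ) (hη : 0 < η)
    (hcρ : ρ * c + η < 1) : ∀ᶠ k : ℕ in atTop,
    (∀ t, T k ≤ t → t ≤ T (2 * k) → ∃ z : ℕ, (z : ℝ) ≤ (k : ℝ) ^ (1 / 2 : ℝ) ∧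
      (((Ioc z (z + yk c k)).filter (Rg t)).card : ℝ) ≤ ρ * (V t * yk c k)) →
    ∃ F : Set Ω, P F ≤ ENNReal.ofReal ((k : ℝ) ^ (-(1 - ρ * c - η))) ∧ ∀ ω, ω ∉ F → {k | ω ∈ A k}.Infinite →
      (k : ℝ) ^ (1 - ρ * c - η) ≤ N A c (2 * k) ω := by
  have hρc : 0 < ρ * c := by positivity
  set ε := min (η / 16) (η / (12 * (ρ * c))) with hε
  have hε0 : 0 < ε := lt_min (by positivity) (by positivity)
  have hε1 : ε ≤ η / 16 := min_le_left _ _
  have hε2 : 3 * ε * (ρ * c) ≤ η / 4 := by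
    have : ε ≤ η / (12 * (ρ * c)) := min_le_right _ _
    calc 3 * ε * (ρ * c) ≤ 3 * (η / (12 * (ρ * c))) * (ρ * c) := by gcongr
      _ = η / 4 := by field_simp; norm_num
  have hη1 : η < 1 := by linarith
  have hε3 : ε ≤ 1 / 16 := by linarith
  obtain ⟨B, K, hK, hfl⟩ := fl1 (1 / 2) (by norm_num)
  have hlpow : Tendsto (fun k : ℕ => Real.log k ^ (-(1 / 2) : ℝ)) atTop (𝓝 0) :=
    (tendsto_rpow_neg_atTop (by norm_num)).comp tlog
  filter_upwards [q_ev T hT hTl, T_small T hTl (ε / 2) (by positivity), Vinv 1 one_pos,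
    tlog.eventually_ge_atTop (2 * c + 2 ^ (B + 1) * K + 5 ),
    (hlpow.eventually_lt_const (show (0 : ℝ) < ε / (1 + ε) by positivity)),
    yk_le c ε hc hε0, log_pow_small (B + 3) (2 ^ (B + 3)) ε hε0, log_pow_small 1 24 ε hε0,
    (kpow_atTop (η / 2) (by positivity)).eventually_ge_atTop 8, eventually_ge_atTop 3, log2k] with
    k hq hTs hV hl hsm hy hM hk1 hk8 hk3 hl2 hH
  have hlam : 1 ≤ Real.log k := by
    have : 0 < 2 ^ (B + 1) * K := by positivity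
    linarith
  have hk0 : (0 : ℝ) < k := by exact_mod_cast (by omega : 0 < k)
  have hkR : (1 : ℝ) ≤ k := by exact_mod_cast (by omega : 1 ≤ k)
  set lam := Real.log k with hlamdef
  obtain ⟨y, hyd⟩ : ∃ y, y = yk c k := ⟨_, rfl⟩
  rw [← hyd] at hy hH
  obtain ⟨M, hMd⟩ : ∃ M, M = ⌈lam⌉₊ ^ (B + 3) := ⟨_, rfl⟩
  -- `M`
  have hceil : (⌈lam⌉₊ : ℝ) ≤ 2 * lam := by
    have := (Nat.ceil_lt_add_one (show 0 ≤ lam by linarith)).le
    linarith
  have hMle : (M : ℝ) ≤ (k : ℝ) ^ ε := by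
    rw [hMd]
    push_cast
    calc (⌈lam⌉₊ : ℝ) ^ (B + 3) ≤ (2 * lam) ^ (B + 3) := by gcongr
      _ = 2 ^ (B + 3) * lam ^ (B + 3) := by ring
      _ ≤ ε * (k : ℝ) ^ ε := hM
      _ ≤ 1 * (k : ℝ) ^ ε := by gcongr; linarith
      _ = _ := one_mul _
  have hMge : lam ^ (B + 3) ≤ (M : ℝ) := by
    rw [hMd]
    push_cast
    gcongr
    exact Nat.le_ceil _
  -- the interval
  obtain ⟨L, hLd⟩ : ∃ L, L = k / (T (2 * k) + 2) := ⟨_, rfl⟩
  have hL1 : k + (T (2 * k) + 1) * L ≤ 2 * k := by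
    have h1 : L * (T (2 * k) + 2) ≤ k := by
      rw [hLd]
      exact Nat.div_mul_le_self _ _
    nlinarith
  obtain ⟨a, ha1, ha2, ha3⟩ := const_int T hT k L hL1
  obtain ⟨t, htd⟩ : ∃ t, t = T a := ⟨_, rfl⟩
  have ht1 : T k ≤ t := by
    rw [htd]
    exact hT ha1
  have ht2 : t ≤ T (2 * k) := by
    rw [htd]
    exact hT (by omega)
  obtain ⟨z, hz1, hz2⟩ := hH t ht1 ht2
  have htl : (t : ℝ) ≤ ε / 2 * lam := by
    have : (t : ℝ) ≤ T (2 * k) := by exact_mod_cast ht2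
    linarith
  have htl1 : (t : ℝ) + 1 ≤ 2 * lam := by nlinarith
  have hVt : (V t)⁻¹ ≤ lam := by
    have := hV t (by linarith)
    rwa [Real.rpow_one] at this
  have hVp := V_pos t
  -- `Q`
  obtain ⟨Q, hQd⟩ : ∃ Q, Q = primorial t := ⟨_, rfl⟩
  have hQ0 : 0 < Q := by
    rw [hQd]
    exact primorial_pos t
  have hQle : (Q : ℝ) ≤ (k : ℝ) ^ ε := by
    have h1 : (Q : ℝ) ≤ (4 : ℝ) ^ t := by
      rw [hQd]
      exact_mod_cast primorial_le_four_pow t
    refine h1.trans ?_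
    have h2 : (4 : ℝ) ≤ Real.exp 2 := by
      have h3 : (4 : ℝ) ≤ Real.exp 1 * Real.exp 1 := by
        have := Real.add_one_le_exp 1
        nlinarith
      rwa [← Real.exp_add, one_add_one_eq_two] at h3
    calc (4 : ℝ) ^ t ≤ (Real.exp 2) ^ t := by gcongr
      _ = Real.exp (2 * t) := by rw [← Real.exp_nat_mul]; congr 1; ring
      _ ≤ Real.exp (ε * lam) := Real.exp_le_exp.2 (by linarith)
      _ = (k : ℝ) ^ ε := exp_log_pow k (by omega) ε
  obtain ⟨R, hRd⟩ : ∃ R, R = Q * M := ⟨_, rfl⟩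
  have hM1 : 1 ≤ M := by
    rw [hMd]
    exact Nat.one_le_pow _ _ (Nat.ceil_pos.2 (by linarith))
  have hRM : M ≤ R := by
    rw [hRd]
    exact Nat.le_mul_of_pos_left _ hQ0
  have hR1 : 1 ≤ R := hM1.trans hRM
  have hRle : (R : ℝ) ≤ (k : ℝ) ^ (2 * ε) := by
    rw [hRd]
    push_cast
    calc (Q : ℝ) * M ≤ (k : ℝ) ^ ε * (k : ℝ) ^ ε := by gcongr
      _ = _ := by rw [← Real.rpow_add hk0]; congr 1; ring
  -- large `M`
  have hbig0 : y + 2 * (K * ((t : ℝ) + 1) ^ B * (V t)⁻¹) + 2 * Real.log ((2 * k : ℕ) : ℝ) ≤ M := by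
    have h1 : (y : ℝ) ≤ 2 * c * lam ^ 2 := by
      refine hy.trans ?_
      have : (1 + ε) ≤ 2 := by linarith
      gcongr
    have h2 : K * ((t : ℝ) + 1) ^ B * (V t)⁻¹ ≤ K * (2 * lam) ^ B * lam := by gcongr
    have h3 : lam ^ 2 ≤ lam ^ (B + 2) := pow_le_pow_right₀ hlam (by omega)
    have h4 : lam ^ (B + 1) ≤ lam ^ (B + 2) := pow_le_pow_right₀ hlam (by omega)
    have h5 : lam ≤ lam ^ (B + 2) := by
      calc lam = lam ^ 1 := (pow_one _).symm
        _ ≤ _ := pow_le_pow_right₀ hlam (by omega)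
    have h6 : lam ^ (B + 3) = lam * lam ^ (B + 2) := by ring
    have h7 : (2 * c + 2 ^ (B + 1) * K + 5) * lam ^ (B + 2) ≤ lam * lam ^ (B + 2) := by gcongr
    have h8 : 2 * (K * (2 * lam) ^ B * lam) = 2 ^ (B + 1) * K * lam ^ (B + 1) := by ring
    have h9 : 2 ^ (B + 1) * K * lam ^ (B + 1) ≤ 2 ^ (B + 1) * K * lam ^ (B + 2) := by gcongr
    have h10 : 2 * c * lam ^ 2 ≤ 2 * c * lam ^ (B + 2) := by gcongr
    have h11 : (0 : ℝ) ≤ lam ^ (B + 2) := by positivity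
    rw [h6] at hMge
    have h12 : 2 * (K * ((t : ℝ) + 1) ^ B * (V t)⁻¹) ≤ 2 ^ (B + 1) * K * lam ^ (B + 2) := by
      calc 2 * (K * ((t : ℝ) + 1) ^ B * (V t)⁻¹) ≤ 2 * (K * (2 * lam) ^ B * lam) := by linarith
        _ = _ := h8
        _ ≤ _ := h9
    have h13 : (2 * c + 2 ^ (B + 1) * K + 5) * lam ^ (B + 2) = 2 * c * lam ^ (B + 2) +
        2 ^ (B + 1) * K * lam ^ (B + 2) + 5 * lam ^ (B + 2) := by ring
    rw [h13] at h7
    linarith
  have hyM : y ≤ M := by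
    have h1 : 0 ≤ 2 * (K * ((t : ℝ) + 1) ^ B * (V t)⁻¹) := by positivity
    have h2 : 0 ≤ Real.log ((2 * k : ℕ) : ℝ) := Real.log_natCast_nonneg _
    have h3 : (y : ℝ) ≤ M := by linarith
    exact_mod_cast h3
  have hyR : y ≤ R := hyM.trans hRM
  have hbig : Real.log ((2 * k : ℕ) : ℝ) ≤ 1 / 2 * ((R : ℝ) - y) - K * ((t : ℝ) + 1) ^ B * (V t)⁻¹ := by
    have h1 : (M : ℝ) ≤ R := by exact_mod_cast hRM
    linarith
  -- the number of the blocks
  have hk2ε : (k : ℝ) ^ ε ≤ (k : ℝ) ^ (1 - ε) := Real.rpow_le_rpow_of_exponent_le hkR (by linarith)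
  have hkh : (k : ℝ) ^ (1 / 2 : ℝ) ≤ (k : ℝ) ^ (1 - ε) := Real.rpow_le_rpow_of_exponent_le hkR (by linarith)
  have hk1e : (1 : ℝ) ≤ (k : ℝ) ^ (1 - ε) := Real.one_le_rpow hkR (by linarith)
  have hLge : 5 * (k : ℝ) ^ (1 - ε) ≤ L := by
    have h1 : (k : ℝ) / ((T (2 * k) + 2 : ℕ) : ℝ) < L + 1 := by
      have := Nat.lt_succ_floor ((k : ℝ) / ((T (2 * k) + 2 : ℕ) : ℝ))
      rw [Nat.floor_div_eq_div, ← hLd] at this
      push_cast at this ⊢
      exact this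
    have h2 : 6 * (k : ℝ) ^ (1 - ε) ≤ (k : ℝ) / ((T (2 * k) + 2 : ℕ) : ℝ) := by
      have hpos : (0 : ℝ) < ((T (2 * k) + 2 : ℕ) : ℝ) := by positivity
      rw [le_div_iff₀ hpos]
      have h3 : ((T (2 * k) + 2 : ℕ) : ℝ) ≤ 4 * lam := by
        push_cast
        nlinarith
      rw [pow_one] at hk1
      calc 6 * (k : ℝ) ^ (1 - ε) * ((T (2 * k) + 2 : ℕ) : ℝ) ≤ 6 * (k : ℝ) ^ (1 - ε) * (4 * lam) := by gcongr
        _ = (k : ℝ) ^ (1 - ε) * (24 * lam) := by ring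
        _ ≤ (k : ℝ) ^ (1 - ε) * (ε * (k : ℝ) ^ ε) := by gcongr
        _ ≤ (k : ℝ) ^ (1 - ε) * (1 * (k : ℝ) ^ ε) := by gcongr; linarith
        _ = k := by
          rw [one_mul, ← Real.rpow_add hk0]
          simp
    linarith
  have hQz : Q + z ≤ L := by
    have : (Q : ℝ) + z ≤ L := by linarith
    exact_mod_cast this
  obtain ⟨n, hnd⟩ : ∃ n, n = (L - (Q + z)) / R := ⟨_, rfl⟩
  have hnR : n * R ≤ L - (Q + z) := by
    rw [hnd]
    exact Nat.div_mul_le_self _ _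
  have hnge : (k : ℝ) ^ (1 - 3 * ε) ≤ n := by
    have h1 : ((L - (Q + z) : ℕ) : ℝ) / R < n + 1 := by
      have := Nat.lt_succ_floor (((L - (Q + z) : ℕ) : ℝ) / (R : ℝ))
      rw [Nat.floor_div_eq_div, ← hnd] at this
      rwa [Nat.cast_succ] at this
    have h2 : 3 * (k : ℝ) ^ (1 - ε) ≤ ((L - (Q + z) : ℕ) : ℝ) := by
      rw [Nat.cast_sub hQz]
      push_cast
      linarith
    have h3 : 3 * (k : ℝ) ^ (1 - 3 * ε) ≤ ((L - (Q + z) : ℕ) : ℝ) / R := by
      have hR0 : (0 : ℝ) < R := by exact_mod_cast hR1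
      rw [le_div_iff₀ hR0]
      refine le_trans ?_ h2
      calc 3 * (k : ℝ) ^ (1 - 3 * ε) * R ≤ 3 * (k : ℝ) ^ (1 - 3 * ε) * (k : ℝ) ^ (2 * ε) := by gcongr
        _ = 3 * (k : ℝ) ^ (1 - ε) := by
          rw [mul_assoc, ← Real.rpow_add hk0]
          congr 2
          ring
    have h4 : (1 : ℝ) ≤ (k : ℝ) ^ (1 - 3 * ε) := Real.one_le_rpow hkR (by linarith)
    linarith
  have hn1 : 1 ≤ n := by
    have h4 : (1 : ℝ) ≤ (k : ℝ) ^ (1 - 3 * ε) := Real.one_le_rpow hkR (by linarith)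
    have : (1 : ℝ) ≤ n := h4.trans hnge
    exact_mod_cast this
  -- the start
  obtain ⟨u, hud⟩ : ∃ u, u = Q * (a / Q + 1) := ⟨_, rfl⟩
  have hu1 : a < u := by
    rw [hud]
    exact Nat.lt_mul_div_succ a hQ0
  have hu2 : u ≤ a + Q := by
    have := Nat.mul_div_le a Q
    rw [hud, mul_add, mul_one]
    omega
  have huQ : Q ∣ u := by
    rw [hud]
    exact Dvd.intro _ rfl
  obtain ⟨θ, hθd⟩ : ∃ θ, θ = 1 / 2 * Real.exp (-((1 + ε) ^ 2 * ρ * c * lam)) := ⟨_, rfl⟩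
  have hθ0 : 0 < θ := by
    rw [hθd]
    positivity
  have hX : u + z + n * R ≤ 2 * k := by omega
  obtain ⟨F, hF1, hF2⟩ := blocks (P := P) A hA hind (u + z) y R n (2 * k) hyR hR1 hX c hc
      (by rw [hyd]; exact Nat.le_ceil _) θ hθ0 hn1 (by
    intro i hi
    rw [hθd]
    have hi1 : (i + 1) * R ≤ n * R := Nat.mul_le_mul_right _ hi
    have hi2 : u + z + i * R + R ≤ a + L := by
      have : (i + 1) * R = i * R + R := by ring
      omega
    have e1 : u + z + i * R = (u + i * R) + z := by ring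
    refine Bk_low T A hA hind hP k (u + z + i * R) y R t hk3 hlam (by omega) (by omega) ?_ hq ε c ρ hε0 hρ0 hsm.le
      ?_ hy hyR K B hfl hbig
    · intro j hj1 hj2
      have h1 : T a ≤ T j := hT (by omega)
      have h2 : T j ≤ T (a + L) := hT (by omega)
      omega
    · rw [e1, count_shift t z y (u + i * R)]
      · exact hz2
      · rw [← hQd]
        refine Dvd.dvd.add huQ ?_
        rw [hRd]
        exact (Dvd.intro _ rfl : Q ∣ Q * M).mul_left i)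
  -- the expected number
  have hθ1 : 1 / 2 * (k : ℝ) ^ (-(ρ * c + η / 4)) ≤ θ := by
    rw [hθd, ← exp_log_pow k (by omega)]
    gcongr
    have h1 : (1 + ε) ^ 2 * ρ * c ≤ ρ * c + η / 4 := by
      have h2 : (1 + ε) ^ 2 ≤ 1 + 3 * ε := by nlinarith
      calc (1 + ε) ^ 2 * ρ * c = (1 + ε) ^ 2 * (ρ * c) := by ring
        _ ≤ (1 + 3 * ε) * (ρ * c) := by gcongr
        _ ≤ _ := by linarith
    have h3 := mul_le_mul_of_nonneg_right h1 (show 0 ≤ lam by linarith)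
    linarith
  have hnθ : 4 * (k : ℝ) ^ (1 - ρ * c - η) ≤ n * θ := by
    calc 4 * (k : ℝ) ^ (1 - ρ * c - η) ≤ (1 / 2 * (k : ℝ) ^ (η / 2)) * (k : ℝ) ^ (1 - ρ * c - η) := by
          gcongr
          linarith
      _ = 1 / 2 * (k : ℝ) ^ (1 - ρ * c - η / 2) := by
          rw [mul_assoc, ← Real.rpow_add hk0]
          congr 2
          ring
      _ ≤ 1 / 2 * (k : ℝ) ^ ((1 - 3 * ε) + -(ρ * c + η / 4)) := by
          gcongr
          linarith
      _ = (k : ℝ) ^ (1 - 3 * ε) * (1 / 2 * (k : ℝ) ^ (-(ρ * c + η / 4))) := by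
          rw [Real.rpow_add hk0]
          ring
      _ ≤ n * θ := by gcongr
  have hke : (1 : ℝ) ≤ (k : ℝ) ^ (1 - ρ * c - η) := Real.one_le_rpow hkR (by linarith)
  refine ⟨F, hF1.trans (ENNReal.ofReal_le_ofReal ?_), fun ω hω hinf => ?_⟩
  · rw [Real.rpow_neg hk0.le]
    have hpos : 0 < (k : ℝ) ^ (1 - ρ * c - η) := by positivity
    rw [div_le_iff₀ (by linarith)]
    calc (4 : ℝ) = ((k : ℝ) ^ (1 - ρ * c - η))⁻¹ * (4 * (k : ℝ) ^ (1 - ρ * c - η)) := by field_simp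
      _ ≤ _ := by gcongr
  · have := hF2 ω hω hinf
    linarith

end

end Pool.Agent.T2H32.GM
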