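import Pool.Agent.T2H32.GM.Mod

set_option autoImplicit false

/-! # The upper bounds -/

open MeasureTheory ProbabilityTheory Filter Topology Finset
open scoped ENNReal
open Pool.Agent.T2H32.BF (V V_pos V_anti mertens)
open Pool.Agent.T2H32.CM (S E Large p g)

namespace Pool.Agent.T2H32.GM

/-- the function for which `log² + ψ log = c log²` -/
noncomputable def ψc (c : ℝ) (k : ℕ) : ℝ := (c - 1) * Real.log k

theorem m_eq (c : ℝ) (k : ℕ) : Pool.Agent.T2H32.CM.m (ψc c) k = ⌈c * Real.log k ^ 2⌉₊ := by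
  unfold Pool.Agent.T2H32.CM.m ψc
  congr 1
  ring

theorem N_eq {Ω : Type*} (A : ℕ → Set Ω) (c : ℝ) (x : ℕ) (ω : Ω) (hinf : {k | ω ∈ A k}.Infinite) :
    (N A c x ω : ℝ) = S (E A (ψc c)) (x + 1) ω := by
  rw [← Pool.Agent.T2H32.CM.count_eq A (ψc c) ω hinf x]
  unfold N
  congr 2
  ext n
  simp only [Set.mem_ofPred_eq]
  refine and_congr_left fun _ => ?_
  unfold Large ψc
  have e : Real.log (p A ω n) ^ 2 + (c - 1) * Real.log (p A ω n) * Real.log (p A ω n) =
      c * Real.log (p A ω n) ^ 2 := by ring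
  rw [e]

theorem log2_bounds' (ε : ℝ) (hε : 0 < ε) : ∀ᶠ k : ℕ in atTop,
    Real.log k ≤ Real.log ((2 * k : ℕ) : ℝ) ∧ Real.log ((2 * k : ℕ) : ℝ) ≤ (1 + ε) * Real.log k := by
  filter_upwards [eventually_ge_atTop 1, tlog.eventually_ge_atTop (1 / ε)] with k hk h1
  have hk0 : (0 : ℝ) < k := by exact_mod_cast hk
  push_cast
  rw [Real.log_mul (by norm_num) hk0.ne']
  have h2 := Real.log_two_lt_d9
  have h3 := Real.log_two_gt_d9
  rw [div_le_iff₀ hε] at h1
  constructor <;> linarith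

section

variable (T : ℕ → ℕ) (hT : Monotone T) (hTl : Tendsto (fun k : ℕ => (T k : ℝ) / Real.log k) atTop (𝓝 0))

theorem Tpow (hlog : Tendsto (fun k : ℕ => Real.log (T k) / Real.log (Real.log k)) atTop (𝓝 0)) (B : ℕ)
    (s : ℝ) (hs : 0 < s) : ∀ᶠ k : ℕ in atTop, ((T (2 * k) : ℝ) + 1) ^ B ≤ Real.log k ^ s := by
  set r := s / (B + 1) with hr
  have hr0 : 0 < r := by positivity
  have h1 := (hlog.comp t2).eventually_lt_const (show (0 : ℝ) < r / 2 by positivity)
  have h2 : Tendsto (fun k : ℕ => Real.log k ^ (r / 2)) atTop atTop := (tendsto_rpow_atTop (by positivity)).comp tlog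
  filter_upwards [h1, log2k, tlog.eventually_ge_atTop 3, eventually_ge_atTop 1,
    h2.eventually_ge_atTop (2 * 2 ^ (r / 2))] with k h1 h2 h3 h4 h5
  simp only [Function.comp_apply] at h1
  have hl : Real.log k ≤ Real.log ((2 * k : ℕ) : ℝ) :=
    Real.log_le_log (by exact_mod_cast h4) (by exact_mod_cast (by omega : k ≤ 2 * k))
  have hll : 0 < Real.log (Real.log ((2 * k : ℕ) : ℝ)) := Real.log_pos (by linarith)
  rw [div_lt_iff₀ hll] at h1
  have hlk : 0 < Real.log ((2 * k : ℕ) : ℝ) := by linarith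
  have h6 : (T (2 * k) : ℝ) ≤ Real.log ((2 * k : ℕ) : ℝ) ^ (r / 2) := by
    rcases Nat.eq_zero_or_pos (T (2 * k)) with h | h
    · rw [h, Nat.cast_zero]
      positivity
    · have hT0 : (0 : ℝ) < T (2 * k) := by exact_mod_cast h
      rw [← Real.exp_log hT0, Real.rpow_def_of_pos hlk]
      apply Real.exp_le_exp.2
      linarith
  have h7 : Real.log ((2 * k : ℕ) : ℝ) ^ (r / 2) ≤ 2 ^ (r / 2) * Real.log k ^ (r / 2) := by
    rw [← Real.mul_rpow (by norm_num) (by linarith)]
    exact Real.rpow_le_rpow hlk.le h2 (by positivity)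
  have h8 : 1 ≤ 2 ^ (r / 2) * Real.log k ^ (r / 2) := by
    have h9 : (1 : ℝ) ≤ 2 ^ (r / 2) := Real.one_le_rpow (by norm_num) (by positivity)
    have h10 : (1 : ℝ) ≤ Real.log k ^ (r / 2) := Real.one_le_rpow (by linarith) (by positivity)
    nlinarith
  have h9 : (T (2 * k) : ℝ) + 1 ≤ Real.log k ^ r := by
    calc (T (2 * k) : ℝ) + 1 ≤ 2 * 2 ^ (r / 2) * Real.log k ^ (r / 2) := by linarith
      _ ≤ Real.log k ^ (r / 2) * Real.log k ^ (r / 2) := by gcongr
      _ = Real.log k ^ r := by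
        rw [← Real.rpow_add (by linarith)]
        congr 1
        ring
  calc ((T (2 * k) : ℝ) + 1) ^ B ≤ (Real.log k ^ r) ^ B := by gcongr
    _ = Real.log k ^ (r * B) := by rw [← Real.rpow_natCast (Real.log k ^ r), ← Real.rpow_mul (by linarith)]
    _ ≤ Real.log k ^ s := by
      apply Real.rpow_le_rpow_of_exponent_le (by linarith)
      rw [hr, div_mul_eq_mul_div, div_le_iff₀ (by positivity)]
      nlinarith

include hT hTl in
theorem up_sum (hlog : Tendsto (fun k : ℕ => Real.log (T k) / Real.log (Real.log k)) atTop (𝓝 0))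
    (c η : ℝ) (hc : 0 < c) (hη : 0 < η) (hηc : η < c) : ∀ᶠ k : ℕ in atTop,
    (c - η) * Real.log k ≤ ∑ j ∈ Ioc k (k + ⌈c * Real.log k ^ 2⌉₊), q T j := by
  set ε := min (η / (3 * c)) (1 / 3) with hε
  have hε0 : 0 < ε := lt_min (by positivity) (by norm_num)
  have hε1 : 3 * c * ε ≤ η := by
    have : ε ≤ η / (3 * c) := min_le_left _ _
    rw [le_div_iff₀ (by positivity)] at this
    linarith
  have hε2 : ε ≤ 1 / 3 := min_le_right _ _
  obtain ⟨B, K, hK, h⟩ := qsum T hT hTl ε hε0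
  filter_upwards [h, T_small T hTl 2 (by norm_num), Vinv (1 / 2) (by norm_num), Tpow T hlog B (1 / 2) (by norm_num),
    log2_bounds' ε hε0, tlog.eventually_ge_atTop (max 1 (K / (ε * c))), log_pow_small 2 c (1 / 2) (by norm_num),
    eventually_ge_atTop 2] with k h1 h2 h3 h4 h5 h6 h7 h8
  have hl1 : 1 ≤ Real.log k := (le_max_left _ _).trans h6
  have hlK : K / (ε * c) ≤ Real.log k := (le_max_right _ _).trans h6
  rw [div_le_iff₀ (by positivity)] at hlK
  set lam := Real.log k with hlam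
  obtain ⟨m, hm⟩ : ∃ m, m = ⌈c * lam ^ 2⌉₊ := ⟨_, rfl⟩
  rw [← hm]
  have hk2 : (2 : ℝ) ≤ k := by exact_mod_cast h8
  have hmk : m ≤ k := by
    have h9 := (Nat.ceil_lt_add_one (show 0 ≤ c * lam ^ 2 by positivity)).le
    rw [← hm] at h9
    have h10 : (k : ℝ) ^ (1 / 2 : ℝ) ≤ k := by
      calc (k : ℝ) ^ (1 / 2 : ℝ) ≤ (k : ℝ) ^ (1 : ℝ) := Real.rpow_le_rpow_of_exponent_le (by linarith) (by norm_num)
        _ = k := Real.rpow_one _
    have h11 : (m : ℝ) ≤ k := by linarith
    exact_mod_cast h11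
  refine le_trans ?_ (h1 m hmk)
  have hmc : c * lam ^ 2 ≤ m := by
    rw [hm]
    exact Nat.le_ceil _
  have hT2 : T (k + m) ≤ T (2 * k) := hT (by omega)
  have hT2' : (T (k + m) : ℝ) ≤ T (2 * k) := by exact_mod_cast hT2
  have herr : K * ((T (k + m) : ℝ) + 1) ^ B * (V (T (k + m)))⁻¹ ≤ K * lam := by
    calc K * ((T (k + m) : ℝ) + 1) ^ B * (V (T (k + m)))⁻¹ ≤ K * ((T (2 * k) : ℝ) + 1) ^ B * (V (T (2 * k)))⁻¹ := by
          have hV := V_pos (T (k + m))
          have := Vinv_anti _ _ hT2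
          gcongr
      _ ≤ K * lam ^ (1 / 2 : ℝ) * lam ^ (1 / 2 : ℝ) := by
          have hV := V_pos (T (2 * k))
          have := h3 (T (2 * k)) h2
          gcongr
      _ = K * lam := by
          rw [mul_assoc, ← Real.rpow_add (by linarith)]
          norm_num
  have hl2 : 0 < Real.log ((2 * k : ℕ) : ℝ) := by linarith [h5.1]
  rw [le_div_iff₀ hl2]
  have h9 : K * lam ≤ ε * c * lam ^ 2 := by
    have := mul_le_mul_of_nonneg_right hlK (show 0 ≤ lam by linarith)
    calc K * lam ≤ lam * (ε * c) * lam := this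
      _ = _ := by ring
  have h10 : (1 - ε) * (c * lam ^ 2) ≤ (1 - ε) * m := by
    have : 0 ≤ 1 - ε := by linarith
    gcongr
  calc (c - η) * lam * Real.log ((2 * k : ℕ) : ℝ) ≤ (c - η) * lam * ((1 + ε) * lam) := by
        have : 0 ≤ (c - η) * lam := mul_nonneg (by linarith) (by linarith)
        exact mul_le_mul_of_nonneg_left h5.2 this
    _ = ((c - η) * (1 + ε)) * lam ^ 2 := by ring
    _ ≤ (c * (1 - 2 * ε)) * lam ^ 2 := by
        refine mul_le_mul_of_nonneg_right ?_ (sq_nonneg _)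
        nlinarith
    _ = (1 - ε) * (c * lam ^ 2) - ε * c * lam ^ 2 := by ring
    _ ≤ _ := by linarith

variable {Ω : Type*} [MeasurableSpace Ω] {P : Measure Ω}

include hT hTl in
theorem PE_le [IsProbabilityMeasure P] (A : ℕ → Set Ω) (hA : ∀ k, MeasurableSet (A k))
    (hind : iIndepSet A P) (hP : ∀ k, P.real (A k) = q T k)
    (hlog : Tendsto (fun k : ℕ => Real.log (T k) / Real.log (Real.log k)) atTop (𝓝 0))
    (c η : ℝ) (hc : 0 < c) (hη : 0 < η) (hηc : η < c) : ∀ᶠ k : ℕ in atTop,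
    P.real (E A (ψc c) k) ≤ (k : ℝ) ^ (-(c - η)) := by
  filter_upwards [up_sum T hT hTl hlog c η hc hη hηc, eventually_ge_atTop 1] with k h1 h2
  have hk0 : (0 : ℝ) < k := by exact_mod_cast h2
  have h3 : E A (ψc c) k ⊆ Em A k (k + ⌈c * Real.log k ^ 2⌉₊) := by
    unfold E Em
    rw [m_eq]
    exact Set.inter_subset_right
  refine (measureReal_mono h3).trans ?_
  rw [real_Em A hA hind]
  simp only [hP]
  refine (prod_le T _ _).trans ?_
  rw [Real.rpow_def_of_pos hk0]
  apply Real.exp_le_exp.2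
  linarith

include hT hTl in
/-- **Upper bound.** -/
theorem up_ae [IsProbabilityMeasure P] (A : ℕ → Set Ω) (hA : ∀ k, MeasurableSet (A k))
    (hind : iIndepSet A P) (hP : ∀ k, P.real (A k) = q T k)
    (hlog : Tendsto (fun k : ℕ => Real.log (T k) / Real.log (Real.log k)) atTop (𝓝 0))
    (c s : ℝ) (hc : 0 < c) (hs : 0 ≤ s) (hsc : 1 - c < s) :
    ∀ᵐ ω ∂P, ∃ C : ℝ, ∀ x : ℕ, (N A c x ω : ℝ) ≤ C * ((x : ℝ) + 1) ^ s := by
  set η := min (c / 2) ((s + c - 1) / 2) with hη
  have hη0 : 0 < η := lt_min (by positivity) (by linarith)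
  have hηc : η < c := (min_le_left _ _).trans_lt (by linarith)
  have hηs : 1 < s + (c - η) := by
    have : η ≤ (s + c - 1) / 2 := min_le_right _ _
    linarith
  set f : ℕ → ℝ := fun k => ((k : ℝ) + 1) ^ (-s) * P.real (E A (ψc c) k) with hf
  have hf0 : ∀ k, 0 ≤ f k := fun k => by
    simp only [hf]
    positivity
  have hfs : Summable f := by
    have h1 : Summable (fun k : ℕ => (k : ℝ) ^ (-(s + (c - η)))) :=
      Real.summable_nat_rpow.2 (by linarith)
    refine summable_of_isBigO_nat h1 ?_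
    refine Asymptotics.IsBigO.of_bound 1 ?_
    filter_upwards [PE_le T hT hTl A hA hind hP hlog c η hc hη0 hηc, eventually_ge_atTop 1] with k h2 h3
    have hk0 : (0 : ℝ) < k := by exact_mod_cast h3
    rw [Real.norm_of_nonneg (hf0 k), Real.norm_of_nonneg (by positivity), one_mul]
    simp only [hf]
    calc ((k : ℝ) + 1) ^ (-s) * P.real (E A (ψc c) k) ≤ (k : ℝ) ^ (-s) * (k : ℝ) ^ (-(c - η)) := by
          have : ((k : ℝ) + 1) ^ (-s) ≤ (k : ℝ) ^ (-s) :=
            Real.rpow_le_rpow_of_nonpos hk0 (by linarith) (by linarith)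
          gcongr
      _ = _ := by
          rw [← Real.rpow_add hk0]
          congr 1
          ring
  set W : Ω → ℝ≥0∞ := fun ω => ∑' k : ℕ, (E A (ψc c) k).indicator
    (fun _ => ENNReal.ofReal (((k : ℝ) + 1) ^ (-s))) ω with hW
  have hEm : ∀ k, MeasurableSet (E A (ψc c) k) := Pool.Agent.T2H32.CM.measurable_E A hA (ψc c)
  have hWi : ∫⁻ ω, W ω ∂P ≠ ∞ := by
    simp only [hW]
    rw [lintegral_tsum fun k => (measurable_const.indicator (hEm k)).aemeasurable]
    have h1 : ∀ k : ℕ, ∫⁻ ω, (E A (ψc c) k).indicator (fun _ => ENNReal.ofReal (((k : ℝ) + 1) ^ (-s))) ω ∂P =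
        ENNReal.ofReal (f k) := by
      intro k
      rw [lintegral_indicator_const (hEm k)]
      simp only [hf]
      rw [ENNReal.ofReal_mul (by positivity), ofReal_measureReal]
    simp only [h1]
    exact hfs.tsum_ofReal_ne_top
  have hWm : Measurable W := by
    simp only [hW]
    exact Measurable.tsum fun k => measurable_const.indicator (hEm k)
  filter_upwards [ae_lt_top hWm hWi, inf_A T hT hTl A hA hind hP] with ω hω hinf
  refine ⟨(W ω).toReal, fun x => ?_⟩
  rw [N_eq A c x ω hinf]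
  have hx0 : (0 : ℝ) < (x : ℝ) + 1 := by positivity
  have h1 : S (E A (ψc c)) (x + 1) ω ≤ ∑ k ∈ range (x + 1), ((x : ℝ) + 1) ^ s *
      (E A (ψc c) k).indicator (fun _ => ((k : ℝ) + 1) ^ (-s)) ω := by
    unfold S
    refine sum_le_sum fun k hk => ?_
    rw [mem_range] at hk
    by_cases h : ω ∈ E A (ψc c) k
    · rw [Set.indicator_of_mem h, Set.indicator_of_mem h]
      have hk0 : (0 : ℝ) < (k : ℝ) + 1 := by positivity
      have hkx : (k : ℝ) + 1 ≤ (x : ℝ) + 1 := by
        have : (k : ℝ) ≤ x := by exact_mod_cast (by omega : k ≤ x)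
        linarith
      rw [Real.rpow_neg hk0.le]
      have h2 : ((k : ℝ) + 1) ^ s ≤ ((x : ℝ) + 1) ^ s := Real.rpow_le_rpow hk0.le hkx hs
      rw [← div_eq_mul_inv, le_div_iff₀ (by positivity), one_mul]
      exact h2
    · rw [Set.indicator_of_notMem h, Set.indicator_of_notMem h, mul_zero]
  refine h1.trans ?_
  rw [← mul_sum, mul_comm]
  gcongr
  rw [← ENNReal.ofReal_le_iff_le_toReal hω.ne, ENNReal.ofReal_sum_of_nonneg]
  · refine le_trans (le_of_eq ?_) (ENNReal.sum_le_tsum (range (x + 1)))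
    refine sum_congr rfl fun k _ => ?_
    by_cases h : ω ∈ E A (ψc c) k
    · rw [Set.indicator_of_mem h, Set.indicator_of_mem h]
    · rw [Set.indicator_of_notMem h, Set.indicator_of_notMem h, ENNReal.ofReal_zero]
  · intro k _
    refine Set.indicator_nonneg (fun _ _ => by positivity) _

end

end Pool.Agent.T2H32.GM
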