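import Pool.Agent.TH882.FL
import Pool.Agent.T2H32.BF.Num

set_option autoImplicit false

/-! # The fundamental lemma for rough numbers in intervals -/

open Finset Filter Topology
open Pool.Agent.T2H32.BF (V V_pos V_anti mertens)

namespace Pool.Agent.T2H32.GM

/-- `n` has no prime factor `≤ T` -/
def Rg (T n : ℕ) : Prop := ∀ p ≤ T, p.Prime → ¬ p ∣ n

instance (T n : ℕ) : Decidable (Rg T n) := by unfold Rg; infer_instance

theorem cls (m : ℕ) (hm : 0 < m) (r k y : ℕ) :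
    |(((Ioc k (k + y)).filter (fun n => n ≡ r [MOD m])).card : ℝ) - y / m| ≤ 1 := by
  have h := Nat.Ioc_filter_modEq_card (a := k) (b := k + y) hm r
  have hm0 : (0 : ℚ) < m := by exact_mod_cast hm
  have h1 : ((k : ℚ) - r) / m ≤ (((k + y : ℕ) : ℚ) - r) / m := by
    push_cast
    gcongr
    linarith [(Nat.cast_nonneg y : (0 : ℚ) ≤ y)]
  have h2 := Int.floor_le_floor h1
  rw [max_eq_left (by linarith)] at h
  have h3 := Int.floor_le (((k : ℚ) - r) / m)
  have h4 := Int.lt_floor_add_one (((k : ℚ) - r) / m)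
  have h5 := Int.floor_le ((((k + y : ℕ) : ℚ) - r) / m)
  have h6 := Int.lt_floor_add_one ((((k + y : ℕ) : ℚ) - r) / m)
  have h7 : (((k + y : ℕ) : ℚ) - r) / m = ((k : ℚ) - r) / m + y / m := by
    push_cast
    ring
  have h8 : |(((Ioc k (k + y)).filter (fun n => n ≡ r [MOD m])).card : ℚ) - y / m| ≤ 1 := by
    have h9 : (((Ioc k (k + y)).filter (fun n => n ≡ r [MOD m])).card : ℚ) =
        ((⌊(((k + y : ℕ) : ℚ) - r) / m⌋ - ⌊((k : ℚ) - r) / m⌋ : ℤ) : ℚ) := by
      rw [← h]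
      push_cast
      rfl
    rw [h9, abs_le]
    push_cast at h5 h6 h7 ⊢
    constructor <;> linarith
  have h9 : ((|(((Ioc k (k + y)).filter (fun n => n ≡ r [MOD m])).card : ℚ) - y / m| : ℚ) : ℝ) ≤ ((1 : ℚ) : ℝ) := by
    exact_mod_cast h8
  push_cast at h9
  exact h9

/-- numbers in a class modulo `Q` divisible by `D` -/
theorem cls2 (Q D : ℕ) (hQ : 0 < Q) (hD : 0 < D) (hcop : Q.Coprime D) (a k y : ℕ) :
    |(((Ioc k (k + y)).filter (fun n => n ≡ a [MOD Q] ∧ D ∣ n)).card : ℝ) - (y / Q) / D| ≤ 1 := by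
  obtain ⟨r, hr1, hr2⟩ := Nat.chineseRemainder hcop a 0
  have e : (Ioc k (k + y)).filter (fun n => n ≡ a [MOD Q] ∧ D ∣ n) =
      (Ioc k (k + y)).filter (fun n => n ≡ r [MOD (Q * D)]) := by
    refine filter_congr fun n _ => ?_
    rw [← Nat.modEq_and_modEq_iff_modEq_mul hcop]
    constructor
    · rintro ⟨h1, h2⟩
      exact ⟨h1.trans hr1.symm, ((Nat.modEq_zero_iff_dvd).2 h2).trans hr2.symm⟩
    · rintro ⟨h1, h2⟩
      exact ⟨h1.trans hr1, (Nat.modEq_zero_iff_dvd).1 (h2.trans hr2)⟩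
  rw [e]
  have := cls (Q * D) (Nat.mul_pos hQ hD) r k y
  push_cast at this
  rw [div_div]
  exact this

theorem totient_primorial (z : ℕ) : ((primorial z).totient : ℝ) = primorial z * V z := by
  have h := Nat.totient_eq_mul_prod_factors (primorial z)
  have h1 : ((primorial z).totient : ℝ) = (primorial z : ℝ) * ∏ p ∈ (primorial z).primeFactors, (1 - (p : ℝ)⁻¹) := by
    have h2 : (((primorial z).totient : ℚ) : ℝ) =
        (((primorial z : ℚ) * ∏ p ∈ (primorial z).primeFactors, (1 - (p : ℚ)⁻¹) : ℚ) : ℝ) := by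
      rw [h]
    push_cast at h2
    exact h2
  rw [h1, primeFactors_primorial]
  congr 1
  unfold V
  refine prod_congr ?_ fun p _ => by rw [one_div]
  ext p
  rw [Nat.mem_primesLE]
  simp [Nat.lt_succ_iff]

/-- the parameter `J` -/
def Jf (T : ℕ) : ℕ := Nat.clog 2 (Nat.clog 2 T)

theorem J1 (T : ℕ) : T ≤ 2 ^ 2 ^ Jf T := by
  have h1 := Nat.le_pow_clog (by norm_num : 1 < 2) T
  have h2 := Nat.le_pow_clog (by norm_num : 1 < 2) (Nat.clog 2 T)
  exact h1.trans (Nat.pow_le_pow_right (by norm_num) h2)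

theorem J2 (T : ℕ) (hT : 1 ≤ T) : 2 ^ 2 ^ Jf T ≤ 4 * T ^ 2 := by
  unfold Jf
  set L := Nat.clog 2 T with hL
  rcases le_or_gt L 1 with h | h
  · have h1 : Nat.clog 2 L = 0 := Nat.clog_of_right_le_one h 2
    rw [h1]
    norm_num
    nlinarith
  · have hT1 : 1 < T := by
      by_contra h2
      push Not at h2
      have : L = 0 := Nat.clog_of_right_le_one h2 2
      omega
    have h1 := Nat.pow_pred_clog_lt_self (by norm_num : 1 < 2) h
    have h2 := Nat.pow_pred_clog_lt_self (by norm_num : 1 < 2) hT1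
    rw [← hL] at h2
    set J := Nat.clog 2 L with hJ
    have hJ0 : 0 < J := Nat.clog_pos (by norm_num) h
    have e1 : 2 ^ J = 2 * 2 ^ (J - 1) := by
      rw [← pow_succ']
      congr 1
      omega
    have h3 : 2 ^ J ≤ 2 * (L - 1) := by
      rw [e1]
      have : 2 ^ (J - 1) < L := h1
      omega
    calc 2 ^ 2 ^ J ≤ 2 ^ (2 * (L - 1)) := Nat.pow_le_pow_right (by norm_num) h3
      _ = (2 ^ (L - 1)) ^ 2 := by rw [← pow_mul]; congr 1; ring
      _ ≤ T ^ 2 := by
        apply Nat.pow_le_pow_left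
        exact h2.le
      _ ≤ _ := by nlinarith

theorem J3 (T : ℕ) (hT : 1 ≤ T) : Jf T + 2 ≤ 3 * T := by
  have h1 : ∀ n : ℕ, Nat.clog 2 n ≤ n := fun n => Nat.clog_le_of_le_pow Nat.lt_two_pow_self.le
  have h2 : Jf T ≤ T := (h1 _).trans (h1 _)
  omega

/-- **Fundamental lemma** for rough numbers in intervals, all levels. -/
theorem fl_main : ∃ C0 : ℕ, 1 ≤ C0 ∧ ∀ b : ℕ, C0 ≤ b → ∃ K : ℝ, 0 < K ∧ ∀ T k y : ℕ, 1 ≤ T →
    |(((Ioc k (k + y)).filter (Rg T)).card : ℝ) - V T * y| ≤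
      (1 / 2 : ℝ) ^ b * (V T * y) + K * (T : ℝ) ^ (4 * C0 * b + 1) := by
  obtain ⟨C0, hC0, hfl⟩ := Pool.Agent.TH882.FL.fl1 1
  refine ⟨C0, hC0, fun b hb => ⟨(primorial C0 : ℝ) * (3 * 4 ^ (2 * C0 * b)), ?_, ?_⟩⟩
  · have := primorial_pos C0
    positivity
  intro T k y hT
  set z1 := min C0 T with hz1
  set Q := primorial z1 with hQ
  have hQ0 : 0 < Q := primorial_pos z1
  set P := (Ioc z1 T).filter Nat.Prime with hP
  have hPz : ∀ p ∈ P, p.Prime ∧ C0 < p ∧ p ≤ 2 ^ 2 ^ Jf T := by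
    intro p hp
    rw [hP, mem_filter, mem_Ioc] at hp
    refine ⟨hp.2, ?_, hp.1.2.trans (J1 T)⟩
    have := hp.1.1
    rw [hz1] at this
    rcases min_lt_iff.1 this with h | h
    · exact h
    · omega
  have hPQ : ∀ p ∈ P, p.Coprime Q := by
    intro p hp
    rw [hP, mem_filter, mem_Ioc] at hp
    rw [hp.2.coprime_iff_not_dvd]
    intro hdvd
    rw [hQ] at hdvd
    have h1 := hp.2.dvd_primorial_iff.1 hdvd
    exact absurd hp.1.1 (not_lt.2 h1)
  have hmain : ∀ a : ℕ, |((((Ioc k (k + y)).filter (fun n => n ≡ a [MOD Q])).filter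
      (fun n => ∀ p ∈ P, n % p ∉ ({0} : Finset ℕ))).card : ℝ) -
        (y / Q) * ∏ p ∈ P, (1 - 1 / (p : ℝ))| ≤
      (1 / 2 : ℝ) ^ b * ((y / Q) * ∏ p ∈ P, (1 - 1 / (p : ℝ))) +
        ((Jf T : ℝ) + 2) * (((2 ^ 2 ^ Jf T : ℕ) : ℝ) ^ (C0 * b)) ^ 2 := by
    intro a
    have h := hfl b (Jf T) C0 P (fun _ => {0}) hb le_rfl hPz (fun p _ => by simp)
      ((Ioc k (k + y)).filter (fun n => n ≡ a [MOD Q])) (y / Q) (by positivity) ?_
    · simpa using h
    · intro T' hT' c hc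
      have hc0 : ∀ p ∈ T', c p = 0 := fun p hp => by simpa using hc p hp
      have hprime : ∀ p ∈ T', p.Prime := fun p hp => (hPz p (hT' hp)).1
      have e : ((Ioc k (k + y)).filter (fun n => n ≡ a [MOD Q])).filter (fun n => ∀ p ∈ T', n % p = c p) =
          (Ioc k (k + y)).filter (fun n => n ≡ a [MOD Q] ∧ (∏ p ∈ T', p) ∣ n) := by
        rw [filter_filter]
        refine filter_congr fun n _ => ?_
        refine and_congr_right fun _ => ?_
        constructor
        · intro h1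
          refine Finset.prod_primes_dvd n (fun p hp => (hprime p hp).prime) fun p hp => ?_
          exact Nat.dvd_of_mod_eq_zero ((h1 p hp).trans (hc0 p hp))
        · intro h1 p hp
          rw [hc0 p hp]
          exact Nat.mod_eq_zero_of_dvd ((dvd_prod_of_mem _ hp).trans h1)
      rw [e]
      have hD : 0 < ∏ p ∈ T', p := prod_pos fun p hp => (hprime p hp).pos
      have := cls2 Q (∏ p ∈ T', p) hQ0 hD
        (Nat.Coprime.symm (Nat.Coprime.prod_left fun p hp => hPQ p (hT' hp))) a k y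
      push_cast at this
      exact this
  have hcount : ((Ioc k (k + y)).filter (Rg T)).card =
      ∑ a ∈ (range Q).filter (Nat.Coprime Q), ((((Ioc k (k + y)).filter (fun n => n ≡ a [MOD Q])).filter
      (fun n => ∀ p ∈ P, n % p ∉ ({0} : Finset ℕ))).card) := by
    rw [card_eq_sum_card_fiberwise (f := fun n => n % Q) (t := (range Q).filter (Nat.Coprime Q))]
    · refine sum_congr rfl fun a ha => ?_
      rw [mem_filter, mem_range] at ha
      congr 1
      ext n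
      simp only [mem_filter, mem_singleton]
      constructor
      · rintro ⟨⟨h1, h2⟩, h3⟩
        refine ⟨⟨h1, ?_⟩, ?_⟩
        · rw [Nat.ModEq, h3, Nat.mod_eq_of_lt ha.1]
        · intro p hp h4
          rw [hP, mem_filter, mem_Ioc] at hp
          exact h2 p hp.1.2 hp.2 (Nat.dvd_of_mod_eq_zero h4)
      · rintro ⟨⟨h1, h2⟩, h3⟩
        have h4 : n % Q = a := by
          rw [Nat.ModEq, Nat.mod_eq_of_lt ha.1] at h2
          exact h2
        refine ⟨⟨h1, ?_⟩, h4⟩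
        intro p hp1 hp2 hdvd
        rcases le_or_gt p z1 with h5 | h5
        · have h6 : p ∣ Q := by
            rw [hQ]
            exact hp2.dvd_primorial_iff.2 h5
          have h7 : p ∣ a := by
            rw [← h4]
            exact (Nat.dvd_mod_iff h6).2 hdvd
          have h8 := Nat.dvd_gcd h6 h7
          rw [ha.2] at h8
          exact hp2.one_lt.ne' (Nat.dvd_one.1 h8)
        · exact h3 p (by rw [hP, mem_filter, mem_Ioc]; exact ⟨⟨h5, hp1⟩, hp2⟩) (Nat.mod_eq_zero_of_dvd hdvd)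
    · intro n hn
      rw [mem_coe, mem_filter] at hn
      rw [mem_coe, mem_filter, mem_range]
      refine ⟨Nat.mod_lt _ hQ0, ?_⟩
      have hc : Nat.Coprime Q (n % Q) ↔ Nat.Coprime Q n := by
        unfold Nat.Coprime
        rw [Nat.gcd_comm Q (n % Q), ← Nat.gcd_rec]
      show Nat.Coprime Q (n % Q)
      rw [hc, hQ]
      unfold primorial
      refine Nat.Coprime.prod_left fun p hp => ?_
      rw [mem_filter, mem_range] at hp
      rw [hp.2.coprime_iff_not_dvd]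
      exact hn.2 p (by omega) hp.2
  have hV : (((range Q).filter (Nat.Coprime Q)).card : ℝ) * ((y / Q) * ∏ p ∈ P, (1 - 1 / (p : ℝ))) = V T * y := by
    have h1 : (((range Q).filter (Nat.Coprime Q)).card : ℝ) = Q * V z1 := by
      rw [← totient_primorial z1]
      rfl
    have h2 := Pool.Agent.T2H32.BF.V_ratio z1 T (min_le_right _ _)
    have h3 := V_pos z1
    rw [h1, ← h2]
    have : (Q : ℝ) ≠ 0 := by exact_mod_cast hQ0.ne'
    field_simp
  have hφ : (((range Q).filter (Nat.Coprime Q)).card : ℝ) ≤ primorial C0 := by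
    have h1 : ((range Q).filter (Nat.Coprime Q)).card ≤ Q := (card_filter_le _ _).trans (by rw [card_range])
    have h2 : Q ≤ primorial C0 := primorial_mono (min_le_left _ _)
    exact_mod_cast h1.trans h2
  rw [hcount]
  push_cast
  have hsum : |∑ a ∈ (range Q).filter (Nat.Coprime Q), ((((Ioc k (k + y)).filter (fun n => n ≡ a [MOD Q])).filter
      (fun n => ∀ p ∈ P, n % p ∉ ({0} : Finset ℕ))).card : ℝ) - V T * y| ≤
      ∑ a ∈ (range Q).filter (Nat.Coprime Q), ((1 / 2 : ℝ) ^ b * ((y / Q) * ∏ p ∈ P, (1 - 1 / (p : ℝ))) +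
        ((Jf T : ℝ) + 2) * (((2 ^ 2 ^ Jf T : ℕ) : ℝ) ^ (C0 * b)) ^ 2) := by
    rw [← hV, ← nsmul_eq_mul, ← sum_const, ← sum_sub_distrib]
    exact (abs_sum_le_sum_abs _ _).trans (sum_le_sum fun a _ => hmain a)
  refine hsum.trans ?_
  rw [sum_const, nsmul_eq_mul, mul_add, ← mul_assoc, mul_comm _ ((1 / 2 : ℝ) ^ b), mul_assoc, hV]
  refine add_le_add le_rfl ?_
  have h1 : ((Jf T : ℝ) + 2) ≤ 3 * T := by exact_mod_cast J3 T hT
  have h2 : (((2 ^ 2 ^ Jf T : ℕ) : ℝ)) ≤ 4 * (T : ℝ) ^ 2 := by exact_mod_cast J2 T hT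
  have h3 : (((2 ^ 2 ^ Jf T : ℕ) : ℝ) ^ (C0 * b)) ^ 2 ≤ ((4 * (T : ℝ) ^ 2) ^ (C0 * b)) ^ 2 := by gcongr
  calc (((range Q).filter (Nat.Coprime Q)).card : ℝ) * (((Jf T : ℝ) + 2) *
        (((2 ^ 2 ^ Jf T : ℕ) : ℝ) ^ (C0 * b)) ^ 2)
      ≤ primorial C0 * ((3 * T) * ((4 * (T : ℝ) ^ 2) ^ (C0 * b)) ^ 2) := by gcongr
    _ = _ := by
      rw [← pow_mul, mul_pow, ← pow_mul]
      ring

end Pool.Agent.T2H32.GM
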