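import Pool.Agent.T2H32.GM.Off
import Pool.Agent.T2H32.CM.Exist

set_option autoImplicit false

/-! # Assembly -/

open MeasureTheory ProbabilityTheory Filter Topology Finset
open scoped ENNReal
open Pool.Agent.T2H32.BF (V V_pos V_anti mertens)
open Pool.Agent.T2H32.CM (p g p_strictMono)

namespace Pool.Agent.T2H32.GM

variable {Ω : Type*} [MeasurableSpace Ω] {P : Measure Ω}

/-- many long gaps at scale `k`, outside a small event -/
def Good (P : Measure Ω) (A : ℕ → Set Ω) (c e : ℝ) (k : ℕ) : Prop :=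
  ∃ F : Set Ω, P F ≤ ENNReal.ofReal ((k : ℝ) ^ (-e)) ∧ ∀ ω, ω ∉ F → {k | ω ∈ A k}.Infinite →
      (k : ℝ) ^ e ≤ N A c (2 * k) ω

theorem summable_two (e : ℝ) (he : 0 < e) : Summable (fun j : ℕ => (((2 : ℕ) ^ j : ℕ) : ℝ) ^ (-e)) := by
  have h1 : ∀ j : ℕ, (((2 : ℕ) ^ j : ℕ) : ℝ) ^ (-e) = ((2 : ℝ) ^ (-e)) ^ j := by
    intro j
    push_cast
    rw [← Real.rpow_natCast (2 : ℝ) j, ← Real.rpow_mul (by norm_num), ← Real.rpow_natCast, ← Real.rpow_mul (by norm_num)]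
    congr 1
    ring
  simp only [h1]
  refine summable_geometric_of_lt_one (by positivity) ?_
  exact Real.rpow_lt_one_of_one_lt_of_neg (by norm_num) (by linarith)

theorem bc (ks : ℕ → ℕ) (hks : ∀ j, 2 ^ j ≤ ks j) (A : ℕ → Set Ω) (c e : ℝ) (he : 0 < e) (J : ℕ)
    (h : ∀ j, J ≤ j → Good P A c e (ks j)) (hinf : ∀ᵐ ω ∂P, {k | ω ∈ A k}.Infinite) :
    ∀ᵐ ω ∂P, ∀ᶠ j in atTop, (ks j : ℝ) ^ e ≤ N A c (2 * ks j) ω := by
  choose F hF1 hF2 using h
  set F' : ℕ → Set Ω := fun j => if hj : J ≤ j then F j hj else ∅ with hF'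
  have hsum : ∑' j : ℕ, P (F' j) ≠ ∞ := by
    have hb : ∀ j : ℕ, P (F' j) ≤ ENNReal.ofReal ((((2 : ℕ) ^ j : ℕ) : ℝ) ^ (-e)) := by
      intro j
      simp only [hF']
      split_ifs with hj
      · refine (hF1 j hj).trans (ENNReal.ofReal_le_ofReal ?_)
        refine Real.rpow_le_rpow_of_nonpos ?_ (by exact_mod_cast hks j) (by linarith)
        exact_mod_cast Nat.two_pow_pos j
      · simp
    exact ne_top_of_le_ne_top (summable_two e he).tsum_ofReal_ne_top (ENNReal.tsum_le_tsum hb)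
  filter_upwards [ae_eventually_notMem hsum, hinf] with ω hω hi
  filter_upwards [hω, eventually_ge_atTop J] with j hj hJ
  simp only [hF', dif_pos hJ] at hj
  exact hF2 j hJ ω hj hi

theorem ae_power (A : ℕ → Set Ω) (c e e' : ℝ) (he : 0 < e) (he' : 0 ≤ e') (hee : e' < e)
    (h : ∀ᶠ k in atTop, Good P A c e k) (hinf : ∀ᵐ ω ∂P, {k | ω ∈ A k}.Infinite) :
    ∀ᵐ ω ∂P, ∀ᶠ x : ℕ in atTop, (x : ℝ) ^ e' ≤ N A c x ω := by
  obtain ⟨K, hK⟩ := eventually_atTop.1 h
  have h1 := bc (P := P) (fun j => 2 ^ j) (fun j => le_rfl) A c e he K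
    (fun j hj => hK _ (hj.trans Nat.lt_two_pow_self.le)) hinf
  filter_upwards [h1, hinf] with ω hω hi
  obtain ⟨J, hJ⟩ := eventually_atTop.1 hω
  have h2 := (kpow_atTop (e - e') (by linarith)).eventually_ge_atTop ((4 : ℝ) ^ e)
  filter_upwards [h2, eventually_ge_atTop (2 ^ (J + 2))] with x h3 h4
  have hx0 : x ≠ 0 := by
    have := Nat.two_pow_pos (J + 2)
    omega
  have hxR : (0 : ℝ) < x := by exact_mod_cast Nat.pos_of_ne_zero hx0
  set l := Nat.log 2 x with hl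
  have hl1 : 2 ^ l ≤ x := Nat.pow_log_le_self 2 hx0
  have hl2 : x < 2 ^ (l + 1) := Nat.lt_pow_succ_log_self (by norm_num) x
  have hlJ : J + 2 ≤ l := (Nat.le_log_iff_pow_le (by norm_num) hx0).2 h4
  have h5 := hJ (l - 1) (by omega)
  have e1 : 2 * 2 ^ (l - 1) = 2 ^ l := by
    rw [← pow_succ']
    congr 1
    omega
  rw [e1] at h5
  have h6 : N A c (2 ^ l) ω ≤ N A c x ω := N_mono A ω hi c c le_rfl _ _ hl1
  have h7 : (x : ℝ) / 4 ≤ ((2 ^ (l - 1) : ℕ) : ℝ) := by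
    have e2 : 2 ^ (l + 1) = 4 * 2 ^ (l - 1) := by
      have : 2 ^ (l + 1) = 2 * 2 ^ l := by ring
      omega
    rw [e2] at hl2
    have : (x : ℝ) < 4 * ((2 ^ (l - 1) : ℕ) : ℝ) := by exact_mod_cast hl2
    linarith
  calc (x : ℝ) ^ e' = ((4 : ℝ) ^ e)⁻¹ * ((4 : ℝ) ^ e * (x : ℝ) ^ e') := by
        have : (0 : ℝ) < (4 : ℝ) ^ e := by positivity
        field_simp
    _ ≤ ((4 : ℝ) ^ e)⁻¹ * ((x : ℝ) ^ (e - e') * (x : ℝ) ^ e') := by gcongr
    _ = ((x : ℝ) / 4) ^ e := by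
        rw [← Real.rpow_add hxR, Real.div_rpow hxR.le (by norm_num)]
        have : e - e' + e' = e := by ring
        rw [this]
        field_simp
    _ ≤ (((2 ^ (l - 1) : ℕ) : ℝ)) ^ e := Real.rpow_le_rpow (by positivity) h7 he.le
    _ ≤ N A c (2 ^ l) ω := h5
    _ ≤ N A c x ω := by exact_mod_cast h6

theorem ae_often (A : ℕ → Set Ω) (c e : ℝ) (he : 0 < e)
    (h : ∃ᶠ k in atTop, Good P A c e k) (hinf : ∀ᵐ ω ∂P, {k | ω ∈ A k}.Infinite) :
    ∀ᵐ ω ∂P, {n | c * Real.log (p A ω n) ^ 2 ≤ g A ω n}.Infinite := by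
  obtain ⟨φ, hφ1, hφ2⟩ := extraction_of_frequently_atTop h
  have h1 := bc (P := P) (fun j => φ (2 ^ j)) (fun j => hφ1.id_le _) A c e he 0 (fun j _ => hφ2 _) hinf
  filter_upwards [h1, hinf] with ω hω hi hfin
  have h2 : ∀ x, N A c x ω ≤ {n | c * Real.log (p A ω n) ^ 2 ≤ g A ω n}.ncard := by
    intro x
    unfold N
    refine Set.ncard_le_ncard ?_ hfin
    intro n hn
    exact hn.1
  have h3 : Tendsto (fun j : ℕ => ((φ (2 ^ j) : ℕ) : ℝ) ^ e) atTop atTop :=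
    (kpow_atTop e he).comp (hφ1.tendsto_atTop.comp (tendsto_pow_atTop_atTop_of_one_lt (by norm_num)))
  obtain ⟨j, hj1, hj2⟩ := (hω.and (h3.eventually_gt_atTop
    ({n | c * Real.log (p A ω n) ^ 2 ≤ g A ω n}.ncard : ℝ))).exists
  have h4 : (N A c (2 * φ (2 ^ j)) ω : ℝ) ≤ {n | c * Real.log (p A ω n) ^ 2 ≤ g A ω n}.ncard := by
    exact_mod_cast h2 _
  linarith

/-- the model -/
structure Mdl (P : Measure Ω) (T : ℕ → ℕ) (A : ℕ → Set Ω) : Prop where
  mono : Monotone T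
  small : Tendsto (fun k : ℕ => (T k : ℝ) / Real.log k) atTop (𝓝 0)
  measurable : ∀ k, MeasurableSet (A k)
  independent : iIndepSet A P
  probability : ∀ k, P.real (A k) = q T k

variable {T : ℕ → ℕ} {A : ℕ → Set Ω}

theorem Mdl.inf (h : Mdl P T A) : ∀ᵐ ω ∂P, {k | ω ∈ A k}.Infinite := by
  have := h.independent.isProbabilityMeasure
  exact inf_A T h.mono h.small A h.measurable h.independent h.probability

theorem Mdl.good (h : Mdl P T A) (c ρ η : ℝ) (hc : 0 < c) (hρ0 : 0 < ρ) (hη : 0 < η) (hcρ : ρ * c + η < 1) :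
    ∀ᶠ k : ℕ in atTop, Off T c ρ k → Good P A c (1 - ρ * c - η) k := by
  have := h.independent.isProbabilityMeasure
  exact scale T h.mono h.small A h.measurable h.independent h.probability c ρ η hc hρ0 hη hcρ

/-- **Lower bound in the Cramér regime.** -/
theorem Mdl.low1 (h : Mdl P T A) (hlog : Tendsto (fun k : ℕ => Real.log (T k) / Real.log (Real.log k)) atTop (𝓝 0))
    (c e : ℝ) (hc : 0 < c) (he0 : 0 ≤ e) (he : e < 1 - c) :
    ∀ᵐ ω ∂P, ∀ᶠ x : ℕ in atTop, (x : ℝ) ^ e ≤ N A c x ω := by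
  set η := (1 - c - e) / 4 with hη
  have hη0 : 0 < η := by rw [hη]; linarith
  set ε := η / c with hε
  have hε0 : 0 < ε := by positivity
  have e1 : (1 + ε) * c = c + η := by
    rw [hε]
    field_simp
  refine ae_power A c (1 - (1 + ε) * c - η) e (by rw [e1]; linarith) he0 (by rw [e1]; linarith) ?_ h.inf
  filter_upwards [h.good c (1 + ε) η hc (by positivity) hη0 (by rw [e1]; linarith), off1 T h.small hlog c ε hc hε0]
    with k h1 h2
  exact h1 h2

/-- **Lower bound beyond.** -/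
theorem Mdl.good2 (h : Mdl P T A) (θ v c e : ℝ) (hθ : 0 < θ) (hv : 1 < v) (hθv : 2 < θ * v) (hc : 0 < c)
    (he : 0 < e) (hec : e < 1 - c * (Real.exp Real.eulerMascheroniConstant * om v)) :
    ∀ᶠ k : ℕ in atTop, θ * Real.log (Real.log k) ≤ Real.log (T k) → Good P A c e k := by
  set ρ0 := Real.exp Real.eulerMascheroniConstant * om v with hρ0
  have hρ0p : 0 < ρ0 := mul_pos (Real.exp_pos _) (om_pos v hv.le)
  set ε := min ((1 - c * ρ0 - e) / (2 * (c * ρ0))) 1 with hε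
  have hd : 0 < 1 - c * ρ0 - e := by linarith
  have hε0 : 0 < ε := lt_min (by positivity) one_pos
  have hε2 : ε * (c * ρ0) ≤ (1 - c * ρ0 - e) / 2 := by
    have : ε ≤ (1 - c * ρ0 - e) / (2 * (c * ρ0)) := min_le_left _ _
    calc ε * (c * ρ0) ≤ (1 - c * ρ0 - e) / (2 * (c * ρ0)) * (c * ρ0) := by gcongr
      _ = _ := by field_simp
  set η := 1 - (1 + ε) * ρ0 * c - e with hη
  have hη0 : 0 < η := by
    rw [hη]
    have : (1 + ε) * ρ0 * c = c * ρ0 + ε * (c * ρ0) := by ring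
    linarith
  have e1 : 1 - (1 + ε) * ρ0 * c - η = e := by rw [hη]; ring
  have h1 := h.good c ((1 + ε) * ρ0) η hc (by positivity) hη0 (by rw [hη]; linarith)
  rw [e1] at h1
  filter_upwards [h1, off2 T h.small θ v c ε hθ hv hθv hc hε0 (min_le_right _ _)] with k h1 h2 h3
  exact h1 (h2 h3)

theorem Mdl.low2 (h : Mdl P T A) (θ v c e : ℝ) (hθ : 0 < θ) (hv : 1 < v) (hθv : 2 < θ * v) (hc : 0 < c)
    (he : 0 ≤ e) (hec : e < 1 - c * (Real.exp Real.eulerMascheroniConstant * om v))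
    (hT : ∀ᶠ k : ℕ in atTop, θ * Real.log (Real.log k) ≤ Real.log (T k)) :
    ∀ᵐ ω ∂P, ∀ᶠ x : ℕ in atTop, (x : ℝ) ^ e ≤ N A c x ω := by
  obtain ⟨e2, h1, h2⟩ := exists_between hec
  refine ae_power A c e2 e (by linarith) he h1 ?_ h.inf
  filter_upwards [h.good2 θ v c e2 hθ hv hθv hc (by linarith) h2, hT] with k h1 h2
  exact h1 h2

theorem Mdl.often (h : Mdl P T A) (θ v c e : ℝ) (hθ : 0 < θ) (hv : 1 < v) (hθv : 2 < θ * v) (hc : 0 < c)
    (he : 0 < e) (hec : e < 1 - c * (Real.exp Real.eulerMascheroniConstant * om v))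
    (hT : ∃ᶠ k : ℕ in atTop, θ * Real.log (Real.log k) ≤ Real.log (T k)) :
    ∀ᵐ ω ∂P, {n | c * Real.log (p A ω n) ^ 2 ≤ g A ω n}.Infinite := by
  refine ae_often A c e he ?_ h.inf
  refine (hT.and_eventually (h.good2 θ v c e hθ hv hθv hc he hec)).mono ?_
  rintro k ⟨h1, h2⟩
  exact h2 h1

/-- **The oscillation**: constants depending on `θ` only. -/
theorem osc2 (θ : ℝ) (hθ : 0 < θ) : ∃ v, 1 < v ∧ 2 < θ * v ∧ ∃ δ : ℝ, 0 < δ ∧
    δ < 1 - (1 + δ) * (Real.exp Real.eulerMascheroniConstant * om v) := by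
  obtain ⟨v, hv, hom⟩ := osc (Real.exp (-Real.eulerMascheroniConstant)) om_lim (2 / θ + 2)
  have h2θ : 0 < 2 / θ := by positivity
  have hv1 : 1 < v := by linarith
  refine ⟨v, hv1, ?_, ?_⟩
  · have h1 : 2 / θ < v := by linarith
    rw [div_lt_iff₀ hθ] at h1
    linarith
  · set ρ := Real.exp Real.eulerMascheroniConstant * om v with hρ
    have hρ0 : 0 < ρ := mul_pos (Real.exp_pos _) (om_pos v hv1.le)
    have hρ1 : ρ < 1 := by
      have h1 := mul_lt_mul_of_pos_left hom (Real.exp_pos Real.eulerMascheroniConstant)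
      rw [← hρ, ← Real.exp_add] at h1
      simpa using h1
    refine ⟨(1 - ρ) / 3, by linarith, ?_⟩
    nlinarith

/-- **Upper bound**: only finitely many for `c > 1`. -/
theorem Mdl.fin (h : Mdl P T A) (hlog : Tendsto (fun k : ℕ => Real.log (T k) / Real.log (Real.log k)) atTop (𝓝 0))
    (c : ℝ) (hc : 1 < c) : ∀ᵐ ω ∂P, {n | c * Real.log (p A ω n) ^ 2 ≤ g A ω n}.Finite := by
  have := h.independent.isProbabilityMeasure
  filter_upwards [up_ae T h.mono h.small A h.measurable h.independent h.probability hlog c 0 (by linarith) le_rfl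
    (by linarith), h.inf] with ω ⟨C, hC⟩ hinf
  simp only [Real.rpow_zero, mul_one] at hC
  by_contra hcon
  have hcon : {n | c * Real.log (p A ω n) ^ 2 ≤ g A ω n}.Infinite := hcon
  obtain ⟨m, hm⟩ := exists_nat_gt C
  obtain ⟨s, hs1, hs2⟩ := hcon.exists_subset_card_eq m
  obtain ⟨x, hx⟩ := (s.image (p A ω)).bddAbove
  have h1 : (s.card : ℝ) ≤ N A c x ω := by
    unfold N
    rw [← Set.ncard_coe_finset]
    have h2 := Set.ncard_le_ncard (s := (s : Set ℕ)) (t := {n | c * Real.log (p A ω n) ^ 2 ≤ g A ω n ∧ p A ω n ≤ x})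
      (fun n hn => ⟨hs1 hn, hx (mem_coe.2 (mem_image_of_mem _ hn))⟩) (N_fin A ω hinf c x)
    exact_mod_cast h2
  rw [hs2] at h1
  linarith [hC x]

/-- **The counts in the Cramér regime.** -/
theorem Mdl.count (h : Mdl P T A) (hlog : Tendsto (fun k : ℕ => Real.log (T k) / Real.log (Real.log k)) atTop (𝓝 0))
    (c : ℝ) (hc0 : 0 < c) (hc : c < 1) :
    ∀ᵐ ω ∂P, Tendsto (fun x : ℕ => Real.log (N A c x ω) / Real.log x) atTop (𝓝 (1 - c)) := by
  have := h.independent.isProbabilityMeasure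
  have hup : ∀ᵐ ω ∂P, ∀ m : ℕ, ∃ C : ℝ, ∀ x : ℕ, (N A c x ω : ℝ) ≤ C * ((x : ℝ) + 1) ^ (1 - c + 1 / ((m : ℝ) + 1)) := by
    rw [ae_all_iff]
    intro m
    have hm : (0 : ℝ) < 1 / ((m : ℝ) + 1) := by positivity
    exact up_ae T h.mono h.small A h.measurable h.independent h.probability hlog c _ hc0 (by linarith) (by linarith)
  have hlo : ∀ᵐ ω ∂P, ∀ m : ℕ, ∀ᶠ x : ℕ in atTop, (x : ℝ) ^ (max 0 (1 - c - 1 / ((m : ℝ) + 1))) ≤ N A c x ω := by
    rw [ae_all_iff]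
    intro m
    have hm : (0 : ℝ) < 1 / ((m : ℝ) + 1) := by positivity
    exact h.low1 hlog c _ hc0 (le_max_left _ _) (max_lt (by linarith) (by linarith))
  filter_upwards [hup, hlo] with ω h1 h2
  rw [Metric.tendsto_atTop]
  intro ε hε
  obtain ⟨m, hm⟩ := exists_nat_one_div_lt (show 0 < ε / 4 by positivity)
  obtain ⟨C, hC⟩ := h1 m
  have hlog2 : ∀ᶠ x : ℕ in atTop, Real.log (max C 1) + (1 - c + 1 / ((m : ℝ) + 1)) * Real.log 2 ≤ ε / 4 * Real.log x := by
    filter_upwards [(tlog.const_mul_atTop (show 0 < ε / 4 by positivity)).eventually_ge_atTop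
      (Real.log (max C 1) + (1 - c + 1 / ((m : ℝ) + 1)) * Real.log 2)] with x hx
    exact hx
  obtain ⟨X, hX⟩ := eventually_atTop.1 ((h2 m).and (hlog2.and ((tlog.eventually_gt_atTop 0).and (eventually_ge_atTop 1))))
  refine ⟨X, fun x hx => ?_⟩
  obtain ⟨h3, h4, h5, h6⟩ := hX x hx
  have hx0 : (0 : ℝ) < x := by exact_mod_cast (by omega : 0 < x)
  have hx1 : (1 : ℝ) ≤ x := by exact_mod_cast h6
  have hm0 : (0 : ℝ) < 1 / ((m : ℝ) + 1) := by positivity
  have hN0 : (0 : ℝ) < N A c x ω := lt_of_lt_of_le (by positivity) h3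
  -- lower
  have h7 : (1 - c - 1 / ((m : ℝ) + 1)) * Real.log x ≤ Real.log (N A c x ω) := by
    have h8 := Real.log_le_log (by positivity) h3
    rw [Real.log_rpow hx0] at h8
    refine le_trans ?_ h8
    exact mul_le_mul_of_nonneg_right (le_max_right _ _) h5.le
  -- upper
  have h8 : Real.log (N A c x ω) ≤ (1 - c + 1 / ((m : ℝ) + 1)) * Real.log x + ε / 4 * Real.log x := by
    have h9 : (N A c x ω : ℝ) ≤ max C 1 * (2 * (x : ℝ)) ^ (1 - c + 1 / ((m : ℝ) + 1)) := by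
      refine (hC x).trans ?_
      have h10 : ((x : ℝ) + 1) ^ (1 - c + 1 / ((m : ℝ) + 1)) ≤ (2 * (x : ℝ)) ^ (1 - c + 1 / ((m : ℝ) + 1)) :=
        Real.rpow_le_rpow (by positivity) (by linarith) (by linarith)
      have h11 : C ≤ max C 1 := le_max_left _ _
      have h12 : 0 < max C 1 := lt_max_of_lt_right one_pos
      calc C * ((x : ℝ) + 1) ^ (1 - c + 1 / ((m : ℝ) + 1)) ≤ max C 1 * ((x : ℝ) + 1) ^ (1 - c + 1 / ((m : ℝ) + 1)) := by
            gcongr
        _ ≤ _ := by gcongr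
    have h12 : 0 < max C 1 := lt_max_of_lt_right one_pos
    have h10 := Real.log_le_log hN0 h9
    rw [Real.log_mul h12.ne' (by positivity), Real.log_rpow (by positivity), Real.log_mul (by norm_num) hx0.ne'] at h10
    linarith
  rw [Real.dist_eq, abs_lt]
  constructor
  · have h9 : 1 - c - ε / 4 ≤ Real.log (N A c x ω) / Real.log x := by
      rw [le_div_iff₀ h5]
      refine le_trans ?_ h7
      gcongr
    linarith
  · have h9 : Real.log (N A c x ω) / Real.log x ≤ 1 - c + ε / 4 + ε / 4 := by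
      rw [div_le_iff₀ h5]
      refine h8.trans ?_
      have : (1 - c + 1 / ((m : ℝ) + 1)) * Real.log x ≤ (1 - c + ε / 4) * Real.log x := by gcongr
      linarith
    linarith

end Pool.Agent.T2H32.GM
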