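import Pool.Agent.T2H32.GM.Fin

set_option autoImplicit false

/-! # The limsup, and uniqueness of Buchstab's function -/

open MeasureTheory ProbabilityTheory Filter Topology Finset
open scoped ENNReal
open Pool.Agent.T2H32.BF (V V_pos V_anti mertens)
open Pool.Agent.T2H32.CM (p g p_strictMono)

namespace Pool.Agent.T2H32.GM

theorem om_unique (w : ℝ → ℝ) (h1 : ∀ v, 1 ≤ v → v ≤ 2 → v * w v = 1)
    (h2 : ∀ v, 2 ≤ v → v * w v = 1 + ∫ t in (1 : ℝ)..(v - 1), w t) (v : ℝ) (hv : 1 ≤ v) : w v = om v := by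
  have key : ∀ n : ℕ, ∀ v : ℝ, 1 ≤ v → v ≤ n + 2 → w v = om v := by
    intro n
    induction n with
    | zero =>
      intro v hv hv2
      have h3 := h1 v hv (by simpa using hv2)
      have h4 := om_small v hv (by simpa using hv2)
      have hv0 : v ≠ 0 := by linarith
      exact mul_left_cancel₀ hv0 (h3.trans h4.symm)
    | succ n ih =>
      intro v hv hv2
      push_cast at hv2
      rcases le_or_gt v 2 with h | h
      · exact ih v hv (by
          have : (0 : ℝ) ≤ n := Nat.cast_nonneg n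
          linarith)
      · have h3 := h2 v h.le
        have h4 := om_rec2 v h.le
        have h5 : ∫ t in (1 : ℝ)..(v - 1), w t = ∫ t in (1 : ℝ)..(v - 1), om t := by
          refine intervalIntegral.integral_congr fun t ht => ?_
          rw [Set.uIcc_of_le (by linarith)] at ht
          exact ih t ht.1 (by linarith [ht.2])
        rw [h5, ← h4] at h3
        have hv0 : v ≠ 0 := by linarith
        exact mul_left_cancel₀ hv0 h3
  obtain ⟨n, hn⟩ := exists_nat_ge v
  exact key n v hv (by linarith)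

variable {Ω : Type*} [MeasurableSpace Ω] {P : Measure Ω} {T : ℕ → ℕ} {A : ℕ → Set Ω}

/-- the ratio -/
noncomputable def rt (A : ℕ → Set Ω) (ω : Ω) (n : ℕ) : EReal :=
  ((g A ω n / Real.log (p A ω n) ^ 2 : ℝ) : EReal)

omit [MeasurableSpace Ω] in
theorem log_pos_ev (ω : Ω) (hinf : {k | ω ∈ A k}.Infinite) : ∀ᶠ n in atTop, 0 < Real.log (p A ω n) := by
  filter_upwards [eventually_ge_atTop 2] with n hn
  have h1 : n ≤ p A ω n := (p_strictMono A ω hinf).id_le n
  exact Real.log_pos (by exact_mod_cast (by omega : 1 < p A ω n))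

theorem Mdl.limsup_one (h : Mdl P T A)
    (hlog : Tendsto (fun k : ℕ => Real.log (T k) / Real.log (Real.log k)) atTop (𝓝 0)) :
    ∀ᵐ ω ∂P, limsup (rt A ω) atTop = 1 := by
  have hup : ∀ᵐ ω ∂P, ∀ m : ℕ, {n | (1 + 1 / ((m : ℝ) + 1)) * Real.log (p A ω n) ^ 2 ≤ g A ω n}.Finite := by
    rw [ae_all_iff]
    intro m
    have hm : (0 : ℝ) < 1 / ((m : ℝ) + 1) := by positivity
    exact h.fin hlog _ (by linarith)
  have hlo : ∀ᵐ ω ∂P, ∀ m : ℕ, ∀ᶠ x : ℕ in atTop,
      (x : ℝ) ^ (1 / (2 * ((m : ℝ) + 2))) ≤ N A (1 - 1 / ((m : ℝ) + 2)) x ω := by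
    rw [ae_all_iff]
    intro m
    have hm2 : (2 : ℝ) ≤ (m : ℝ) + 2 := by
      have : (0 : ℝ) ≤ m := Nat.cast_nonneg m
      linarith
    have hm : 1 / ((m : ℝ) + 2) ≤ 1 / 2 := by gcongr
    refine h.low1 hlog _ _ (by linarith) (by positivity) ?_
    have : 1 - (1 - 1 / ((m : ℝ) + 2)) = 1 / ((m : ℝ) + 2) := by ring
    rw [this]
    apply one_div_lt_one_div_of_lt (by positivity)
    linarith
  filter_upwards [hup, hlo, h.inf] with ω h1 h2 hinf
  have hl := log_pos_ev (A := A) ω hinf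
  apply le_antisymm
  · -- `≤`
    have h3 : ∀ m : ℕ, limsup (rt A ω) atTop ≤ ((1 + 1 / ((m : ℝ) + 1) : ℝ) : EReal) := by
      intro m
      refine limsup_le_of_le ?_ ?_
      · exact isCobounded_le_of_bot
      obtain ⟨X, hX⟩ := (h1 m).bddAbove
      filter_upwards [eventually_gt_atTop X, hl] with n hn hn2
      unfold rt
      rw [EReal.coe_le_coe_iff, div_le_iff₀ (by positivity)]
      by_contra hcon
      push Not at hcon
      exact absurd (hX hcon.le) (not_le.2 hn)
    have h4 : Tendsto (fun m : ℕ => ((1 + 1 / ((m : ℝ) + 1) : ℝ) : EReal)) atTop (𝓝 ((1 : ℝ) : EReal)) := by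
      have h5 : Tendsto (fun m : ℕ => (1 + 1 / ((m : ℝ) + 1) : ℝ)) atTop (𝓝 1) := by
        have := tendsto_one_div_add_atTop_nhds_zero_nat (𝕜 := ℝ)
        simpa using this.const_add 1
      exact (continuous_coe_real_ereal.tendsto _).comp h5
    exact ge_of_tendsto' h4 h3
  · -- `≥`
    have h3 : ∀ m : ℕ, ((1 - 1 / ((m : ℝ) + 2) : ℝ) : EReal) ≤ limsup (rt A ω) atTop := by
      intro m
      refine le_limsup_of_frequently_le ?_ ?_
      · -- infinitely many
        have h5 : {n | (1 - 1 / ((m : ℝ) + 2)) * Real.log (p A ω n) ^ 2 ≤ g A ω n}.Infinite := by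
          intro hfin
          have h6 : ∀ x, N A (1 - 1 / ((m : ℝ) + 2)) x ω ≤
              {n | (1 - 1 / ((m : ℝ) + 2)) * Real.log (p A ω n) ^ 2 ≤ g A ω n}.ncard := by
            intro x
            unfold N
            refine Set.ncard_le_ncard ?_ hfin
            intro n hn
            exact hn.1
          obtain ⟨x, hx1, hx2⟩ := ((h2 m).and ((kpow_atTop (1 / (2 * ((m : ℝ) + 2))) (by positivity)).eventually_gt_atTop
            ({n | (1 - 1 / ((m : ℝ) + 2)) * Real.log (p A ω n) ^ 2 ≤ g A ω n}.ncard : ℝ))).exists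
          have h7 : (N A (1 - 1 / ((m : ℝ) + 2)) x ω : ℝ) ≤
              {n | (1 - 1 / ((m : ℝ) + 2)) * Real.log (p A ω n) ^ 2 ≤ g A ω n}.ncard := by exact_mod_cast h6 x
          linarith
        refine ((Nat.frequently_atTop_iff_infinite.2 h5).and_eventually hl).mono ?_
        rintro n ⟨hn1, hn2⟩
        unfold rt
        rw [EReal.coe_le_coe_iff, le_div_iff₀ (by positivity)]
        exact hn1
      · exact isBounded_le_of_top
    have h4 : Tendsto (fun m : ℕ => ((1 - 1 / ((m : ℝ) + 2) : ℝ) : EReal)) atTop (𝓝 ((1 : ℝ) : EReal)) := by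
      have h5 : Tendsto (fun m : ℕ => (1 - 1 / ((m : ℝ) + 2) : ℝ)) atTop (𝓝 1) := by
        have h6 : Tendsto (fun m : ℕ => 1 / ((m : ℝ) + 2)) atTop (𝓝 0) :=
          tendsto_const_nhds.div_atTop (tendsto_atTop_add_const_right _ _ tendsto_natCast_atTop_atTop)
        simpa using h6.const_sub 1
      exact (continuous_coe_real_ereal.tendsto _).comp h5
    exact le_of_tendsto' h4 h3

omit [MeasurableSpace Ω] in
theorem limsup_ge (ω : Ω) (hinf : {k | ω ∈ A k}.Infinite) (c : ℝ)
    (h : {n | c * Real.log (p A ω n) ^ 2 ≤ g A ω n}.Infinite) : (c : EReal) ≤ limsup (rt A ω) atTop := by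
  refine le_limsup_of_frequently_le ?_ isBounded_le_of_top
  refine ((Nat.frequently_atTop_iff_infinite.2 h).and_eventually (log_pos_ev (A := A) ω hinf)).mono ?_
  rintro n ⟨hn1, hn2⟩
  unfold rt
  rw [EReal.coe_le_coe_iff, le_div_iff₀ (by positivity)]
  exact hn1

theorem freq (T : ℕ → ℕ) (h : ¬ Tendsto (fun k : ℕ => Real.log (T k) / Real.log (Real.log k)) atTop (𝓝 0)) :
    ∃ θ : ℝ, 0 < θ ∧ ∃ᶠ k : ℕ in atTop, θ * Real.log (Real.log k) ≤ Real.log (T k) := by
  rw [Metric.tendsto_nhds] at h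
  push Not at h
  obtain ⟨ε, hε, h⟩ := h
  refine ⟨ε, hε, ?_⟩
  have hll : ∀ᶠ k : ℕ in atTop, 0 < Real.log (Real.log k) :=
    (Real.tendsto_log_atTop.comp tlog).eventually_gt_atTop 0
  refine (h.and_eventually hll).mono ?_
  rintro k ⟨h1, h2⟩
  rw [Real.dist_eq, sub_zero, abs_of_nonneg (div_nonneg (Real.log_natCast_nonneg _) h2.le),
    le_div_iff₀ h2] at h1
  exact h1

/-- **The dichotomy.** -/
theorem Mdl.iff (h : Mdl P T A) :
    (∀ᵐ ω ∂P, limsup (rt A ω) atTop = 1) ↔
      Tendsto (fun k : ℕ => Real.log (T k) / Real.log (Real.log k)) atTop (𝓝 0) := by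
  have hp := h.independent.isProbabilityMeasure
  constructor
  · intro h1
    by_contra h2
    obtain ⟨θ, hθ, hfr⟩ := freq T h2
    obtain ⟨v, hv1, hv2, δ, hδ, hδ2⟩ := osc2 θ hθ
    have h3 := h.often θ v (1 + δ) δ hθ hv1 hv2 (by linarith) hδ hδ2 hfr
    have h4 : ∀ᵐ ω ∂P, False := by
      filter_upwards [h1, h3, h.inf] with ω h1 h3 hinf
      have h5 := limsup_ge (A := A) ω hinf _ h3
      rw [h1] at h5
      have h6 : ((1 + δ : ℝ) : EReal) ≤ ((1 : ℝ) : EReal) := h5
      rw [EReal.coe_le_coe_iff] at h6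
      linarith
    rw [ae_iff] at h4
    simp at h4
  · exact h.limsup_one

/-- **Granville's range.** -/
theorem Mdl.granville (h : Mdl P T A)
    (hT : Tendsto (fun k : ℕ => Real.log (T k) / Real.log (Real.log k)) atTop (𝓝 1)) (c e : ℝ) (hc : 0 < c)
    (he : 0 ≤ e) (hec : e < 1 - c * (Real.exp Real.eulerMascheroniConstant / 2)) :
    ∀ᵐ ω ∂P, ∀ᶠ x : ℕ in atTop, (x : ℝ) ^ e ≤ N A c x ω := by
  set E := Real.exp Real.eulerMascheroniConstant with hE
  have hom2 : om 2 = 1 / 2 := by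
    have := om_small 2 (by norm_num) le_rfl
    linarith
  have h1 : Tendsto (fun v : ℝ => 1 - c * (E * om v)) (𝓝[>] 2) (𝓝 (1 - c * (E * om 2))) := by
    have : Continuous (fun v : ℝ => 1 - c * (E * om v)) :=
      continuous_const.sub (continuous_const.mul (continuous_const.mul om_cont))
    exact (this.tendsto 2).mono_left nhdsWithin_le_nhds
  have h2 : e < 1 - c * (E * om 2) := by
    rw [hom2]
    have : E * (1 / 2) = E / 2 := by ring
    rwa [this]
  obtain ⟨v, hv1, hv2⟩ := ((h1.eventually_const_lt h2).and self_mem_nhdsWithin).exists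
  have hv2 : (2 : ℝ) < v := hv2
  obtain ⟨θ, hθ1, hθ2⟩ := exists_between (show 2 / v < 1 by rw [div_lt_one (by linarith)]; exact hv2)
  have hθ0 : 0 < θ := lt_trans (by positivity) hθ1
  rw [div_lt_iff₀ (by linarith)] at hθ1
  refine h.low2 θ v c e hθ0 (by linarith) hθ1 hc he hv1 ?_
  have hll : ∀ᶠ k : ℕ in atTop, 0 < Real.log (Real.log k) :=
    (Real.tendsto_log_atTop.comp tlog).eventually_gt_atTop 0
  filter_upwards [hT.eventually_const_lt hθ2, hll] with k h3 h4
  rw [lt_div_iff₀ h4] at h3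
  exact h3.le

end Pool.Agent.T2H32.GM
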