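import Mathlib

set_option autoImplicit false

/-! # Buchstab's function -/

open Filter Topology MeasureTheory

namespace Pool.Agent.T2H32.GM

/-- iteration -/
noncomputable def G : ℕ → ℝ → ℝ
  | 0 => fun s => 1 / max s 1
  | n + 1 => fun s => (1 + ∫ t in (1 : ℝ)..(max (s - 1) 1), G n t) / max s 1

theorem G_cont (n : ℕ) : Continuous (G n) := by
  induction n with
  | zero =>
    unfold G
    refine continuous_const.div (continuous_id.max continuous_const) fun s => ?_
    have : (1 : ℝ) ≤ max s 1 := le_max_right _ _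
    exact (lt_of_lt_of_le one_pos this).ne'
  | succ n ih =>
    unfold G
    have h1 : Continuous (fun x : ℝ => ∫ t in (1 : ℝ)..x, G n t) :=
      intervalIntegral.continuous_primitive (fun a b => ih.intervalIntegrable a b) 1
    refine (continuous_const.add (h1.comp ((continuous_id.sub continuous_const).max continuous_const))).div
      (continuous_id.max continuous_const) fun s => ?_
    have : (1 : ℝ) ≤ max s 1 := le_max_right _ _
    exact (lt_of_lt_of_le one_pos this).ne'

theorem G_stab (n : ℕ) : ∀ s : ℝ, s ≤ n + 2 → G n s = G (n + 1) s := by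
  induction n with
  | zero =>
    intro s hs
    have h1 : max (s - 1) 1 = 1 := max_eq_right (by push_cast at hs; linarith)
    simp only [G]
    rw [h1]
    simp
  | succ n ih =>
    intro s hs
    have e : ∀ m : ℕ, G (m + 1) s = (1 + ∫ t in (1 : ℝ)..(max (s - 1) 1), G m t) / max s 1 := fun m => rfl
    rw [e n, e (n + 1)]
    congr 2
    refine intervalIntegral.integral_congr fun t ht => ?_
    rw [Set.uIcc_of_le (le_max_right _ _)] at ht
    refine ih t ?_
    push_cast at hs
    refine ht.2.trans (max_le (by linarith) ?_)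
    have : (0 : ℝ) ≤ n := Nat.cast_nonneg n
    linarith

theorem G_stab' (n m : ℕ) (hnm : n ≤ m) (s : ℝ) (hs : s ≤ n + 2) : G n s = G m s := by
  induction m, hnm using Nat.le_induction with
  | base => rfl
  | succ m hm ih =>
    rw [ih, G_stab m s]
    have : (n : ℝ) ≤ m := by exact_mod_cast hm
    linarith

/-- Buchstab's function -/
noncomputable def om (s : ℝ) : ℝ := G ⌈s⌉₊ s

theorem om_eq (n : ℕ) (s : ℝ) (hs : s ≤ n + 2) : om s = G n s := by
  unfold om
  rcases le_total n ⌈s⌉₊ with h | h
  · exact (G_stab' n _ h s hs).symm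
  · refine G_stab' _ n h s ?_
    have := Nat.le_ceil s
    linarith

theorem om_cont : Continuous om := by
  rw [continuous_iff_continuousAt]
  intro s
  obtain ⟨n, hn⟩ := exists_nat_gt s
  have h1 : om =ᶠ[𝓝 s] G n := by
    filter_upwards [Iio_mem_nhds hn] with t ht
    refine om_eq n t ?_
    have : t < n := ht
    linarith
  exact ((G_cont n).continuousAt).congr h1.symm

theorem om_rec (s : ℝ) (hs : 1 ≤ s) : s * om s = 1 + ∫ t in (1 : ℝ)..(max (s - 1) 1), om t := by
  obtain ⟨n, hn⟩ := exists_nat_gt s
  have h1 : om s = G (n + 1) s := om_eq (n + 1) s (by push_cast; linarith)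
  have h2 : ∫ t in (1 : ℝ)..(max (s - 1) 1), om t = ∫ t in (1 : ℝ)..(max (s - 1) 1), G n t := by
    refine intervalIntegral.integral_congr fun t ht => ?_
    rw [Set.uIcc_of_le (le_max_right _ _)] at ht
    refine om_eq n t (ht.2.trans (max_le (by linarith) ?_))
    have : (0 : ℝ) ≤ n := Nat.cast_nonneg n
    linarith
  rw [h2, h1]
  simp only [G]
  rw [max_eq_left hs]
  have : s ≠ 0 := by linarith
  field_simp

theorem om_small (s : ℝ) (hs : 1 ≤ s) (hs2 : s ≤ 2) : s * om s = 1 := by
  rw [om_rec s hs, max_eq_right (by linarith)]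
  simp

theorem om_rec2 (s : ℝ) (hs : 2 ≤ s) : s * om s = 1 + ∫ t in (1 : ℝ)..(s - 1), om t := by
  rw [om_rec s (by linarith), max_eq_left (by linarith)]

theorem om_int (a b : ℝ) : IntervalIntegrable om volume a b := om_cont.intervalIntegrable a b

section osc
variable (ℓ : ℝ)

/-- deviation from the limit -/
theorem dev (s s0 : ℝ) (h2 : 2 ≤ s0) (hs : s0 ≤ s) :
    s * (om s - ℓ) = s0 * (om s0 - ℓ) + ∫ t in (s0 - 1)..(s - 1), (om t - ℓ) := by
  have h1 := om_rec2 s (by linarith)
  have h3 := om_rec2 s0 h2
  have h4 : ∫ t in (s0 - 1)..(s - 1), (om t - ℓ) = (∫ t in (1 : ℝ)..(s - 1), om t) - (∫ t in (1 : ℝ)..(s0 - 1), om t) -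
      (s - s0) * ℓ := by
    rw [intervalIntegral.integral_sub (om_int _ _) intervalIntegrable_const, intervalIntegral.integral_const,
      intervalIntegral.integral_interval_sub_left (om_int _ _) (om_int _ _)]
    simp
  rw [h4]
  linear_combination h1 - h3

theorem dev_int (a b : ℝ) : IntervalIntegrable (fun t => om t - ℓ) volume a b :=
  (om_int a b).sub intervalIntegrable_const

/-- **Oscillation**: below the limit arbitrarily far out. -/
theorem osc (hlim : Tendsto om atTop (𝓝 ℓ)) (u : ℝ) : ∃ v, u ≤ v ∧ om v < ℓ := by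
  by_contra hcon
  push Not at hcon
  -- `om = ℓ` far out
  have step1 : ∀ s, max u 1 + 1 ≤ s → om s - ℓ = 0 := by
    intro v1 hv1
    have hv1' : 2 ≤ v1 := by linarith [le_max_right u 1]
    have hu1 : u ≤ v1 - 1 := by linarith [le_max_left u 1]
    have hnn : 0 ≤ om v1 - ℓ := sub_nonneg.2 (hcon v1 (by linarith))
    by_contra hne
    have hpos : 0 < om v1 - ℓ := lt_of_le_of_ne hnn (Ne.symm hne)
    have hp : ∀ s, v1 ≤ s → 0 < om s - ℓ := by
      intro s hs
      have h1 := dev ℓ s v1 hv1' hs
      have h2 : 0 ≤ ∫ t in (v1 - 1)..(s - 1), (om t - ℓ) :=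
        intervalIntegral.integral_nonneg (by linarith) fun t ht => sub_nonneg.2 (hcon t (by linarith [ht.1]))
      have h3 : 0 < s * (om s - ℓ) := by
        rw [h1]
        have : 0 < v1 * (om v1 - ℓ) := mul_pos (by linarith) hpos
        linarith
      exact (mul_pos_iff_of_pos_left (by linarith : 0 < s)).1 h3
    obtain ⟨t0, ht0, hmin⟩ := (isCompact_Icc (a := v1) (b := v1 + 1)).exists_isMinOn
      ⟨v1, by constructor <;> linarith⟩ (om_cont.sub continuous_const : Continuous fun t => om t - ℓ).continuousOn
    set m := om t0 - ℓ with hm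
    have hm0 : 0 < m := hp t0 ht0.1
    have hind : ∀ j : ℕ, ∀ s, v1 ≤ s → s ≤ v1 + 1 + j → m ≤ om s - ℓ := by
      intro j
      induction j with
      | zero =>
        intro s hs1 hs2
        exact hmin (show s ∈ Set.Icc v1 (v1 + 1) from ⟨hs1, by push_cast at hs2; linarith⟩)
      | succ j ih =>
        intro s hs1 hs2
        rcases le_or_gt s (v1 + 1 + j) with h | h
        · exact ih s hs1 h
        · push_cast at hs2
          have hj : (0 : ℝ) ≤ j := Nat.cast_nonneg j
          have h1 := dev ℓ s (v1 + 1 + j) (by linarith) h.le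
          have h2 : m ≤ om (v1 + 1 + j) - ℓ := ih _ (by linarith) le_rfl
          have h3 : (s - (v1 + 1 + j)) * m ≤ ∫ t in (v1 + 1 + j - 1)..(s - 1), (om t - ℓ) := by
            have h4 : ∫ t in (v1 + 1 + j - 1)..(s - 1), m ≤ ∫ t in (v1 + 1 + j - 1)..(s - 1), (om t - ℓ) := by
              refine intervalIntegral.integral_mono_on (by linarith) intervalIntegrable_const (dev_int ℓ _ _) ?_
              intro t ht
              exact ih t (by linarith [ht.1]) (by linarith [ht.2])
            rw [intervalIntegral.integral_const, smul_eq_mul] at h4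
            linarith
          have hs0 : 0 < s := by linarith
          have h5 : s * m ≤ s * (om s - ℓ) := by
            rw [h1]
            have : (v1 + 1 + j) * m ≤ (v1 + 1 + j) * (om (v1 + 1 + j) - ℓ) :=
              mul_le_mul_of_nonneg_left h2 (by linarith)
            linarith
          exact le_of_mul_le_mul_left h5 hs0
    have hlim' : Tendsto (fun s => om s - ℓ) atTop (𝓝 0) := by
      have := hlim.sub_const ℓ
      rwa [sub_self] at this
    obtain ⟨s, hs1, hs2⟩ := ((hlim'.eventually_lt_const hm0).and (eventually_ge_atTop v1)).exists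
    obtain ⟨j, hj⟩ := exists_nat_ge s
    have := hind j s hs2 (by linarith)
    linarith
  -- going down
  have step2 : ∀ a : ℝ, 2 ≤ a → (∀ s, a ≤ s → om s - ℓ = 0) → ∀ s, a - 1 ≤ s → om s - ℓ = 0 := by
    intro a ha h s hs
    have h1 : ∀ x, a - 1 ≤ x → ∫ t in (a - 1)..x, (om t - ℓ) = 0 := by
      intro x hx
      have h2 := dev ℓ (x + 1) a ha (by linarith)
      rw [h a le_rfl, h (x + 1) (by linarith), mul_zero, mul_zero, zero_add] at h2
      have e : x + 1 - 1 = x := by ring
      rw [e] at h2
      exact h2.symm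
    -- derivative of the primitive at points to the right
    have hc : Continuous fun t => om t - ℓ := om_cont.sub continuous_const
    have h2 : HasDerivAt (fun x => ∫ t in (a - 1)..x, (om t - ℓ)) (om s - ℓ) s :=
      intervalIntegral.integral_hasDerivAt_right (dev_int ℓ _ _) (hc.stronglyMeasurableAtFilter _ _) hc.continuousAt
    have h3 : HasDerivWithinAt (fun x => ∫ t in (a - 1)..x, (om t - ℓ)) (om s - ℓ) (Set.Ici s) s :=
      h2.hasDerivWithinAt
    have h4 : HasDerivWithinAt (fun _ : ℝ => (0 : ℝ)) (om s - ℓ) (Set.Ici s) s :=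
      h3.congr (fun x hx => (h1 x (hs.trans hx)).symm) (h1 s hs).symm
    exact (uniqueDiffWithinAt_Ici s).eq_deriv _ h4 (hasDerivWithinAt_const _ _ _) 
  have step3 : ∀ j : ℕ, ∀ s : ℝ, max (max u 1 + 1 - j) 1 ≤ s → om s - ℓ = 0 := by
    intro j
    induction j with
    | zero =>
      intro s hs
      refine step1 s (le_trans ?_ hs)
      have : max u 1 + 1 - ((0 : ℕ) : ℝ) ≤ max (max u 1 + 1 - ((0 : ℕ) : ℝ)) 1 := le_max_left _ _
      simp
    | succ j ih =>
      intro s hs
      set b := max u 1 + 1 - (j : ℝ) with hb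
      rcases le_or_gt 2 b with h2 | h2
      · have h3 : ∀ s, b ≤ s → om s - ℓ = 0 := fun s hs' => ih s (max_le hs' (by linarith))
        refine step2 b h2 h3 s ?_
        have : max u 1 + 1 - ((j + 1 : ℕ) : ℝ) ≤ s := (le_max_left _ _).trans hs
        push_cast at this
        linarith
      · -- `b < 2`: everything from `2` on is known
        have h3 : ∀ s, (2 : ℝ) ≤ s → om s - ℓ = 0 := fun s hs' => ih s (max_le (by linarith) (by linarith))
        exact step2 2 le_rfl h3 s (by linarith [(le_max_right _ _).trans hs])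
  obtain ⟨j, hj⟩ := exists_nat_ge (max u 1 + 1)
  have h1 := step3 j 1 (max_le (by linarith) le_rfl)
  have h2 := step3 j 2 (max_le (by linarith) (by norm_num))
  have h3 := om_small 1 le_rfl (by norm_num)
  have h4 := om_small 2 (by norm_num) le_rfl
  linarith

end osc

end Pool.Agent.T2H32.GM
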