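import Pool.Agent.T2H32.GM.Rough
import Pool.Agent.T2H32.GM.Om

set_option autoImplicit false

/-! # Rough numbers: the asymptotics, by Buchstab's function -/

open Finset Filter Topology MeasureTheory
open Pool.Agent.T2H32.BF (V V_pos V_anti mertens pnt)

namespace Pool.Agent.T2H32.GM

/-- the normalised count -/
noncomputable def w (T : ℕ) (v : ℝ) : ℝ := Phi T ((T : ℝ) ^ v) * Real.log T / (T : ℝ) ^ v

/-- sum of the reciprocals of the rough numbers -/
noncomputable def S1 (T : ℕ) (x : ℝ) : ℝ := ∑ k ∈ Icc 0 ⌊x⌋₊, (k : ℝ)⁻¹ * c T k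

theorem Phi_meas (T : ℕ) : Measurable (Phi T) := (Phi_mono T).measurable

theorem w_meas (T : ℕ) (hT : 2 ≤ T) : Measurable (w T) := by
  have hT0 : (0 : ℝ) < T := by exact_mod_cast (by omega : 0 < T)
  have h1 : Continuous (fun v : ℝ => (T : ℝ) ^ v) := Real.continuous_const_rpow hT0.ne'
  unfold w
  exact (((Phi_meas T).comp h1.measurable).mul_const _).div h1.measurable

theorem w_nonneg (T : ℕ) (v : ℝ) : 0 ≤ w T v := by
  unfold w
  have := Phi_nonneg T ((T : ℝ) ^ v)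
  have := Real.log_natCast_nonneg T
  positivity

theorem w_le : ∃ C : ℝ, 0 < C ∧ ∀ T : ℕ, 2 ≤ T → ∀ v : ℝ, 1 ≤ v → w T v ≤ C := by
  obtain ⟨C, hC0, hC⟩ := Phi_le
  refine ⟨C, hC0, fun T hT v hv => ?_⟩
  have hTR : (2 : ℝ) ≤ T := by exact_mod_cast hT
  have hlT : 0 < Real.log T := Real.log_pos (by linarith)
  have hTv : (T : ℝ) ≤ (T : ℝ) ^ v := by
    calc (T : ℝ) = (T : ℝ) ^ (1 : ℝ) := (Real.rpow_one _).symm
      _ ≤ _ := Real.rpow_le_rpow_of_exponent_le (by linarith) hv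
  have h1 := hC T hT _ hTv
  unfold w
  rw [div_le_iff₀ (by linarith)]
  rw [mul_div_assoc', le_div_iff₀ hlT] at h1
  exact h1

theorem S1_eq (T : ℕ) (b : ℝ) (hb : 1 ≤ b) :
    S1 T b = b⁻¹ * Phi T b + ∫ t in Set.Ioc 1 b, (t ^ 2)⁻¹ * Phi T t := by
  have hd : ∀ t ∈ Set.Icc 1 b, DifferentiableAt ℝ (fun t : ℝ => t⁻¹) t := fun t ht =>
    differentiableAt_inv (by linarith [ht.1])
  have hderiv : ∀ t : ℝ, deriv (fun t : ℝ => t⁻¹) t = -(t ^ 2)⁻¹ := fun t => deriv_inv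
  have hi : IntegrableOn (deriv (fun t : ℝ => t⁻¹)) (Set.Icc 1 b) := by
    have e : deriv (fun t : ℝ => t⁻¹) = fun t => -(t ^ 2)⁻¹ := funext hderiv
    rw [e]
    refine ContinuousOn.integrableOn_Icc ?_
    refine (ContinuousOn.inv₀ (continuousOn_pow 2) fun t ht => ?_).neg
    have : 0 < t := by linarith [ht.1]
    positivity
  have h := sum_mul_eq_sub_integral_mul₀ (c T) (f := fun t : ℝ => t⁻¹) (c_zero T) b hd hi
  unfold S1
  rw [h]
  have e2 : ∫ t in Set.Ioc 1 b, deriv (fun t : ℝ => t⁻¹) t * ∑ k ∈ Icc 0 ⌊t⌋₊, c T k =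
      - ∫ t in Set.Ioc 1 b, (t ^ 2)⁻¹ * Phi T t := by
    rw [← integral_neg]
    refine integral_congr_ae (Eventually.of_forall fun t => ?_)
    simp only
    rw [hderiv]
    unfold Phi
    ring
  rw [e2]
  unfold Phi
  ring

theorem image_pow (T : ℕ) (hT : 2 ≤ T) (v : ℝ) :
    (fun u : ℝ => (T : ℝ) ^ u) '' Set.Ioc 1 v = Set.Ioc (T : ℝ) ((T : ℝ) ^ v) := by
  have hTR : (2 : ℝ) ≤ T := by exact_mod_cast hT
  have hlT : 0 < Real.log T := Real.log_pos (by linarith)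
  ext t
  simp only [Set.mem_image, Set.mem_Ioc]
  constructor
  · rintro ⟨u, ⟨h1, h2⟩, rfl⟩
    constructor
    · calc (T : ℝ) = (T : ℝ) ^ (1 : ℝ) := (Real.rpow_one _).symm
        _ < _ := Real.rpow_lt_rpow_of_exponent_lt (by linarith) h1
    · exact Real.rpow_le_rpow_of_exponent_le (by linarith) h2
  · rintro ⟨h1, h2⟩
    have ht0 : 0 < t := by linarith
    have e : (T : ℝ) ^ (Real.log t / Real.log T) = t := by
      rw [Real.rpow_def_of_pos (by linarith), mul_div_cancel₀ _ hlT.ne', Real.exp_log ht0]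
    refine ⟨Real.log t / Real.log T, ⟨?_, ?_⟩, e⟩
    · rw [lt_div_iff₀ hlT, one_mul]
      exact Real.log_lt_log (by linarith) h1
    · rw [div_le_iff₀ hlT]
      have := Real.log_le_log ht0 h2
      rwa [Real.log_rpow (by linarith)] at this

theorem change_var (T : ℕ) (hT : 2 ≤ T) (v : ℝ) :
    ∫ t in Set.Ioc (T : ℝ) ((T : ℝ) ^ v), (t ^ 2)⁻¹ * Phi T t = ∫ u in Set.Ioc 1 v, w T u := by
  have hTR : (2 : ℝ) ≤ T := by exact_mod_cast hT
  have hT0 : (0 : ℝ) < T := by linarith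
  have hlT : 0 < Real.log T := Real.log_pos (by linarith)
  have h := integral_image_eq_integral_abs_deriv_smul (s := Set.Ioc 1 v) (f := fun u : ℝ => (T : ℝ) ^ u)
    (f' := fun u => (T : ℝ) ^ u * Real.log T) measurableSet_Ioc
    (fun u _ => (Real.hasStrictDerivAt_const_rpow hT0 u).hasDerivAt.hasDerivWithinAt)
    (fun a _ b _ hab => by
      have hab' : (T : ℝ) ^ a = (T : ℝ) ^ b := hab
      have := congrArg Real.log hab'
      rw [Real.log_rpow hT0, Real.log_rpow hT0] at this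
      exact mul_right_cancel₀ hlT.ne' this)
    (fun t => (t ^ 2)⁻¹ * Phi T t)
  rw [image_pow T hT v] at h
  rw [h]
  refine setIntegral_congr_fun measurableSet_Ioc fun u _ => ?_
  simp only [smul_eq_mul]
  have hp : 0 < (T : ℝ) ^ u := Real.rpow_pos_of_pos hT0 u
  rw [abs_of_pos (by positivity)]
  unfold w
  field_simp

theorem phi_integrable (T : ℕ) (g : ℝ → ℝ) (a b : ℝ) (ha : 1 ≤ a) (hg : ContinuousOn g (Set.Icc a b)) :
    IntegrableOn (fun t => g t * Phi T t) (Set.Ioc a b) := by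
  have h1 : IntegrableOn (fun t => g t) (Set.Ioc a b) := (hg.integrableOn_Icc).mono_set Set.Ioc_subset_Icc_self
  refine Integrable.mul_bdd (c := b) h1 (Phi_meas T).aestronglyMeasurable ?_
  refine (ae_restrict_iff' measurableSet_Ioc).2 (Eventually.of_forall fun t ht => ?_)
  have ht0 : 0 ≤ t := by linarith [ht.1]
  rw [Real.norm_eq_abs, abs_of_nonneg (Phi_nonneg T t)]
  exact (Phi_le_self T t ht0).trans ht.2

theorem S1_v (T : ℕ) (hT : 2 ≤ T) (v : ℝ) (hv : 1 ≤ v) :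
    S1 T ((T : ℝ) ^ v) = 1 - 1 / T + w T v / Real.log T + ∫ u in Set.Ioc 1 v, w T u := by
  have hTR : (2 : ℝ) ≤ T := by exact_mod_cast hT
  have hlT : 0 < Real.log T := Real.log_pos (by linarith)
  have hTv : (T : ℝ) ≤ (T : ℝ) ^ v := by
    calc (T : ℝ) = (T : ℝ) ^ (1 : ℝ) := (Real.rpow_one _).symm
      _ ≤ _ := Real.rpow_le_rpow_of_exponent_le (by linarith) hv
  rw [S1_eq T _ (by linarith)]
  have hcont : ∀ a b : ℝ, 1 ≤ a → ContinuousOn (fun t : ℝ => (t ^ 2)⁻¹) (Set.Icc a b) := by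
    intro a b ha
    refine ContinuousOn.inv₀ (continuousOn_pow 2) fun t ht => ?_
    have : 0 < t := by linarith [ht.1]
    positivity
  have h1 : Set.Ioc (1 : ℝ) ((T : ℝ) ^ v) = Set.Ioc 1 (T : ℝ) ∪ Set.Ioc (T : ℝ) ((T : ℝ) ^ v) :=
    (Set.Ioc_union_Ioc_eq_Ioc (by linarith) hTv).symm
  rw [h1, setIntegral_union (Set.Ioc_disjoint_Ioc_of_le le_rfl) measurableSet_Ioc
    (phi_integrable T _ 1 T le_rfl (hcont _ _ le_rfl)) (phi_integrable T _ T _ (by linarith) (hcont _ _ (by linarith))),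
    change_var T hT v]
  have h2 : ∫ t in Set.Ioc 1 (T : ℝ), (t ^ 2)⁻¹ * Phi T t = 1 - 1 / T := by
    have h3 : ∫ t in Set.Ioc 1 (T : ℝ), (t ^ 2)⁻¹ * Phi T t = ∫ t in Set.Ioc 1 (T : ℝ), (t ^ 2)⁻¹ := by
      refine setIntegral_congr_fun measurableSet_Ioc fun t ht => ?_
      change (t ^ 2)⁻¹ * Phi T t = (t ^ 2)⁻¹
      rw [Phi_one T t ht.1.le (by linarith [ht.2]), mul_one]
    rw [h3, ← intervalIntegral.integral_of_le (by linarith)]
    have h4 : ∫ t in (1 : ℝ)..T, (t ^ 2)⁻¹ = (-(T : ℝ)⁻¹) - (-(1 : ℝ)⁻¹) := by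
      refine intervalIntegral.integral_eq_sub_of_hasDerivAt (f := fun t : ℝ => -t⁻¹) ?_ ?_
      · intro t ht
        rw [Set.uIcc_of_le (by linarith)] at ht
        have ht0 : t ≠ 0 := by linarith [ht.1]
        have h5 : HasDerivAt (fun t : ℝ => -t⁻¹) (-(-(t ^ 2)⁻¹)) t := (hasDerivAt_inv ht0).neg
        rwa [neg_neg] at h5
      · refine ContinuousOn.intervalIntegrable ?_
        rw [Set.uIcc_of_le (by linarith)]
        exact hcont _ _ le_rfl
    rw [h4]
    rw [inv_one]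
    ring
  have e : w T v / Real.log T = ((T : ℝ) ^ v)⁻¹ * Phi T ((T : ℝ) ^ v) := by
    unfold w
    have hp : 0 < (T : ℝ) ^ v := by linarith
    field_simp
  rw [h2, e]
  ring

theorem S1_small (T : ℕ) (hT : 2 ≤ T) (v : ℝ) (hv0 : 0 ≤ v) (hv : v ≤ 1) : S1 T ((T : ℝ) ^ v) = 1 := by
  have hTR : (2 : ℝ) ≤ T := by exact_mod_cast hT
  have h1 : (1 : ℝ) ≤ (T : ℝ) ^ v := Real.one_le_rpow (by linarith) hv0
  have h2 : (T : ℝ) ^ v ≤ T := by
    calc (T : ℝ) ^ v ≤ (T : ℝ) ^ (1 : ℝ) := Real.rpow_le_rpow_of_exponent_le (by linarith) hv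
      _ = T := Real.rpow_one _
  unfold S1
  have hf : 1 ≤ ⌊(T : ℝ) ^ v⌋₊ := (Nat.one_le_floor_iff _).2 h1
  have hf2 : ⌊(T : ℝ) ^ v⌋₊ ≤ T := Nat.floor_le_of_le h2
  rw [sum_eq_single_of_mem 1 (mem_Icc.2 ⟨by norm_num, hf⟩)]
  · rw [c_one]; simp
  · intro k hk hk1
    rw [mem_Icc] at hk
    rcases Nat.eq_zero_or_pos k with h0 | h0
    · rw [h0, c_zero, mul_zero]
    · rw [c_small T k (by omega) (by omega), mul_zero]

theorem S1_le : ∃ C : ℝ, 0 < C ∧ ∀ T : ℕ, 2 ≤ T → ∀ v : ℝ, 0 ≤ v → S1 T ((T : ℝ) ^ v) ≤ C * (1 + v) := by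
  obtain ⟨C, hC0, hC⟩ := w_le
  refine ⟨1 + 2 * C, by positivity, fun T hT v hv => ?_⟩
  have hTR : (2 : ℝ) ≤ T := by exact_mod_cast hT
  rcases le_total v 1 with h | h
  · rw [S1_small T hT v hv h]
    nlinarith
  · rw [S1_v T hT v h]
    have hlT : 1 / 2 ≤ Real.log T := by
      have h1 := Real.log_le_log (by norm_num) hTR
      have h2 := Real.log_two_gt_d9
      linarith
    have h1 : w T v / Real.log T ≤ 2 * C := by
      rw [div_le_iff₀ (by linarith)]
      nlinarith [hC T hT v h]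
    have h2 : ∫ u in Set.Ioc 1 v, w T u ≤ C * (v - 1) := by
      have h3 : ‖∫ u in Set.Ioc 1 v, w T u‖ ≤ C * (volume.real (Set.Ioc 1 v)) :=
        norm_setIntegral_le_of_norm_le_const (by simp) fun u hu => by
          rw [Real.norm_eq_abs, abs_of_nonneg (w_nonneg T u)]
          exact hC T hT u hu.1.le
      rw [Real.volume_real_Ioc_of_le h] at h3
      exact (le_abs_self _).trans h3
    have h3 : 0 ≤ 1 / (T : ℝ) := by positivity
    nlinarith

theorem L_abel (T : ℕ) (x : ℝ) (hx : 1 ≤ x) :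
    ∑ k ∈ Icc 0 ⌊x⌋₊, Real.log k * c T k = Real.log x * Phi T x - ∫ t in Set.Ioc 1 x, t⁻¹ * Phi T t := by
  have hd : ∀ t ∈ Set.Icc 1 x, DifferentiableAt ℝ Real.log t := fun t ht =>
    Real.differentiableAt_log (by linarith [ht.1])
  have hderiv : ∀ t : ℝ, deriv Real.log t = t⁻¹ := fun t => by rw [Real.deriv_log]
  have hi : IntegrableOn (deriv Real.log) (Set.Icc 1 x) := by
    have e : deriv Real.log = fun t => t⁻¹ := funext hderiv
    rw [e]
    refine ContinuousOn.integrableOn_Icc ?_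
    refine ContinuousOn.inv₀ continuousOn_id fun t ht => ?_
    have : 0 < t := by linarith [ht.1]
    exact this.ne'
  have h := sum_mul_eq_sub_integral_mul₀ (c T) (f := Real.log) (c_zero T) x hd hi
  rw [h]
  congr 1
  refine integral_congr_ae (Eventually.of_forall fun t => ?_)
  simp only
  rw [hderiv]
  rfl

theorem abel_err : ∃ C : ℝ, 0 < C ∧ ∀ T : ℕ, 2 ≤ T → ∀ x : ℝ, T ≤ x →
    0 ≤ ∫ t in Set.Ioc 1 x, t⁻¹ * Phi T t ∧
      ∫ t in Set.Ioc 1 x, t⁻¹ * Phi T t ≤ Real.log T + C * (x / Real.log T) := by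
  obtain ⟨C, hC0, hC⟩ := Phi_le
  refine ⟨C, hC0, fun T hT x hx => ?_⟩
  have hTR : (2 : ℝ) ≤ T := by exact_mod_cast hT
  have hlT : 0 < Real.log T := Real.log_pos (by linarith)
  constructor
  · refine setIntegral_nonneg measurableSet_Ioc fun t ht => ?_
    have : 0 < t := by linarith [ht.1]
    have := Phi_nonneg T t
    positivity
  · have hcont : ∀ a b : ℝ, 1 ≤ a → ContinuousOn (fun t : ℝ => t⁻¹) (Set.Icc a b) := by
      intro a b ha
      refine ContinuousOn.inv₀ continuousOn_id fun t ht => ?_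
      have : 0 < t := by linarith [ht.1]
      exact this.ne'
    have h1 : Set.Ioc (1 : ℝ) x = Set.Ioc 1 (T : ℝ) ∪ Set.Ioc (T : ℝ) x :=
      (Set.Ioc_union_Ioc_eq_Ioc (by linarith) hx).symm
    rw [h1, setIntegral_union (Set.Ioc_disjoint_Ioc_of_le le_rfl) measurableSet_Ioc
      (phi_integrable T _ 1 T le_rfl (hcont _ _ le_rfl)) (phi_integrable T _ T _ (by linarith) (hcont _ _ (by linarith)))]
    have h2 : ∫ t in Set.Ioc 1 (T : ℝ), t⁻¹ * Phi T t = Real.log T := by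
      have h3 : ∫ t in Set.Ioc 1 (T : ℝ), t⁻¹ * Phi T t = ∫ t in Set.Ioc 1 (T : ℝ), t⁻¹ := by
        refine setIntegral_congr_fun measurableSet_Ioc fun t ht => ?_
        change t⁻¹ * Phi T t = t⁻¹
        rw [Phi_one T t ht.1.le (by linarith [ht.2]), mul_one]
      rw [h3, ← intervalIntegral.integral_of_le (by linarith), integral_inv_of_pos one_pos (by linarith)]
      simp
    have h3 : ∫ t in Set.Ioc (T : ℝ) x, t⁻¹ * Phi T t ≤ C * (x / Real.log T) := by
      have h4 : ‖∫ t in Set.Ioc (T : ℝ) x, t⁻¹ * Phi T t‖ ≤ (C / Real.log T) * (volume.real (Set.Ioc (T : ℝ) x)) :=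
        norm_setIntegral_le_of_norm_le_const (by simp) fun t ht => by
          have ht0 : 0 < t := by linarith [ht.1]
          have h5 := hC T hT t ht.1.le
          rw [Real.norm_eq_abs, abs_of_nonneg (mul_nonneg (by positivity) (Phi_nonneg T t))]
          calc t⁻¹ * Phi T t ≤ t⁻¹ * (C * (t / Real.log T)) := by gcongr
            _ = C / Real.log T := by field_simp
      rw [Real.volume_real_Ioc_of_le hx] at h4
      refine (le_abs_self _).trans (h4.trans ?_)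
      rw [div_mul_eq_mul_div, mul_div_assoc]
      gcongr
      linarith
    rw [h2]
    linarith

end Pool.Agent.T2H32.GM
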