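import Pool.Agent.T2H32.GM.Lim
import Pool.Agent.Helper923.PNT

set_option autoImplicit false

/-! # Rough numbers: convergence to Buchstab's function -/

open Finset Filter Topology MeasureTheory
open Pool.Agent.T2H32.BF (V V_pos V_anti mertens pnt)

namespace Pool.Agent.T2H32.GM

theorem sum_c (T N : ℕ) (f : ℕ → ℝ) : ∑ k ∈ Icc 0 N, f k * c T k = ∑ k ∈ (Icc 1 N).filter (Rg T), f k := by
  have e : Icc 0 N = insert 0 (Icc 1 N) := by
    ext k
    simp only [mem_Icc, mem_insert]
    omega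
  rw [e, sum_insert (by simp), c_zero, mul_zero, zero_add, sum_filter]
  refine sum_congr rfl fun k hk => ?_
  rw [mem_Icc] at hk
  unfold c
  by_cases h : Rg T k
  · rw [if_pos ⟨hk.1, h⟩, if_pos h, mul_one]
  · rw [if_neg (fun h' => h h'.2), if_neg h, mul_zero]

/-- the logarithmic sum against `S1` -/
theorem L_bound (ε : ℝ) (hε : 0 < ε) (hε1 : ε ≤ 1) : ∃ T0 : ℕ, ∀ T : ℕ, T0 ≤ T → 2 ≤ T → ∀ v : ℝ, 1 ≤ v →
    |∑ k ∈ Icc 0 ⌊(T : ℝ) ^ v⌋₊, Real.log k * c T k - (T : ℝ) ^ v * S1 T ((T : ℝ) ^ (v - 1))| ≤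
      ε * ((T : ℝ) ^ v * S1 T ((T : ℝ) ^ (v - 1))) +
        (Nat.primeCounting T * (v * Real.log T)) * Phi T ((T : ℝ) ^ (v - 1)) := by
  obtain ⟨t0, ht0⟩ := Metric.tendsto_atTop.1 Pool.Agent.Helper923.PNT.psi_div_tendsto ε hε
  obtain ⟨T0, hT0⟩ := exists_nat_ge t0
  refine ⟨T0, fun T hT hT2 v hv => ?_⟩
  have hTR : (2 : ℝ) ≤ T := by exact_mod_cast hT2
  have hTp : (0 : ℝ) < T := by linarith
  have hlT : 0 < Real.log T := Real.log_pos (by linarith)
  have htT : t0 ≤ T := hT0.trans (by exact_mod_cast hT)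
  set x := (T : ℝ) ^ v with hx
  set M := (T : ℝ) ^ (v - 1) with hM
  have hxM : x = T * M := by
    rw [hx, hM, Real.rpow_sub_one hTp.ne']
    field_simp
  have hM1 : 1 ≤ M := Real.one_le_rpow (by linarith) (by linarith)
  have hM0 : 0 < M := by linarith
  have hx0 : 0 < x := by rw [hxM]; positivity
  have hMx : M ≤ x := by rw [hxM]; nlinarith
  rw [sum_c T _ (fun k => Real.log k), L_id]
  -- restrict to `m ≤ M`
  have h1 : ∑ m ∈ (Icc 1 ⌊x⌋₊).filter (Rg T), psT T (⌊x⌋₊ / m) =
      ∑ m ∈ (Icc 1 ⌊M⌋₊).filter (Rg T), psT T (⌊x⌋₊ / m) := by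
    symm
    refine sum_subset ?_ ?_
    · intro m hm
      rw [mem_filter, mem_Icc] at hm ⊢
      exact ⟨⟨hm.1.1, hm.1.2.trans (Nat.floor_le_floor hMx)⟩, hm.2⟩
    · intro m hm hm'
      rw [mem_filter, mem_Icc] at hm hm'
      have h2 : ⌊M⌋₊ < m := by
        by_contra h3
        push Not at h3
        exact hm' ⟨⟨hm.1.1, h3⟩, hm.2⟩
      refine psT_zero T _ ?_
      have h3 : M < m := (Nat.floor_lt hM0.le).1 h2
      rw [← Nat.floor_div_natCast]
      have h4 : x / m < T := by
        rw [div_lt_iff₀ (by linarith), hxM]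
        nlinarith
      exact (Nat.floor_lt (by positivity) |>.2 h4).le
  rw [h1]
  have h2 : x * S1 T M = ∑ m ∈ (Icc 1 ⌊M⌋₊).filter (Rg T), x / m := by
    unfold S1
    rw [sum_c T _ (fun k => (k : ℝ)⁻¹), mul_sum]
    rfl
  have h3 : Phi T M = ∑ m ∈ (Icc 1 ⌊M⌋₊).filter (Rg T), (1 : ℝ) := by
    have := sum_c T ⌊M⌋₊ (fun _ => 1)
    simp only [one_mul] at this
    exact this
  rw [h2, h3, ← sum_sub_distrib, mul_sum, mul_sum, ← sum_add_distrib]
  refine (abs_sum_le_sum_abs _ _).trans (sum_le_sum fun m hm => ?_)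
  rw [mem_filter, mem_Icc] at hm
  have hm0 : (0 : ℝ) < m := by exact_mod_cast (by omega : 0 < m)
  have hmM : (m : ℝ) ≤ M := (Nat.le_floor_iff hM0.le).1 hm.1.2
  have hxm : (T : ℝ) ≤ x / m := by
    rw [le_div_iff₀ hm0, hxM]
    nlinarith
  have h4 : ⌊x⌋₊ / m = ⌊x / m⌋₊ := (Nat.floor_div_natCast x m).symm
  have h5 : Chebyshev.psi (⌊x / m⌋₊ : ℝ) = Chebyshev.psi (x / m) := (Chebyshev.psi_eq_psi_coe_floor _).symm
  have h6 := ht0 (x / m) (htT.trans hxm)
  rw [Real.dist_eq] at h6
  have hxm0 : 0 < x / m := by linarith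
  have h7 : |Chebyshev.psi (x / m) - x / m| ≤ ε * (x / m) := by
    have e : Chebyshev.psi (x / m) - x / m = (Chebyshev.psi (x / m) / (x / m) - 1) * (x / m) := by
      field_simp
    rw [e, abs_mul, abs_of_pos hxm0]
    exact mul_le_mul_of_nonneg_right h6.le hxm0.le
  rw [abs_le] at h7
  have h8 := psT_le T ⌊x / m⌋₊
  have h9 : 1 ≤ ⌊x / m⌋₊ := (Nat.one_le_floor_iff _).2 (by linarith)
  have h10 := psT_ge T ⌊x / m⌋₊ h9
  have h11 : Real.log (⌊x / m⌋₊ : ℝ) ≤ v * Real.log T := by
    have h12 : (⌊x / m⌋₊ : ℝ) ≤ x := by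
      refine (Nat.floor_le hxm0.le).trans ?_
      rw [div_le_iff₀ hm0]
      have : (1 : ℝ) ≤ m := by exact_mod_cast hm.1.1
      nlinarith
    have h13 := Real.log_le_log (by exact_mod_cast h9) h12
    rwa [hx, Real.log_rpow hTp] at h13
  have h12 : (Nat.primeCounting T : ℝ) * Real.log (⌊x / m⌋₊ : ℝ) ≤ Nat.primeCounting T * (v * Real.log T) := by
    gcongr
  have h13 : 0 ≤ (Nat.primeCounting T : ℝ) * (v * Real.log T) := by positivity
  rw [h4]
  rw [h5] at h8 h10
  rw [abs_le, mul_one]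
  constructor <;> linarith [h7.1, h7.2]

/-- the remainder -/
theorem r_zero (v : ℝ) (hv : 1 < v) : Tendsto (fun T : ℕ => Phi T ((T : ℝ) ^ (v - 1)) / (T : ℝ) ^ (v - 1))
    atTop (𝓝 0) := by
  obtain ⟨C, hC0, hC⟩ := w_le
  have h1 : Tendsto (fun T : ℕ => ((T : ℝ) ^ (v - 1))⁻¹ + C / Real.log T) atTop (𝓝 0) := by
    have h2 : Tendsto (fun T : ℕ => ((T : ℝ) ^ (v - 1))⁻¹) atTop (𝓝 0) :=
      tendsto_inv_atTop_zero.comp ((tendsto_rpow_atTop (by linarith)).comp tendsto_natCast_atTop_atTop)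
    have h3 : Tendsto (fun T : ℕ => C / Real.log T) atTop (𝓝 0) :=
      tendsto_const_nhds.div_atTop (Real.tendsto_log_atTop.comp tendsto_natCast_atTop_atTop)
    simpa using h2.add h3
  refine squeeze_zero' ?_ ?_ h1
  · filter_upwards with T
    exact div_nonneg (Phi_nonneg _ _) (by positivity)
  · filter_upwards [eventually_ge_atTop 2] with T hT
    have hTR : (2 : ℝ) ≤ T := by exact_mod_cast hT
    have hlT : 0 < Real.log T := Real.log_pos (by linarith)
    have hp : 0 < (T : ℝ) ^ (v - 1) := by positivity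
    rcases le_total (v - 1) 1 with h | h
    · have h2 : Phi T ((T : ℝ) ^ (v - 1)) = 1 := by
        refine Phi_one T _ (Real.one_le_rpow (by linarith) (by linarith)) ?_
        have : (T : ℝ) ^ (v - 1) ≤ T := by
          calc (T : ℝ) ^ (v - 1) ≤ (T : ℝ) ^ (1 : ℝ) := Real.rpow_le_rpow_of_exponent_le (by linarith) h
            _ = T := Real.rpow_one _
        linarith
      rw [h2, one_div]
      have : 0 < C / Real.log T := by positivity
      linarith
    · have h2 := hC T hT (v - 1) h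
      have h3 : Phi T ((T : ℝ) ^ (v - 1)) / (T : ℝ) ^ (v - 1) ≤ C / Real.log T := by
        rw [le_div_iff₀ hlT]
        unfold w at h2
        calc Phi T ((T : ℝ) ^ (v - 1)) / (T : ℝ) ^ (v - 1) * Real.log T =
              Phi T ((T : ℝ) ^ (v - 1)) * Real.log T / (T : ℝ) ^ (v - 1) := by ring
          _ ≤ C := h2
      have : 0 < ((T : ℝ) ^ (v - 1))⁻¹ := by positivity
      linarith

/-- **The equation.** -/
theorem main_eq (v : ℝ) (hv : 1 < v) :
    Tendsto (fun T : ℕ => v * w T v - S1 T ((T : ℝ) ^ (v - 1))) atTop (𝓝 0) := by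
  obtain ⟨C1, hC10, hC1⟩ := S1_le
  obtain ⟨C2, hC20, hC2⟩ := abel_err
  set B := C1 * (1 + (v - 1)) with hB
  have hB0 : 0 < B := by rw [hB]; nlinarith
  -- small terms
  have ht1 : Tendsto (fun T : ℕ => (Real.log T + C2 * ((T : ℝ) ^ v / Real.log T)) / (T : ℝ) ^ v) atTop (𝓝 0) := by
    have h1 : Tendsto (fun T : ℕ => Real.log T / (T : ℝ) ^ v) atTop (𝓝 0) := by
      have := (isLittleO_log_rpow_atTop (by linarith : 0 < v)).tendsto_div_nhds_zero
      exact this.comp tendsto_natCast_atTop_atTop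
    have h2 : Tendsto (fun T : ℕ => C2 / Real.log T) atTop (𝓝 0) :=
      tendsto_const_nhds.div_atTop (Real.tendsto_log_atTop.comp tendsto_natCast_atTop_atTop)
    have h3 := h1.add h2
    rw [add_zero] at h3
    refine h3.congr' ?_
    filter_upwards [eventually_ge_atTop 2] with T hT
    have hTR : (2 : ℝ) ≤ T := by exact_mod_cast hT
    have hlT : 0 < Real.log T := Real.log_pos (by linarith)
    have hp : 0 < (T : ℝ) ^ v := by positivity
    field_simp
  have ht2 : Tendsto (fun T : ℕ => (Nat.primeCounting T * (v * Real.log T)) * Phi T ((T : ℝ) ^ (v - 1)) / (T : ℝ) ^ v)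
      atTop (𝓝 0) := by
    have h1 := (pnt.mul (r_zero v hv)).const_mul v
    rw [mul_zero, mul_zero] at h1
    refine h1.congr' ?_
    filter_upwards [eventually_ge_atTop 2] with T hT
    have hTR : (2 : ℝ) ≤ T := by exact_mod_cast hT
    have hp : 0 < (T : ℝ) ^ (v - 1) := by positivity
    have e : (T : ℝ) ^ v = T * (T : ℝ) ^ (v - 1) := by
      rw [Real.rpow_sub_one (by linarith)]
      field_simp
    rw [e]
    field_simp
  rw [Metric.tendsto_atTop]
  intro ε hε
  set ε' := min (ε / (4 * B)) 1 with hε'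
  have hε'0 : 0 < ε' := lt_min (by positivity) one_pos
  obtain ⟨T0, hT0⟩ := L_bound ε' hε'0 (min_le_right _ _)
  have h1 := ht1.eventually_lt_const (show (0 : ℝ) < ε / 4 by positivity)
  have h2 := ht2.eventually_lt_const (show (0 : ℝ) < ε / 4 by positivity)
  obtain ⟨T1, hT1⟩ := eventually_atTop.1 ((h1.and h2).and ((eventually_ge_atTop T0).and (eventually_ge_atTop 2)))
  refine ⟨T1, fun T hT => ?_⟩
  obtain ⟨⟨h1, h2⟩, h3, h4⟩ := hT1 T hT
  have hTR : (2 : ℝ) ≤ T := by exact_mod_cast h4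
  have hlT : 0 < Real.log T := Real.log_pos (by linarith)
  set x := (T : ℝ) ^ v with hx
  have hxT : (T : ℝ) ≤ x := by
    calc (T : ℝ) = (T : ℝ) ^ (1 : ℝ) := (Real.rpow_one _).symm
      _ ≤ _ := Real.rpow_le_rpow_of_exponent_le (by linarith) hv.le
  have hx0 : 0 < x := by linarith
  have h5 := hT0 T h3 h4 v hv.le
  have h6 := L_abel T x (by linarith)
  have h7 := hC2 T h4 x hxT
  have h8 := hC1 T h4 (v - 1) (by linarith)
  rw [← hB] at h8
  set L := ∑ k ∈ Icc 0 ⌊x⌋₊, Real.log k * c T k with hL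
  set s := S1 T ((T : ℝ) ^ (v - 1)) with hs
  set I := ∫ t in Set.Ioc 1 x, t⁻¹ * Phi T t with hI
  have hs0 : 0 ≤ s := sum_nonneg fun k _ => mul_nonneg (by positivity) (c_nonneg T k)
  have e : v * w T v - s = (L - x * s) / x + I / x := by
    have h9 : v * w T v = (L + I) / x := by
      unfold w
      rw [h6, hx, Real.log_rpow (by linarith)]
      ring
    rw [h9]
    field_simp
    ring
  rw [Real.dist_eq, sub_zero, e]
  have h9 : |(L - x * s) / x| ≤ ε' * s + (Nat.primeCounting T * (v * Real.log T)) * Phi T ((T : ℝ) ^ (v - 1)) / x := by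
    rw [abs_div, abs_of_pos hx0, div_le_iff₀ hx0]
    rw [← hx] at h5
    refine h5.trans (le_of_eq ?_)
    field_simp
  have h10 : |I / x| ≤ (Real.log T + C2 * (x / Real.log T)) / x := by
    rw [abs_div, abs_of_pos hx0, abs_of_nonneg h7.1]
    gcongr
    exact h7.2
  have h11 : ε' * s ≤ ε / 4 := by
    calc ε' * s ≤ (ε / (4 * B)) * B := by
          gcongr
          exact min_le_left _ _
      _ = ε / 4 := by field_simp
  calc |(L - x * s) / x + I / x| ≤ |(L - x * s) / x| + |I / x| := abs_add_le _ _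
    _ < ε := by linarith

/-- **Convergence** of the normalised counts. -/
theorem conv (v : ℝ) (hv : 1 < v) : Tendsto (fun T : ℕ => w T v) atTop (𝓝 (om v)) := by
  obtain ⟨C, hC0, hC⟩ := w_le
  have key : ∀ n : ℕ, ∀ v : ℝ, 1 < v → v ≤ n + 2 → Tendsto (fun T : ℕ => w T v) atTop (𝓝 (om v)) := by
    intro n
    induction n with
    | zero =>
      intro v hv hv2
      have h1 := main_eq v hv
      have h2 : Tendsto (fun T : ℕ => v * w T v) atTop (𝓝 1) := by
        have h3 := h1.add_const 1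
        rw [zero_add] at h3
        refine h3.congr' ?_
        filter_upwards [eventually_ge_atTop 2] with T hT
        rw [S1_small T hT (v - 1) (by linarith) (by push_cast at hv2; linarith)]
        ring
      have h3 := h2.const_mul v⁻¹
      have h4 := om_small v hv.le (by push_cast at hv2; linarith)
      have e : v⁻¹ * 1 = om v := by
        rw [← h4]
        field_simp
      rw [e] at h3
      refine h3.congr fun T => ?_
      field_simp
    | succ n ih =>
      intro v hv hv2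
      push_cast at hv2
      rcases le_or_gt v 2 with h2 | h2
      · exact ih v hv (by
          have : (0 : ℝ) ≤ n := Nat.cast_nonneg n
          linarith)
      · have h1 := main_eq v hv
        have hint : Tendsto (fun T : ℕ => ∫ u in Set.Ioc 1 (v - 1), w T u) atTop
            (𝓝 (∫ u in Set.Ioc 1 (v - 1), om u)) := by
          refine tendsto_integral_filter_of_dominated_convergence (fun _ => C) ?_ ?_ ?_ ?_
          · filter_upwards [eventually_ge_atTop 2] with T hT
            exact (w_meas T hT).aestronglyMeasurable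
          · filter_upwards [eventually_ge_atTop 2] with T hT
            refine (ae_restrict_iff' measurableSet_Ioc).2 (Eventually.of_forall fun u hu => ?_)
            rw [Real.norm_eq_abs, abs_of_nonneg (w_nonneg T u)]
            exact hC T hT u hu.1.le
          · exact integrable_const _
          · refine (ae_restrict_iff' measurableSet_Ioc).2 (Eventually.of_forall fun u hu => ?_)
            exact ih u hu.1 (by linarith [hu.2])
        have hw0 : Tendsto (fun T : ℕ => w T (v - 1) / Real.log T) atTop (𝓝 0) := by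
          have h3 : Tendsto (fun T : ℕ => C / Real.log T) atTop (𝓝 0) :=
            tendsto_const_nhds.div_atTop (Real.tendsto_log_atTop.comp tendsto_natCast_atTop_atTop)
          refine squeeze_zero' ?_ ?_ h3
          · filter_upwards [eventually_ge_atTop 2] with T hT
            exact div_nonneg (w_nonneg _ _) (Real.log_natCast_nonneg T)
          · filter_upwards [eventually_ge_atTop 2] with T hT
            have := Real.log_natCast_nonneg T
            have := hC T hT (v - 1) (by linarith)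
            gcongr
        have h1T : Tendsto (fun T : ℕ => 1 / (T : ℝ)) atTop (𝓝 0) := tendsto_one_div_atTop_nhds_zero_nat
        have hS : Tendsto (fun T : ℕ => S1 T ((T : ℝ) ^ (v - 1))) atTop (𝓝 (1 + ∫ u in Set.Ioc 1 (v - 1), om u)) := by
          have h3 := ((tendsto_const_nhds (x := (1 : ℝ))).sub h1T).add hw0 |>.add hint
          rw [sub_zero, add_zero] at h3
          refine h3.congr' ?_
          filter_upwards [eventually_ge_atTop 2] with T hT
          rw [S1_v T hT (v - 1) (by linarith)]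
        have h3 := (h1.add hS).const_mul v⁻¹
        have h4 := om_rec2 v h2.le
        rw [intervalIntegral.integral_of_le (by linarith)] at h4
        rw [zero_add, ← h4] at h3
        have e : v⁻¹ * (v * om v) = om v := by field_simp
        rw [e] at h3
        refine h3.congr fun T => ?_
        field_simp
        ring
  obtain ⟨n, hn⟩ := exists_nat_ge v
  exact key n v hv (by linarith)

/-- `ω → e^{-γ}` -/
theorem om_lim : Tendsto om atTop (𝓝 (Real.exp (-Real.eulerMascheroniConstant))) := by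
  obtain ⟨C0, hC0, hfl⟩ := fl_main
  set γ := Real.exp (-Real.eulerMascheroniConstant) with hγ
  have hγ0 : 0 < γ := Real.exp_pos _
  have key : ∀ b : ℕ, C0 ≤ b → ∀ v : ℝ, 4 * C0 * b + 3 ≤ v → |om v - γ| ≤ (1 / 2 : ℝ) ^ b * γ := by
    intro b hb v hv
    obtain ⟨K, hK0, hK⟩ := hfl b hb
    have hb0 : (0 : ℝ) ≤ 4 * C0 * b := by positivity
    have hv1 : 1 < v := by linarith
    have h1 := conv v hv1
    have h2 := mertens
    rw [← hγ] at h2
    -- `|w - V log T| ≤ ...`
    have h3 : ∀ᶠ T : ℕ in atTop, |w T v - V T * Real.log T| ≤ (1 / 2 : ℝ) ^ b * (V T * Real.log T) +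
        (K + 1) * (Real.log T / T) := by
      filter_upwards [eventually_ge_atTop 2] with T hT
      have hTR : (2 : ℝ) ≤ T := by exact_mod_cast hT
      have hTp : (0 : ℝ) < T := by linarith
      have hlT : 0 < Real.log T := Real.log_pos (by linarith)
      have hp : 0 < (T : ℝ) ^ v := by positivity
      have h4 := hK T 0 ⌊(T : ℝ) ^ v⌋₊ (by omega)
      rw [← Phi_eq] at h4
      have hN := Nat.floor_le hp.le
      have hN2 := Nat.lt_floor_add_one ((T : ℝ) ^ v)
      have hVp := V_pos T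
      have hV1 : V T ≤ 1 := by
        have := V_anti (Nat.zero_le T)
        have e : V 0 = 1 := by unfold V; rfl
        rwa [e] at this
      have h5 : |Phi T ((T : ℝ) ^ v) - V T * (T : ℝ) ^ v| ≤ (1 / 2 : ℝ) ^ b * (V T * (T : ℝ) ^ v) +
          K * (T : ℝ) ^ (4 * C0 * b + 1) + 1 := by
        have h6 : V T * ⌊(T : ℝ) ^ v⌋₊ ≤ V T * (T : ℝ) ^ v := by gcongr
        have h7 : V T * (T : ℝ) ^ v - 1 ≤ V T * ⌊(T : ℝ) ^ v⌋₊ := by nlinarith
        have h8 : (1 / 2 : ℝ) ^ b * (V T * ⌊(T : ℝ) ^ v⌋₊) ≤ (1 / 2 : ℝ) ^ b * (V T * (T : ℝ) ^ v) := by gcongr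
        rw [abs_le] at h4 ⊢
        constructor <;> linarith [h4.1, h4.2]
      have e1 : w T v - V T * Real.log T = (Phi T ((T : ℝ) ^ v) - V T * (T : ℝ) ^ v) * (Real.log T / (T : ℝ) ^ v) := by
        unfold w
        field_simp
      rw [e1, abs_mul, abs_of_pos (show 0 < Real.log T / (T : ℝ) ^ v by positivity)]
      calc _ ≤ ((1 / 2 : ℝ) ^ b * (V T * (T : ℝ) ^ v) + K * (T : ℝ) ^ (4 * C0 * b + 1) + 1) *
            (Real.log T / (T : ℝ) ^ v) := by gcongr
        _ = (1 / 2 : ℝ) ^ b * (V T * Real.log T) + (K * (T : ℝ) ^ (4 * C0 * b + 1) + 1) *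
            (Real.log T / (T : ℝ) ^ v) := by
          have e2 : (1 / 2 : ℝ) ^ b * (V T * (T : ℝ) ^ v) * (Real.log T / (T : ℝ) ^ v) =
              (1 / 2 : ℝ) ^ b * (V T * Real.log T) := by field_simp
          rw [add_assoc, add_mul, e2]
        _ ≤ _ := by
          have h6 : (T : ℝ) * (T : ℝ) ^ (4 * C0 * b + 1) ≤ (T : ℝ) ^ v := by
            rw [← Real.rpow_natCast (T : ℝ) (4 * C0 * b + 1)]
            nth_rewrite 1 [← Real.rpow_one (T : ℝ)]
            rw [← Real.rpow_add hTp]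
            apply Real.rpow_le_rpow_of_exponent_le (by linarith)
            push_cast
            linarith
          have h7 : (1 : ℝ) ≤ (T : ℝ) ^ (4 * C0 * b + 1) := one_le_pow₀ (by linarith)
          have h8 : (K * (T : ℝ) ^ (4 * C0 * b + 1) + 1) * (Real.log T / (T : ℝ) ^ v) ≤
              ((K + 1) * (T : ℝ) ^ (4 * C0 * b + 1)) * (Real.log T / (T * (T : ℝ) ^ (4 * C0 * b + 1))) := by
            gcongr
            linarith
          have h9 : ((K + 1) * (T : ℝ) ^ (4 * C0 * b + 1)) * (Real.log T / (T * (T : ℝ) ^ (4 * C0 * b + 1))) =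
              (K + 1) * (Real.log T / T) := by
            have : (T : ℝ) ^ (4 * C0 * b + 1) ≠ 0 := by positivity
            field_simp
          linarith
    have h4 : Tendsto (fun T : ℕ => Real.log T / (T : ℝ)) atTop (𝓝 0) := by
      have := (Real.isLittleO_log_id_atTop).tendsto_div_nhds_zero
      exact this.comp tendsto_natCast_atTop_atTop
    have h5 : Tendsto (fun T : ℕ => |w T v - V T * Real.log T|) atTop (𝓝 |om v - γ|) := (h1.sub h2).abs
    have h6 : Tendsto (fun T : ℕ => (1 / 2 : ℝ) ^ b * (V T * Real.log T) + (K + 1) * (Real.log T / T)) atTop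
        (𝓝 ((1 / 2 : ℝ) ^ b * γ)) := by
      have := (h2.const_mul ((1 / 2 : ℝ) ^ b)).add (h4.const_mul (K + 1))
      rwa [mul_zero, add_zero] at this
    exact le_of_tendsto_of_tendsto h5 h6 h3
  rw [Metric.tendsto_atTop]
  intro ε hε
  obtain ⟨n, hn⟩ := exists_pow_lt_of_lt_one (show 0 < ε / γ by positivity) (show (1 / 2 : ℝ) < 1 by norm_num)
  refine ⟨4 * C0 * (max n C0 : ℕ) + 3, fun v hv => ?_⟩
  rw [Real.dist_eq]
  refine (key (max n C0) (le_max_right _ _) v hv).trans_lt ?_
  have h1 : (1 / 2 : ℝ) ^ (max n C0) ≤ (1 / 2 : ℝ) ^ n :=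
    pow_le_pow_of_le_one (by norm_num) (by norm_num) (le_max_left _ _)
  rw [lt_div_iff₀ hγ0] at hn
  calc (1 / 2 : ℝ) ^ (max n C0) * γ ≤ (1 / 2 : ℝ) ^ n * γ := by gcongr
    _ < ε := hn

/-- **Fewer rough numbers than expected**, at arbitrarily large powers. -/
theorem deficit (u : ℝ) : ∃ v, u ≤ v ∧ ∃ δ : ℝ, 0 < δ ∧ δ < 1 ∧ ∀ᶠ T : ℕ in atTop,
    Phi T ((T : ℝ) ^ v) ≤ (1 - δ) * (V T * (T : ℝ) ^ v) := by
  set γ := Real.exp (-Real.eulerMascheroniConstant) with hγ
  have hγ0 : 0 < γ := Real.exp_pos _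
  obtain ⟨v, hv, hom⟩ := osc γ om_lim (max u 2)
  have hv2 : 2 ≤ v := (le_max_right _ _).trans hv
  -- `om v ≥ 0`
  have h0 : 0 ≤ om v := ge_of_tendsto' (conv v (by linarith)) fun T => w_nonneg T v
  set δ := (γ - om v) / (2 * γ) with hδ
  have hδ0 : 0 < δ := by rw [hδ]; apply div_pos <;> linarith
  have hδ1 : δ < 1 := by
    rw [hδ, div_lt_one (by linarith)]
    linarith
  refine ⟨v, (le_max_left _ _).trans hv, δ, hδ0, hδ1, ?_⟩
  have h1 := (conv v (by linarith)).sub ((mertens).const_mul (1 - δ))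
  rw [← hγ] at h1
  have h2 : om v - (1 - δ) * γ < 0 := by
    have : (1 - δ) * γ = (γ + om v) / 2 := by
      rw [hδ]
      field_simp
      ring
    rw [this]
    linarith
  filter_upwards [h1.eventually_lt_const h2, eventually_ge_atTop 2] with T hT hT2
  have hTR : (2 : ℝ) ≤ T := by exact_mod_cast hT2
  have hlT : 0 < Real.log T := Real.log_pos (by linarith)
  have hp : 0 < (T : ℝ) ^ v := by positivity
  unfold w at hT
  have h3 : Phi T ((T : ℝ) ^ v) * Real.log T / (T : ℝ) ^ v < (1 - δ) * (V T * Real.log T) := by linarith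
  rw [div_lt_iff₀ hp] at h3
  have h4 : Phi T ((T : ℝ) ^ v) * Real.log T < ((1 - δ) * (V T * (T : ℝ) ^ v)) * Real.log T := by
    linarith
  exact (lt_of_mul_lt_mul_right h4 hlT.le).le

end Pool.Agent.T2H32.GM
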