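import Pool.Agent.T2H32.GM.Prob
import Pool.Agent.T2H32.GM.FL

set_option autoImplicit false

/-! # The model: the probabilities and their sums -/

open MeasureTheory ProbabilityTheory Filter Topology Finset
open scoped ENNReal
open Pool.Agent.T2H32.BF (V V_pos V_anti mertens)

namespace Pool.Agent.T2H32.GM

/-- probability that `k` is a random prime -/
noncomputable def q (T : ℕ → ℕ) (k : ℕ) : ℝ :=
  if 3 ≤ k ∧ Rg (T k) k then min 1 (1 / (V (T k) * Real.log k)) else 0

theorem q_nonneg (T : ℕ → ℕ) (k : ℕ) : 0 ≤ q T k := by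
  unfold q
  split_ifs with h
  · refine le_min zero_le_one ?_
    have := V_pos (T k)
    have := Real.log_natCast_nonneg k
    positivity
  · exact le_rfl

theorem q_le_one (T : ℕ → ℕ) (k : ℕ) : q T k ≤ 1 := by
  unfold q
  split_ifs with h
  · exact min_le_left _ _
  · exact zero_le_one

theorem tlog : Tendsto (fun k : ℕ => Real.log k) atTop atTop :=
  Real.tendsto_log_atTop.comp tendsto_natCast_atTop_atTop

theorem V_le_one (t : ℕ) : V t ≤ 1 := by
  have := V_anti (Nat.zero_le t)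
  have e : V 0 = 1 := by unfold V; rfl
  rwa [e] at this

theorem Vinv_anti (t t' : ℕ) (h : t ≤ t') : (V t)⁻¹ ≤ (V t')⁻¹ := inv_anti₀ (V_pos t') (V_anti h)

/-- `1 / V` is small -/
theorem Vinv (s : ℝ) (hs : 0 < s) : ∀ᶠ k : ℕ in atTop, ∀ t : ℕ, (t : ℝ) ≤ 2 * Real.log k →
    (V t)⁻¹ ≤ Real.log k ^ s := by
  set γ := Real.exp (-Real.eulerMascheroniConstant) with hγ
  have hγ0 : 0 < γ := Real.exp_pos _
  have hn : Tendsto (fun k : ℕ => ⌊2 * Real.log k⌋₊) atTop atTop :=
    tendsto_nat_floor_atTop.comp (tlog.const_mul_atTop (by norm_num))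
  have h1 := (mertens.comp hn).eventually_const_lt (show γ / 2 < γ by linarith)
  have h2 : Tendsto (fun x : ℝ => Real.log (2 * x) / x ^ s) atTop (𝓝 0) := by
    have h3 : Tendsto (fun x : ℝ => Real.log 2 / x ^ s + Real.log x / x ^ s) atTop (𝓝 (0 + 0)) :=
      (tendsto_const_nhds.div_atTop (tendsto_rpow_atTop hs)).add
        ((isLittleO_log_rpow_atTop hs).tendsto_div_nhds_zero)
    rw [add_zero] at h3
    refine h3.congr' ?_
    filter_upwards [eventually_gt_atTop 0] with x hx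
    rw [Real.log_mul (by norm_num) hx.ne', add_div]
  have h3 := (h2.comp tlog).eventually_lt_const (show (0 : ℝ) < γ / 2 by positivity)
  filter_upwards [h1, h3, tlog.eventually_ge_atTop 1] with k h1 h3 h4 t ht
  simp only [Function.comp_apply] at h1 h3
  have h5 : t ≤ ⌊2 * Real.log k⌋₊ := Nat.le_floor ht
  refine (Vinv_anti _ _ h5).trans ?_
  set n := ⌊2 * Real.log k⌋₊ with hn
  have h6 : (n : ℝ) ≤ 2 * Real.log k := Nat.floor_le (by linarith)
  have h7 : Real.log n ≤ Real.log (2 * Real.log k) := by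
    rcases Nat.eq_zero_or_pos n with h | h
    · rw [h, Nat.cast_zero, Real.log_zero]
      exact Real.log_nonneg (by linarith)
    · exact Real.log_le_log (by exact_mod_cast h) h6
  have hp : 0 < Real.log k ^ s := by positivity
  rw [div_lt_iff₀ hp] at h3
  have hV := V_pos n
  rw [inv_le_iff_one_le_mul₀ hV]
  have h8 : γ / 2 < V n * (γ / 2 * Real.log k ^ s) :=
    h1.trans_le (mul_le_mul_of_nonneg_left (h7.trans h3.le) hV.le)
  have h9 : γ / 2 * 1 < γ / 2 * (Real.log k ^ s * V n) := by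
    calc γ / 2 * 1 = γ / 2 := mul_one _
      _ < V n * (γ / 2 * Real.log k ^ s) := h8
      _ = _ := by ring
  exact (lt_of_mul_lt_mul_left h9 (by positivity)).le

/-- **Fundamental lemma**, restated. -/
theorem fl1 (ε : ℝ) (hε : 0 < ε) : ∃ B : ℕ, ∃ K : ℝ, 0 < K ∧ ∀ T k y : ℕ,
    |(((Ioc k (k + y)).filter (Rg T)).card : ℝ) - V T * y| ≤ ε * (V T * y) + K * ((T : ℝ) + 1) ^ B := by
  obtain ⟨C0, hC0, hfl⟩ := fl_main
  obtain ⟨n, hn⟩ := exists_pow_lt_of_lt_one hε (show (1 / 2 : ℝ) < 1 by norm_num)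
  obtain ⟨K, hK0, hK⟩ := hfl (max n C0) (le_max_right _ _)
  refine ⟨4 * C0 * (max n C0) + 1, K, hK0, fun T k y => ?_⟩
  have hb : (1 / 2 : ℝ) ^ (max n C0) ≤ ε :=
    (pow_le_pow_of_le_one (by norm_num) (by norm_num) (le_max_left _ _)).trans hn.le
  have hT1 : ∀ T : ℕ, 1 ≤ T → |(((Ioc k (k + y)).filter (Rg T)).card : ℝ) - V T * y| ≤
      ε * (V T * y) + K * (T : ℝ) ^ (4 * C0 * (max n C0) + 1) := by
    intro T hT
    have hV := V_pos T
    have h := hK T k y hT
    have h2 : (1 / 2 : ℝ) ^ (max n C0) * (V T * y) ≤ ε * (V T * y) := by gcongr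
    linarith
  rcases Nat.eq_zero_or_pos T with h | h
  · subst h
    have h1 := hT1 1 le_rfl
    have e1 : V 1 = V 0 := by
      unfold V
      congr 1
    have e2 : (Ioc k (k + y)).filter (Rg 1) = (Ioc k (k + y)).filter (Rg 0) := by
      refine filter_congr fun n _ => ?_
      constructor
      · intro h p hp hpp
        exact absurd hpp.two_le (by omega)
      · intro h p hp hpp
        exact absurd hpp.two_le (by omega)
    rw [e1, e2] at h1
    simpa using h1
  · refine (hT1 T h).trans ?_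
    gcongr
    linarith

/-- the level sets of a nondecreasing function are intervals -/
theorem level (T : ℕ → ℕ) (hT : Monotone T) (k m t : ℕ) :
    ∃ a l, (Ioc k (k + m)).filter (fun j => T j = t) = Ioc a (a + l) := by
  set s := (Ioc k (k + m)).filter (fun j => T j = t) with hs
  rcases s.eq_empty_or_nonempty with h | h
  · exact ⟨0, 0, by rw [h]; rfl⟩
  · have h1 := s.min'_mem h
    have h2 := s.max'_mem h
    have h12 := s.min'_le _ h2
    set a := s.min' h with ha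
    set b := s.max' h with hb
    have h1' := h1
    have h2' := h2
    rw [hs, mem_filter, mem_Ioc] at h1' h2'
    refine ⟨a - 1, b - (a - 1), ?_⟩
    ext j
    rw [mem_Ioc]
    constructor
    · intro hj
      have h3 := s.min'_le j hj
      have h4 := s.le_max' j hj
      rw [← ha] at h3
      rw [← hb] at h4
      omega
    · rintro ⟨h3, h4⟩
      have h5 : a ≤ j := by omega
      have h6 : j ≤ b := by omega
      rw [hs, mem_filter, mem_Ioc]
      refine ⟨⟨by omega, by omega⟩, ?_⟩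
      have h7 := hT h5
      have h8 := hT h6
      omega

/-- the total mass of an interval is at least the expected one -/
theorem sumlow (ε : ℝ) (hε : 0 < ε) : ∃ B : ℕ, ∃ K : ℝ, 0 < K ∧ ∀ T : ℕ → ℕ, Monotone T → ∀ k m : ℕ,
    (1 - ε) * m - K * ((T (k + m) : ℝ) + 1) ^ B * (V (T (k + m)))⁻¹ ≤
      ∑ j ∈ Ioc k (k + m), (if Rg (T j) j then (V (T j))⁻¹ else 0) := by
  obtain ⟨B, K, hK, hfl⟩ := fl1 ε hε
  refine ⟨B + 1, K, hK, fun T hT k m => ?_⟩
  set T' := T (k + m) with hT'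
  have hmaps : ∀ j ∈ Ioc k (k + m), T j ∈ range (T' + 1) := by
    intro j hj
    rw [mem_Ioc] at hj
    rw [mem_range]
    have := hT hj.2
    omega
  rw [← sum_fiberwise_of_maps_to hmaps]
  have hcard := card_eq_sum_card_fiberwise hmaps
  rw [Nat.card_Ioc] at hcard
  have e : k + m - k = m := by omega
  rw [e] at hcard
  have hterm : ∀ t ∈ range (T' + 1), (1 - ε) * (((Ioc k (k + m)).filter (fun j => T j = t)).card : ℝ) -
      K * ((T' : ℝ) + 1) ^ B * (V T')⁻¹ ≤
      ∑ j ∈ (Ioc k (k + m)).filter (fun j => T j = t), (if Rg (T j) j then (V (T j))⁻¹ else 0) := by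
    intro t ht
    rw [mem_range] at ht
    have e1 : ∑ j ∈ (Ioc k (k + m)).filter (fun j => T j = t), (if Rg (T j) j then (V (T j))⁻¹ else 0) =
        ∑ j ∈ (Ioc k (k + m)).filter (fun j => T j = t), (if Rg t j then (V t)⁻¹ else 0) := by
      refine sum_congr rfl fun j hj => ?_
      rw [mem_filter] at hj
      rw [hj.2]
    rw [e1, ← sum_filter, sum_const, nsmul_eq_mul]
    obtain ⟨a, l, hal⟩ := level T hT k m t
    rw [hal]
    have h1 := hfl t a l
    have hV := V_pos t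
    rw [Nat.card_Ioc]
    have e2 : a + l - a = l := by omega
    rw [e2]
    rw [abs_le] at h1
    have h2 : (1 - ε) * (V t * l) - K * ((t : ℝ) + 1) ^ B ≤ (((Ioc a (a + l)).filter (Rg t)).card : ℝ) := by
      linarith [h1.1]
    have h3 := mul_le_mul_of_nonneg_right h2 (inv_nonneg.2 hV.le)
    refine le_trans ?_ h3
    have h4 : ((1 - ε) * (V t * l) - K * ((t : ℝ) + 1) ^ B) * (V t)⁻¹ =
        (1 - ε) * l - K * ((t : ℝ) + 1) ^ B * (V t)⁻¹ := by
      field_simp
    rw [h4]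
    have h5 : (V t)⁻¹ ≤ (V T')⁻¹ := Vinv_anti _ _ (by omega)
    have h6 : (t : ℝ) ≤ T' := by exact_mod_cast (by omega : t ≤ T')
    have h7 : K * ((t : ℝ) + 1) ^ B * (V t)⁻¹ ≤ K * ((T' : ℝ) + 1) ^ B * (V T')⁻¹ := by
      have := V_pos T'
      gcongr
    linarith
  refine le_trans ?_ (sum_le_sum hterm)
  rw [sum_sub_distrib, ← mul_sum, sum_const, card_range, nsmul_eq_mul]
  have h8 : (m : ℝ) = ∑ t ∈ range (T' + 1), (((Ioc k (k + m)).filter (fun j => T j = t)).card : ℝ) := by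
    exact_mod_cast hcard
  rw [← h8]
  push_cast
  refine le_of_eq ?_
  ring

section model

variable (T : ℕ → ℕ) (hT : Monotone T) (hTl : Tendsto (fun k : ℕ => (T k : ℝ) / Real.log k) atTop (𝓝 0))

theorem t2 : Tendsto (fun k : ℕ => 2 * k) atTop atTop :=
  tendsto_id.const_mul_atTop' (by norm_num)

theorem log2k : ∀ᶠ k : ℕ in atTop, Real.log ((2 * k : ℕ) : ℝ) ≤ 2 * Real.log k := by
  filter_upwards [eventually_ge_atTop 2] with k hk
  have hk2 : (2 : ℝ) ≤ k := by exact_mod_cast hk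
  push_cast
  rw [Real.log_mul (by norm_num) (by linarith)]
  have := Real.log_le_log (by norm_num) hk2
  linarith

include hTl in
theorem T_small (ε : ℝ) (hε : 0 < ε) : ∀ᶠ k : ℕ in atTop, (T (2 * k) : ℝ) ≤ ε * Real.log k := by
  have h1 := (hTl.comp t2).eventually_lt_const (show (0 : ℝ) < ε / 2 by positivity)
  filter_upwards [h1, log2k, tlog.eventually_ge_atTop 1] with k h1 h2 h3
  simp only [Function.comp_apply] at h1
  have h4 : 0 < Real.log ((2 * k : ℕ) : ℝ) := by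
    have : Real.log k ≤ Real.log ((2 * k : ℕ) : ℝ) := by
      rcases Nat.eq_zero_or_pos k with h | h
      · simp [h]
      · refine Real.log_le_log (by exact_mod_cast h) (by exact_mod_cast (by omega : k ≤ 2 * k))
    linarith
  rw [div_lt_iff₀ h4] at h1
  nlinarith

/-- the model probabilities are eventually given by the formula -/
theorem q_formula (k j : ℕ) (hk : 3 ≤ k) (hkj : k ≤ j) (hlk : 1 ≤ Real.log k)
    (hV : (V (T j))⁻¹ ≤ Real.log k ^ (1 / 2 : ℝ)) :
    q T j = (if Rg (T j) j then (V (T j))⁻¹ else 0) / Real.log j ∧ q T j ≤ Real.log k ^ (-(1 / 2) : ℝ) := by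
  have hj : Real.log k ≤ Real.log j := Real.log_le_log (by exact_mod_cast (by omega : 0 < k)) (by exact_mod_cast hkj)
  have hVp := V_pos (T j)
  have h1 : 1 / (V (T j) * Real.log j) ≤ Real.log k ^ (-(1 / 2) : ℝ) := by
    have e : 1 / (V (T j) * Real.log j) = (V (T j))⁻¹ / Real.log j := by
      field_simp
    rw [e]
    calc (V (T j))⁻¹ / Real.log j ≤ Real.log k ^ (1 / 2 : ℝ) / Real.log k := by gcongr
      _ = Real.log k ^ (-(1 / 2) : ℝ) := by
        rw [← Real.rpow_sub_one (by linarith)]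
        norm_num
  have h2 : Real.log k ^ (-(1 / 2) : ℝ) ≤ 1 := Real.rpow_le_one_of_one_le_of_nonpos hlk (by norm_num)
  have h3 : 0 ≤ Real.log k ^ (-(1 / 2) : ℝ) := by positivity
  unfold q
  by_cases h : Rg (T j) j
  · rw [if_pos ⟨by omega, h⟩, if_pos h, min_eq_right (h1.trans h2)]
    refine ⟨?_, h1⟩
    field_simp
  · rw [if_neg (fun h' => h h'.2), if_neg h, zero_div]
    exact ⟨rfl, h3⟩

include hT hTl in
/-- all the facts for large `k` -/
theorem q_ev : ∀ᶠ k : ℕ in atTop, ∀ j, k ≤ j → j ≤ 2 * k →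
    q T j = (if Rg (T j) j then (V (T j))⁻¹ else 0) / Real.log j ∧ q T j ≤ Real.log k ^ (-(1 / 2) : ℝ) := by
  filter_upwards [T_small T hTl 2 (by norm_num), Vinv (1 / 2) (by norm_num), eventually_ge_atTop 3,
    tlog.eventually_ge_atTop 1] with k h1 h2 h3 h4 j hj hj'
  refine q_formula T k j h3 hj h4 (h2 _ ?_)
  have h5 : (T j : ℝ) ≤ T (2 * k) := by exact_mod_cast hT hj'
  linarith

include hT hTl in
theorem qsum (ε : ℝ) (hε : 0 < ε) : ∃ B : ℕ, ∃ K : ℝ, 0 < K ∧ ∀ᶠ k : ℕ in atTop, ∀ m ≤ k,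
    ((1 - ε) * m - K * ((T (k + m) : ℝ) + 1) ^ B * (V (T (k + m)))⁻¹) / Real.log ((2 * k : ℕ) : ℝ) ≤
      ∑ j ∈ Ioc k (k + m), q T j := by
  obtain ⟨B, K, hK, h⟩ := sumlow ε hε
  refine ⟨B, K, hK, ?_⟩
  filter_upwards [q_ev T hT hTl, eventually_ge_atTop 3] with k hk hk3 m hm
  have h1 := h T hT k m
  have hl : 0 < Real.log ((2 * k : ℕ) : ℝ) := Real.log_pos (by exact_mod_cast (by omega : 1 < 2 * k))
  rw [div_le_iff₀ hl]
  refine h1.trans ?_
  rw [sum_mul]
  refine sum_le_sum fun j hj => ?_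
  rw [mem_Ioc] at hj
  rw [(hk j hj.1.le (by omega)).1]
  have h2 : 0 < Real.log j := Real.log_pos (by exact_mod_cast (by omega : 1 < j))
  have h3 : Real.log j ≤ Real.log ((2 * k : ℕ) : ℝ) :=
    Real.log_le_log (by exact_mod_cast (by omega : 0 < j)) (by exact_mod_cast (by omega : j ≤ 2 * k))
  have h4 : 0 ≤ (if Rg (T j) j then (V (T j))⁻¹ else 0) := by
    have := V_pos (T j)
    split_ifs <;> positivity
  rw [div_mul_eq_mul_div, le_div_iff₀ h2]
  exact mul_le_mul_of_nonneg_left h3 h4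

/-- powers of `log k` are smaller than `k` -/
theorem log_pow_small (B : ℕ) (C ε : ℝ) (hε : 0 < ε) : ∀ᶠ k : ℕ in atTop, C * Real.log k ^ B ≤ ε * (k : ℝ) ^ ε := by
  have h1 : Tendsto (fun x : ℝ => C * (Real.log x ^ B / x ^ ε)) atTop (𝓝 (C * 0)) := by
    refine Tendsto.const_mul C ?_
    have := (isLittleO_log_rpow_rpow_atTop (s := ε) (B : ℝ) hε).tendsto_div_nhds_zero
    refine this.congr fun x => ?_
    rw [Real.rpow_natCast]
  rw [mul_zero] at h1
  have h2 := (h1.comp tendsto_natCast_atTop_atTop).eventually_lt_const hε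
  filter_upwards [h2, eventually_ge_atTop 1] with k h2 h3
  simp only [Function.comp_apply] at h2
  have hk : (0 : ℝ) < (k : ℝ) ^ ε := by
    have : (0 : ℝ) < k := by exact_mod_cast h3
    positivity
  rw [← mul_div_assoc, div_lt_iff₀ hk] at h2
  exact h2.le

include hT hTl in
theorem qsum_infinite : Tendsto (fun k => ∑ j ∈ Ioc k (k + k), q T j) atTop atTop := by
  obtain ⟨B, K, hK, h⟩ := qsum T hT hTl (1 / 2) (by norm_num)
  have h0 : Tendsto (fun k : ℕ => (k : ℝ) ^ (1 / 2 : ℝ)) atTop atTop :=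
    (tendsto_rpow_atTop (by norm_num)).comp tendsto_natCast_atTop_atTop
  refine tendsto_atTop_mono' _ ?_ (h0.const_mul_atTop (show (0 : ℝ) < 1 / 4 by norm_num))
  filter_upwards [h, T_small T hTl 1 one_pos, Vinv 1 one_pos, tlog.eventually_ge_atTop 1, log2k,
    log_pow_small (B + 1) (K * 2 ^ B) 1 one_pos, log_pow_small (B + 1) (K * 2 ^ B) (1 / 4) (by norm_num),
    log_pow_small 1 1 (1 / 2) (by norm_num), eventually_ge_atTop 1, h0.eventually_ge_atTop 8] with
    k h1 h2 h3 h4 h5 h6 h7 h8 h9 h10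
  refine le_trans ?_ (h1 k le_rfl)
  have e : k + k = 2 * k := by ring
  rw [e]
  have hk1 : (1 : ℝ) ≤ k := by exact_mod_cast h9
  have hk0 : (0 : ℝ) < k := by linarith
  have hl : 0 < Real.log ((2 * k : ℕ) : ℝ) := by
    have : Real.log k ≤ Real.log ((2 * k : ℕ) : ℝ) :=
      Real.log_le_log hk0 (by exact_mod_cast (by omega : k ≤ 2 * k))
    linarith
  have h11 := h3 (T (2 * k)) (by linarith)
  rw [Real.rpow_one] at h11
  have hVp := V_pos (T (2 * k))
  have h12 : K * ((T (2 * k) : ℝ) + 1) ^ B * (V (T (2 * k)))⁻¹ ≤ 1 / 4 * k := by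
    calc K * ((T (2 * k) : ℝ) + 1) ^ B * (V (T (2 * k)))⁻¹ ≤ K * (2 * Real.log k) ^ B * Real.log k := by
          gcongr
          linarith
      _ = K * 2 ^ B * Real.log k ^ (B + 1) := by ring
      _ ≤ 1 / 4 * (k : ℝ) ^ (1 / 4 : ℝ) := h7
      _ ≤ 1 / 4 * (k : ℝ) ^ (1 : ℝ) := by
          gcongr
          norm_num
      _ = 1 / 4 * k := by rw [Real.rpow_one]
  rw [le_div_iff₀ hl]
  rw [pow_one, one_mul] at h8
  have hsq : (k : ℝ) ^ (1 / 2 : ℝ) * (k : ℝ) ^ (1 / 2 : ℝ) = k := by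
    rw [← Real.rpow_add hk0]
    norm_num
  calc 1 / 4 * (k : ℝ) ^ (1 / 2 : ℝ) * Real.log ((2 * k : ℕ) : ℝ)
      ≤ 1 / 4 * (k : ℝ) ^ (1 / 2 : ℝ) * (2 * (1 / 2 * (k : ℝ) ^ (1 / 2 : ℝ))) := by
        gcongr
        linarith
    _ = 1 / 4 * ((k : ℝ) ^ (1 / 2 : ℝ) * (k : ℝ) ^ (1 / 2 : ℝ)) := by ring
    _ = 1 / 4 * k := by rw [hsq]
    _ ≤ (1 - 1 / 2) * k - K * ((T (2 * k) : ℝ) + 1) ^ B * (V (T (2 * k)))⁻¹ := by linarith

theorem prod_le (T : ℕ → ℕ) (z w : ℕ) : ∏ j ∈ Ioc z w, (1 - q T j) ≤ Real.exp (-∑ j ∈ Ioc z w, q T j) := by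
  rw [← sum_neg_distrib, Real.exp_sum]
  refine prod_le_prod (fun j _ => by linarith [q_le_one T j]) fun j _ => ?_
  have := Real.add_one_le_exp (-q T j)
  linarith

variable {Ω : Type*} [MeasurableSpace Ω] {P : Measure Ω}

include hT hTl in
theorem inf_A [IsProbabilityMeasure P] (A : ℕ → Set Ω) (hA : ∀ k, MeasurableSet (A k))
    (hind : iIndepSet A P) (hP : ∀ k, P.real (A k) = q T k) : ∀ᵐ ω ∂P, {k | ω ∈ A k}.Infinite := by
  have key : ∀ n : ℕ, ∀ᵐ ω ∂P, ∃ k, n < k ∧ ω ∈ A k := by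
    intro n
    rw [ae_iff]
    have h1 : Tendsto (fun k => Real.exp (-∑ j ∈ Ioc k (k + k), q T j)) atTop (𝓝 0) :=
      Real.tendsto_exp_atBot.comp (tendsto_neg_atTop_atBot.comp (qsum_infinite T hT hTl))
    have h2 : ∀ k, n ≤ k → P.real {ω | ¬ ∃ k, n < k ∧ ω ∈ A k} ≤ Real.exp (-∑ j ∈ Ioc k (k + k), q T j) := by
      intro k hk
      have h3 : {ω | ¬ ∃ k, n < k ∧ ω ∈ A k} ⊆ Em A k (k + k) := by
        intro ω hω
        unfold Em
        simp only [Set.mem_iInter, mem_Ioc, Set.mem_compl_iff]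
        intro j hj hj'
        exact hω ⟨j, by omega, hj'⟩
      refine (measureReal_mono h3).trans ?_
      rw [real_Em A hA hind]
      simp only [hP]
      exact prod_le T k (k + k)
    have h3 : P.real {ω | ¬ ∃ k, n < k ∧ ω ∈ A k} ≤ 0 :=
      ge_of_tendsto h1 (eventually_atTop.2 ⟨n, fun k hk => h2 k hk⟩)
    have h4 : P.real {ω | ¬ ∃ k, n < k ∧ ω ∈ A k} = 0 := le_antisymm h3 measureReal_nonneg
    rwa [measureReal_eq_zero_iff] at h4
  filter_upwards [ae_all_iff.2 key] with ω hω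
  rw [Set.infinite_iff_exists_gt]
  intro n
  obtain ⟨k, hk, hk'⟩ := hω n
  exact ⟨k, hk', hk⟩

end model

end Pool.Agent.T2H32.GM
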