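import Pool.Agent.T2H32.GM.Up
import Pool.Agent.T2H32.GM.Low
import Pool.Agent.T2H32.GM.Lim2

set_option autoImplicit false

/-! # Intervals with few rough numbers -/

open MeasureTheory ProbabilityTheory Filter Topology Finset
open scoped ENNReal
open Pool.Agent.T2H32.BF (V V_pos V_anti mertens)

namespace Pool.Agent.T2H32.GM

/-- there is an interval with at most `ρ` times the expected number of rough numbers -/
def Off (T : ℕ → ℕ) (c ρ : ℝ) (k : ℕ) : Prop :=
  ∀ t, T k ≤ t → t ≤ T (2 * k) → ∃ z : ℕ, (z : ℝ) ≤ (k : ℝ) ^ (1 / 2 : ℝ) ∧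
      (((Ioc z (z + yk c k)).filter (Rg t)).card : ℝ) ≤ ρ * (V t * yk c k)

theorem yk_ge (c : ℝ) (hc : 0 < c) (k : ℕ) (hk : 1 ≤ k) : c * Real.log k ^ 2 ≤ yk c k := by
  unfold yk
  refine le_trans ?_ (Nat.le_ceil _)
  have h1 : Real.log k ≤ Real.log ((2 * k : ℕ) : ℝ) :=
    Real.log_le_log (by exact_mod_cast hk) (by exact_mod_cast (by omega : k ≤ 2 * k))
  have h2 := Real.log_natCast_nonneg k
  gcongr

theorem avg (P : ℕ → Prop) [DecidablePred P] (y nb : ℕ) (h : 0 < nb) :
    ∃ i < nb, nb * ((Ioc (i * y) (i * y + y)).filter P).card ≤ ((Ioc 0 (nb * y)).filter P).card := by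
  have hsum : ∀ n, ∑ i ∈ range n, ((Ioc (i * y) (i * y + y)).filter P).card = ((Ioc 0 (n * y)).filter P).card := by
    intro n
    induction n with
    | zero => simp
    | succ n ih =>
      rw [sum_range_succ, ih, ← card_union_of_disjoint, ← filter_union]
      · congr 2
        ext j
        simp only [mem_union, mem_Ioc]
        have : (n + 1) * y = n * y + y := by ring
        omega
      · refine disjoint_filter_filter ?_
        rw [disjoint_left]
        intro j h1 h2
        rw [mem_Ioc] at h1 h2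
        omega
  by_contra hcon
  push Not at hcon
  have h1 : ∑ i ∈ range nb, ((Ioc 0 (nb * y)).filter P).card <
      ∑ i ∈ range nb, nb * ((Ioc (i * y) (i * y + y)).filter P).card :=
    sum_lt_sum_of_nonempty ⟨0, mem_range.2 h⟩ fun i hi => hcon i (mem_range.1 hi)
  rw [← mul_sum, hsum, sum_const, card_range, smul_eq_mul] at h1
  exact lt_irrefl _ h1

theorem om_nonneg (u : ℝ) (hu : 1 ≤ u) : 0 ≤ om u := by
  rcases eq_or_lt_of_le hu with h | h
  · have := om_small 1 le_rfl (by norm_num)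
    rw [← h]
    linarith
  · exact ge_of_tendsto' (conv u h) fun T => w_nonneg T u

theorem om_pos (u : ℝ) (hu : 1 ≤ u) : 0 < om u := by
  have h1 := om_rec u hu
  have h2 : 0 ≤ ∫ t in (1 : ℝ)..(max (u - 1) 1), om t :=
    intervalIntegral.integral_nonneg (le_max_right _ _) fun t ht => om_nonneg t ht.1
  have h3 : 0 < u * om u := by linarith
  exact (mul_pos_iff_of_pos_left (by linarith)).1 h3

section

variable (T : ℕ → ℕ) (hT : Monotone T) (hTl : Tendsto (fun k : ℕ => (T k : ℝ) / Real.log k) atTop (𝓝 0))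

include hTl in
theorem off1 (hlog : Tendsto (fun k : ℕ => Real.log (T k) / Real.log (Real.log k)) atTop (𝓝 0))
    (c ε : ℝ) (hc : 0 < c) (hε : 0 < ε) : ∀ᶠ k : ℕ in atTop, Off T c (1 + ε) k := by
  obtain ⟨B, K, hK, hfl⟩ := fl1 (ε / 2) (by positivity)
  filter_upwards [T_small T hTl 2 (by norm_num), Vinv (1 / 2) (by norm_num), Tpow T hlog B (1 / 2) (by norm_num),
    tlog.eventually_ge_atTop (max 1 (K / (ε / 2 * c))), eventually_ge_atTop 1] with k h2 h3 h4 h6 h7 t _ ht
  have hl1 : 1 ≤ Real.log k := (le_max_left _ _).trans h6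
  have hlK : K / (ε / 2 * c) ≤ Real.log k := (le_max_right _ _).trans h6
  rw [div_le_iff₀ (by positivity)] at hlK
  set lam := Real.log k with hlam
  refine ⟨0, by rw [Nat.cast_zero]; positivity, ?_⟩
  have h8 := hfl t 0 (yk c k)
  have hV := V_pos t
  have ht' : (t : ℝ) ≤ T (2 * k) := by exact_mod_cast ht
  have hVt := h3 t (ht'.trans h2)
  have hy := yk_ge c hc k h7
  rw [← hlam] at hy
  have h9 : K * ((t : ℝ) + 1) ^ B * (V t)⁻¹ ≤ ε / 2 * yk c k := by
    calc K * ((t : ℝ) + 1) ^ B * (V t)⁻¹ ≤ K * ((T (2 * k) : ℝ) + 1) ^ B * (V t)⁻¹ := by gcongr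
      _ ≤ K * lam ^ (1 / 2 : ℝ) * lam ^ (1 / 2 : ℝ) := by gcongr
      _ = K * lam := by
          rw [mul_assoc, ← Real.rpow_add (by linarith)]
          norm_num
      _ ≤ (lam * (ε / 2 * c)) * lam := by gcongr
      _ = ε / 2 * (c * lam ^ 2) := by ring
      _ ≤ _ := by gcongr
  have h10 : K * ((t : ℝ) + 1) ^ B ≤ ε / 2 * (V t * yk c k) := by
    have := mul_le_mul_of_nonneg_right h9 hV.le
    calc K * ((t : ℝ) + 1) ^ B = K * ((t : ℝ) + 1) ^ B * (V t)⁻¹ * V t := by field_simp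
      _ ≤ _ := this
      _ = _ := by ring
  rw [abs_le] at h8
  linarith [h8.2]

/-- the limit of the number of rough numbers -/
theorem Phi_upper (v ε : ℝ) (hv : 1 < v) (hε : 0 < ε) : ∀ᶠ t : ℕ in atTop,
    Phi t ((t : ℝ) ^ v) ≤ (1 + ε) * (Real.exp Real.eulerMascheroniConstant * om v) * (V t * (t : ℝ) ^ v) := by
  set γ := Real.exp (-Real.eulerMascheroniConstant) with hγ
  set E := Real.exp Real.eulerMascheroniConstant with hE
  have hE0 : 0 < E := Real.exp_pos _
  have hEγ : E * γ = 1 := by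
    rw [hE, hγ, ← Real.exp_add]
    simp
  have hom := om_pos v hv.le
  have h1 := ((mertens.const_mul ((1 + ε) * (E * om v))).sub (conv v hv))
  rw [← hγ] at h1
  have h2 : 0 < (1 + ε) * (E * om v) * γ - om v := by
    have : (1 + ε) * (E * om v) * γ = (1 + ε) * om v * (E * γ) := by ring
    rw [this, hEγ]
    nlinarith
  filter_upwards [h1.eventually_const_lt h2, eventually_ge_atTop 2] with t ht ht2
  have hTR : (2 : ℝ) ≤ t := by exact_mod_cast ht2
  have hlT : 0 < Real.log t := Real.log_pos (by linarith)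
  have hp : 0 < (t : ℝ) ^ v := by positivity
  unfold w at ht
  have h3 : Phi t ((t : ℝ) ^ v) * Real.log t / (t : ℝ) ^ v < (1 + ε) * (E * om v) * (V t * Real.log t) := by
    linarith
  rw [div_lt_iff₀ hp] at h3
  have h4 : Phi t ((t : ℝ) ^ v) * Real.log t < ((1 + ε) * (E * om v) * (V t * (t : ℝ) ^ v)) * Real.log t := by
    linarith
  exact (lt_of_mul_lt_mul_right h4 hlT.le).le

include hTl in
theorem off2 (θ v c ε : ℝ) (hθ : 0 < θ) (hv : 1 < v) (hθv : 2 < θ * v) (hc : 0 < c) (hε : 0 < ε) (hε1 : ε ≤ 1) :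
    ∀ᶠ k : ℕ in atTop, θ * Real.log (Real.log k) ≤ Real.log (T k) →
      Off T c ((1 + ε) * (Real.exp Real.eulerMascheroniConstant * om v)) k := by
  obtain ⟨t0, ht0⟩ := eventually_atTop.1 (Phi_upper v (ε / 3) hv (by positivity))
  have hE0 : 0 < Real.exp Real.eulerMascheroniConstant := Real.exp_pos _
  set E := Real.exp Real.eulerMascheroniConstant with hE
  have hom := om_pos v hv.le
  have h1 : Tendsto (fun k : ℕ => Real.log k ^ θ) atTop atTop := (tendsto_rpow_atTop hθ).comp tlog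
  have h2 : Tendsto (fun k : ℕ => Real.log k ^ (θ * v - 2)) atTop atTop :=
    (tendsto_rpow_atTop (by linarith)).comp tlog
  have h3 : Tendsto (fun k : ℕ => Real.log k ^ v / (k : ℝ) ^ (1 / 2 : ℝ)) atTop (𝓝 0) :=
    ((isLittleO_log_rpow_rpow_atTop v (by norm_num : (0 : ℝ) < 1 / 2)).tendsto_div_nhds_zero).comp
      tendsto_natCast_atTop_atTop
  filter_upwards [h1.eventually_ge_atTop ((t0 : ℝ) + 1), h2.eventually_ge_atTop (16 * c / ε),
    h3.eventually_lt_const (show (0 : ℝ) < 1 by norm_num), T_small T hTl 1 one_pos, tlog.eventually_ge_atTop 1,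
    yk_le c 1 hc one_pos, (h2.eventually_ge_atTop 1), eventually_ge_atTop 2,
    tlog.eventually_ge_atTop (1 / c)] with k g1 g2 g3 g4 g5 g6 g7 g8 g9 hk t ht1 ht2
  set lam := Real.log k with hlam
  have hlam0 : 0 < lam := by linarith
  obtain ⟨y, hy⟩ : ∃ y, y = yk c k := ⟨_, rfl⟩
  have hyge := yk_ge c hc k (by omega)
  rw [← hy] at g6 hyge ⊢
  rw [← hlam] at hyge
  -- `t` is large
  have hTk0 : 0 < T k := by
    by_contra h
    have h0 : T k = 0 := by omega
    rw [h0, Nat.cast_zero, Real.log_zero] at hk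
    have h5 : lam ^ θ ≤ 1 := by
      rw [Real.rpow_def_of_pos hlam0]
      rw [← Real.exp_zero]
      exact Real.exp_le_exp.2 (by linarith)
    have h6 : (0 : ℝ) ≤ t0 := Nat.cast_nonneg _
    have h7 : (t0 : ℝ) = 0 := by linarith
    -- `lam = 1`, impossible for large powers; use the second bound
    have h8 : lam ≤ 1 := by
      by_contra h9
      push Not at h9
      have : 0 < Real.log lam := Real.log_pos h9
      nlinarith
    have h9 : lam = 1 := le_antisymm h8 g5
    have h10 := g2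
    rw [h9, Real.one_rpow, div_le_iff₀ hε] at h10
    rw [h9, div_le_iff₀ hc] at g9
    linarith
  have hTk : lam ^ θ ≤ T k := by
    have hT0 : (0 : ℝ) < T k := by exact_mod_cast hTk0
    rw [← Real.exp_log hT0, Real.rpow_def_of_pos hlam0]
    apply Real.exp_le_exp.2
    linarith
  have htR : lam ^ θ ≤ t := hTk.trans (by exact_mod_cast ht1)
  have htt0 : t0 ≤ t := by
    have : (t0 : ℝ) ≤ t := by linarith
    exact_mod_cast this
  have ht0' : (0 : ℝ) < t := by
    have h6 : (0 : ℝ) ≤ t0 := Nat.cast_nonneg _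
    linarith
  obtain ⟨x, hx⟩ : ∃ x : ℝ, x = (t : ℝ) ^ v := ⟨_, rfl⟩
  have hPhi := ht0 t htt0
  rw [← hx] at hPhi
  have hV := V_pos t
  -- `x` is much larger than `y`
  have hxy : 8 / ε * y ≤ x := by
    have h5 : lam ^ (θ * v) ≤ x := by
      rw [hx, Real.rpow_mul hlam0.le]
      exact Real.rpow_le_rpow (by positivity) htR (by linarith)
    have h6 : lam ^ (θ * v) = lam ^ (θ * v - 2) * lam ^ 2 := by
      rw [← Real.rpow_natCast lam 2, ← Real.rpow_add hlam0]
      congr 1
      push_cast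
      ring
    calc 8 / ε * y ≤ 8 / ε * ((1 + 1) * c * lam ^ 2) := by gcongr
      _ = 16 * c / ε * lam ^ 2 := by ring
      _ ≤ lam ^ (θ * v - 2) * lam ^ 2 := by gcongr
      _ = lam ^ (θ * v) := h6.symm
      _ ≤ x := h5
  have hxk : x ≤ (k : ℝ) ^ (1 / 2 : ℝ) := by
    have hk0 : (0 : ℝ) < k := by exact_mod_cast (by omega : 0 < k)
    rw [div_lt_iff₀ (by positivity), one_mul] at g3
    have h5 : (t : ℝ) ≤ lam := by
      have : (t : ℝ) ≤ T (2 * k) := by exact_mod_cast ht2
      linarith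
    rw [hx]
    exact (Real.rpow_le_rpow ht0'.le h5 (by linarith)).trans g3.le
  have hy1 : (1 : ℝ) ≤ y := by
    refine le_trans ?_ hyge
    rw [div_le_iff₀ hc] at g9
    nlinarith
  have hy1' : 1 ≤ y := by exact_mod_cast hy1
  have hx0 : 0 < x := by
    rw [hx]
    positivity
  obtain ⟨nb, hnb⟩ : ∃ nb, nb = ⌊x⌋₊ / y := ⟨_, rfl⟩
  have hnby : nb * y ≤ ⌊x⌋₊ := by
    rw [hnb]
    exact Nat.div_mul_le_self _ _
  have hnby2 : ⌊x⌋₊ < nb * y + y := by
    rw [hnb]
    have := Nat.lt_div_mul_add (a := ⌊x⌋₊) (b := y) (by omega)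
    linarith
  have hxN := Nat.lt_floor_add_one x
  have hNx := Nat.floor_le hx0.le
  have hnyR : x - 2 * y ≤ (nb : ℝ) * y := by
    have h5 : (⌊x⌋₊ : ℝ) < nb * y + y := by exact_mod_cast hnby2
    linarith
  have hx8 : 8 * y ≤ ε * x := by
    have := mul_le_mul_of_nonneg_left hxy hε.le
    calc 8 * (y : ℝ) = ε * (8 / ε * y) := by field_simp
      _ ≤ _ := this
  have hx2 : x ≤ (1 + ε / 3) * (nb * y) := by
    have h5 : x ≤ (1 + ε / 3) * (x - 2 * y) := by
      have : (1 + ε / 3) * (x - 2 * y) = x + ε / 3 * x - (2 + 2 / 3 * ε) * y := by ring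
      rw [this]
      nlinarith
    refine h5.trans ?_
    gcongr
  have hnb0 : 0 < nb := by
    rcases Nat.eq_zero_or_pos nb with h | h
    · rw [h] at hx2
      simp only [Nat.cast_zero, zero_mul, mul_zero] at hx2
      linarith
    · exact h
  obtain ⟨i, hi, hi2⟩ := avg (Rg t) y nb hnb0
  refine ⟨i * y, ?_, ?_⟩
  · have h5 : i * y ≤ nb * y := Nat.mul_le_mul_right _ hi.le
    have h6 : ((i * y : ℕ) : ℝ) ≤ ⌊x⌋₊ := by exact_mod_cast h5.trans hnby
    linarith
  · have h5 : ((Ioc 0 (nb * y)).filter (Rg t)).card ≤ ((Ioc 0 (0 + ⌊x⌋₊)).filter (Rg t)).card := by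
      refine card_le_card (filter_subset_filter _ ?_)
      intro j hj
      rw [mem_Ioc] at hj ⊢
      omega
    have h6 : (nb : ℝ) * (((Ioc (i * y) (i * y + y)).filter (Rg t)).card : ℝ) ≤ Phi t x := by
      rw [Phi_eq]
      exact_mod_cast hi2.trans h5
    have hnbR : (0 : ℝ) < nb := by exact_mod_cast hnb0
    have h7 : (nb : ℝ) * (((Ioc (i * y) (i * y + y)).filter (Rg t)).card : ℝ) ≤
        nb * ((1 + ε) * (E * om v) * (V t * y)) := by
      calc (nb : ℝ) * (((Ioc (i * y) (i * y + y)).filter (Rg t)).card : ℝ) ≤ Phi t x := h6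
        _ ≤ (1 + ε / 3) * (E * om v) * (V t * x) := hPhi
        _ ≤ (1 + ε / 3) * (E * om v) * (V t * ((1 + ε / 3) * (nb * y))) := by gcongr
        _ = ((1 + ε / 3) ^ 2) * (nb * ((E * om v) * (V t * y))) := by ring
        _ ≤ (1 + ε) * (nb * ((E * om v) * (V t * y))) := by
          gcongr
          nlinarith
        _ = _ := by ring
    exact le_of_mul_le_mul_left h7 hnbR

end

end Pool.Agent.T2H32.GM
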