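import Pool.Agent.T2H32.CM.Nth

set_option autoImplicit false

/-! # Empty blocks of independent events -/

open MeasureTheory ProbabilityTheory Filter Topology Finset
open scoped ENNReal
open Pool.Agent.T2H32.CM (S mS memLp_S integral_S var_S_le p g p_strictMono p_mem exists_p)

namespace Pool.Agent.T2H32.GM

variable {Ω : Type*}

/-- no random prime in `(z, w]` -/
def Em (A : ℕ → Set Ω) (z w : ℕ) : Set Ω := ⋂ j ∈ Ioc z w, (A j)ᶜ

/-- no random prime in `(z, z + y]`, some in `(z, z + R]` -/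
def Bk (A : ℕ → Set Ω) (z y R : ℕ) : Set Ω := Em A z (z + y) \ Em A z (z + R)

/-- the number of `n` with `p n ≤ x` and `g n ≥ c log² p n` -/
noncomputable def N (A : ℕ → Set Ω) (c : ℝ) (x : ℕ) (ω : Ω) : ℕ :=
  {n | c * Real.log (p A ω n) ^ 2 ≤ g A ω n ∧ p A ω n ≤ x}.ncard

section count

variable (A : ℕ → Set Ω) (ω : Ω) (hinf : {k | ω ∈ A k}.Infinite)
include hinf

theorem N_fin (c : ℝ) (x : ℕ) : {n | c * Real.log (p A ω n) ^ 2 ≤ g A ω n ∧ p A ω n ≤ x}.Finite := by
  refine (Set.finite_Iic x).subset fun n hn => ?_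
  exact ((p_strictMono A ω hinf).id_le n).trans hn.2

theorem N_mono (c c' : ℝ) (hc : c ≤ c') (x x' : ℕ) (hx : x ≤ x') : N A c' x ω ≤ N A c x' ω := by
  unfold N
  refine Set.ncard_le_ncard ?_ (N_fin A ω hinf c x')
  rintro n ⟨h1, h2⟩
  refine ⟨le_trans ?_ h1, h2.trans hx⟩
  gcongr

open Classical in
/-- **Counting the gaps.** -/
theorem blk_count (z0 y R n X : ℕ) (hR : 1 ≤ R) (hX : z0 + n * R ≤ X) (c : ℝ) (hc : 0 < c)
    (hcy : c * Real.log X ^ 2 ≤ y) :
    ((range n).filter (fun i => ω ∈ Bk A (z0 + i * R) y R)).card ≤ N A c X ω + 1 := by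
  set B := (range n).filter (fun i => ω ∈ Bk A (z0 + i * R) y R) with hB
  rcases B.eq_empty_or_nonempty with h0 | h0
  · rw [h0]
    simp
  set i1 := B.min' h0 with hi1'
  have hSI : ∀ i ∈ B, i < n ∧ ω ∈ Bk A (z0 + i * R) y R := fun i hi => by
    have := mem_filter.1 hi
    exact ⟨mem_range.1 this.1, this.2⟩
  set cn : ℕ → ℕ := fun i => Nat.count (fun k => ω ∈ A k) (z0 + i * R + 1) with hcn
  have hempty : ∀ i ∈ B, ∀ u, z0 + i * R < u → u ≤ z0 + i * R + y → ω ∉ A u := by
    intro i hi u hu hu'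
    have h1 := (hSI i hi).2.1
    unfold Em at h1
    simp only [Set.mem_iInter, mem_Ioc] at h1
    exact h1 u ⟨hu, hu'⟩
  have hnext : ∀ i ∈ B, ∃ u, ω ∈ A u ∧ z0 + i * R + y < u ∧ u ≤ z0 + i * R + R := by
    intro i hi
    have h1 := (hSI i hi).2.2
    unfold Em at h1
    simp only [Set.mem_iInter, mem_Ioc, not_forall, Set.mem_compl_iff, not_not] at h1
    obtain ⟨u, hu, hu'⟩ := h1
    refine ⟨u, hu', ?_, hu.2⟩
    by_contra hcon
    push Not at hcon
    exact hempty i hi u hu.1 hcon hu'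
  -- strictly increasing
  have hmono : ∀ i ∈ B, ∀ j, i < j → cn i < cn j := by
    intro i hi j hij
    obtain ⟨u, huR, hu1, hu2⟩ := hnext i hi
    have h1 : z0 + i * R + R ≤ z0 + j * R := by
      have : (i + 1) * R ≤ j * R := Nat.mul_le_mul_right _ hij
      nlinarith
    calc cn i ≤ Nat.count (fun k => ω ∈ A k) u := Nat.count_monotone _ (by omega)
      _ < cn j := Nat.count_strict_mono huR (by omega)
  have hcard : (B.erase i1).card + 1 = B.card := card_erase_add_one (B.min'_mem h0)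
  have hle : (B.erase i1).card ≤ N A c X ω := by
    have hinj : Set.InjOn (fun i => cn i - 1) (B.erase i1 : Finset ℕ) := by
      intro i hi j hj hij
      have hi' := mem_erase.1 (mem_coe.1 hi)
      have hj' := mem_erase.1 (mem_coe.1 hj)
      have h1 : i1 < i := lt_of_le_of_ne (B.min'_le i hi'.2) (Ne.symm hi'.1)
      have h2 : i1 < j := lt_of_le_of_ne (B.min'_le j hj'.2) (Ne.symm hj'.1)
      have h3 := hmono i1 (B.min'_mem h0) i h1
      have h4 := hmono i1 (B.min'_mem h0) j h2
      simp only at hij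
      by_contra hne
      rcases lt_or_gt_of_ne hne with h5 | h5
      · have := hmono i hi'.2 j h5
        omega
      · have := hmono j hj'.2 i h5
        omega
    rw [← card_image_of_injOn hinj]
    unfold N
    rw [← Set.ncard_coe_finset]
    refine Set.ncard_le_ncard ?_ (N_fin A ω hinf c X)
    intro k hk
    rw [coe_image] at hk
    obtain ⟨i, hi, rfl⟩ := hk
    have hi' := mem_erase.1 (mem_coe.1 hi)
    have h1 : i1 < i := lt_of_le_of_ne (B.min'_le i hi'.2) (Ne.symm hi'.1)
    have h3 := hmono i1 (B.min'_mem h0) i h1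
    simp only
    have hI := hSI i hi'.2
    have hp2 : z0 + i * R + R ≤ X := by
      have : (i + 1) * R ≤ n * R := Nat.mul_le_mul_right _ hI.1
      nlinarith
    have e1 : cn i - 1 + 1 = cn i := by omega
    have h4 : p A ω (cn i - 1) < z0 + i * R + 1 := by
      unfold p
      refine Nat.nth_lt_of_lt_count ?_
      show cn i - 1 < cn i
      omega
    have h5 : z0 + i * R + 1 ≤ p A ω (cn i) :=
      Nat.le_nth_count (p := fun k => ω ∈ A k) hinf (z0 + i * R + 1)
    have h6 : ω ∈ A (p A ω (cn i)) := Nat.nth_mem_of_infinite hinf _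
    have h7 : z0 + i * R + y < p A ω (cn i) := by
      by_contra hcon
      push Not at hcon
      exact hempty i hi'.2 _ (by omega) hcon h6
    refine ⟨?_, by omega⟩
    unfold g
    rw [e1]
    have h8 : (p A ω (cn i - 1) : ℝ) ≤ ((z0 + i * R : ℕ) : ℝ) := by
      exact_mod_cast (by omega : p A ω (cn i - 1) ≤ z0 + i * R)
    have h9 : ((z0 + i * R : ℕ) : ℝ) + y + 1 ≤ p A ω (cn i) := by exact_mod_cast h7
    have h11 : Real.log (p A ω (cn i - 1)) ≤ Real.log X := by
      rcases Nat.eq_zero_or_pos (p A ω (cn i - 1)) with h | h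
      · rw [h]
        simp only [Nat.cast_zero, Real.log_zero]
        exact Real.log_natCast_nonneg X
      · refine Real.log_le_log ?_ ?_
        · exact_mod_cast h
        · exact_mod_cast (by omega : p A ω (cn i - 1) ≤ X)
    have h12 : 0 ≤ Real.log (p A ω (cn i - 1)) := Real.log_natCast_nonneg _
    have h13 : c * Real.log (p A ω (cn i - 1)) ^ 2 ≤ c * Real.log X ^ 2 := by gcongr
    linarith
  omega

end count

variable [MeasurableSpace Ω] {P : Measure Ω}

theorem measurable_Em (A : ℕ → Set Ω) (hA : ∀ k, MeasurableSet (A k)) (z w : ℕ) : MeasurableSet (Em A z w) :=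
  Finset.measurableSet_biInter _ fun j _ => (hA j).compl

theorem measurable_Bk (A : ℕ → Set Ω) (hA : ∀ k, MeasurableSet (A k)) (z y R : ℕ) : MeasurableSet (Bk A z y R) :=
  (measurable_Em A hA _ _).diff (measurable_Em A hA _ _)

theorem real_Em [IsProbabilityMeasure P] (A : ℕ → Set Ω) (hA : ∀ k, MeasurableSet (A k))
    (hind : iIndepSet A P) (z w : ℕ) : P.real (Em A z w) = ∏ j ∈ Ioc z w, (1 - P.real (A j)) := by
  have h := (iIndepSet_iff A P).1 hind (Ioc z w) (f := fun j => (A j)ᶜ)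
    (fun i _ => (MeasurableSpace.measurableSet_generateFrom (Set.mem_singleton (A i))).compl)
  unfold Em
  rw [measureReal_def, h, ENNReal.toReal_prod]
  refine prod_congr rfl fun j _ => ?_
  rw [← measureReal_def, probReal_compl_eq_one_sub (hA j)]

omit [MeasurableSpace Ω] in
theorem Em_anti (A : ℕ → Set Ω) (z w w' : ℕ) (h : w ≤ w') : Em A z w' ⊆ Em A z w := by
  intro ω hω
  unfold Em at hω ⊢
  simp only [Set.mem_iInter, mem_Ioc] at hω ⊢
  exact fun j hj => hω j ⟨hj.1, hj.2.trans h⟩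

theorem real_Bk [IsProbabilityMeasure P] (A : ℕ → Set Ω) (hA : ∀ k, MeasurableSet (A k))
    (hind : iIndepSet A P) (z y R : ℕ) (hyR : y ≤ R) :
    P.real (Bk A z y R) = (∏ j ∈ Ioc z (z + y), (1 - P.real (A j))) *
      (1 - ∏ j ∈ Ioc (z + y) (z + R), (1 - P.real (A j))) := by
  unfold Bk
  rw [measureReal_sdiff (Em_anti A z _ _ (by omega)) (measurable_Em A hA _ _), real_Em A hA hind, real_Em A hA hind,
    ← prod_Ioc_consecutive _ (by omega : z ≤ z + y) (by omega : z + y ≤ z + R)]
  ring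

omit [MeasurableSpace Ω] in
theorem gen_Em (A : ℕ → Set Ω) (s : Set ℕ) (z w : ℕ) (h : ∀ j ∈ Ioc z w, j ∈ s) :
    @MeasurableSet _ (⨆ i ∈ s, MeasurableSpace.generateFrom {A i}) (Em A z w) := by
  refine Finset.measurableSet_biInter _ fun j hj => ?_
  have h1 : MeasurableSpace.generateFrom {A j} ≤ ⨆ i ∈ s, MeasurableSpace.generateFrom {A i} :=
    le_iSup₂ (f := fun i (_ : i ∈ s) => MeasurableSpace.generateFrom {A i}) j (h j hj)
  exact h1 _ (MeasurableSpace.measurableSet_generateFrom (Set.mem_singleton (A j))).compl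

theorem inter_Bk [IsProbabilityMeasure P] (A : ℕ → Set Ω) (hA : ∀ k, MeasurableSet (A k))
    (hind : iIndepSet A P) (z z' y R : ℕ) (hyR : y ≤ R) (h : z + R ≤ z') :
    P.real (Bk A z y R ∩ Bk A z' y R) = P.real (Bk A z y R) * P.real (Bk A z' y R) := by
  have h1 := indep_iSup_of_disjoint (m := fun i => MeasurableSpace.generateFrom {A i}) (μ := P)
    (fun i => MeasurableSpace.generateFrom_le (by rintro _ rfl; exact hA i)) hind
    (S := {j | j ≤ z'}) (T := {j | z' < j}) (by
      rw [Set.disjoint_left]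
      intro j (h1 : j ≤ z') (h2 : z' < j)
      omega)
  have h2 := (Indep_iff _ _ P).1 h1 (Bk A z y R) (Bk A z' y R) ?_ ?_
  · rw [measureReal_def, h2, ENNReal.toReal_mul]
    rfl
  · refine MeasurableSet.diff (gen_Em A _ _ _ ?_) (gen_Em A _ _ _ ?_)
    · intro j hj
      rw [mem_Ioc] at hj
      show j ≤ z'
      omega
    · intro j hj
      rw [mem_Ioc] at hj
      show j ≤ z'
      omega
  · refine MeasurableSet.diff (gen_Em A _ _ _ ?_) (gen_Em A _ _ _ ?_)
    · intro j hj
      rw [mem_Ioc] at hj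
      show z' < j
      omega
    · intro j hj
      rw [mem_Ioc] at hj
      show z' < j
      omega

theorem cheb_low [IsProbabilityMeasure P] (E : ℕ → Set Ω) (hE : ∀ k, MeasurableSet (E k))
    (hneg : ∀ k l, k < l → P.real (E k ∩ E l) ≤ P.real (E k) * P.real (E l)) (n : ℕ) (hμ : 0 < mS P E n) :
    P {ω | S E n ω < mS P E n / 2} ≤ ENNReal.ofReal (4 / mS P E n) := by
  have h1 := meas_ge_le_variance_div_sq (memLp_S (P := P) E hE n) (show 0 < mS P E n / 2 by positivity)
  rw [integral_S E hE] at h1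
  refine (measure_mono ?_).trans (h1.trans (ENNReal.ofReal_le_ofReal ?_))
  · intro ω hω
    rw [Set.mem_ofPred_eq] at hω ⊢
    rw [abs_sub_comm]
    exact (by linarith : mS P E n / 2 ≤ mS P E n - S E n ω).trans (le_abs_self _)
  · have h2 := var_S_le (P := P) E hE hneg n
    calc Var[S E n; P] / (mS P E n / 2) ^ 2 ≤ mS P E n / (mS P E n / 2) ^ 2 := by gcongr
      _ = 4 / mS P E n := by
        field_simp
        norm_num

/-- **Blocks.** With `n` independent blocks the number of long gaps is at least a constant times its expectation. -/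
theorem blocks [IsProbabilityMeasure P] (A : ℕ → Set Ω) (hA : ∀ k, MeasurableSet (A k))
    (hind : iIndepSet A P) (z0 y R n X : ℕ) (hy : y ≤ R) (hR : 1 ≤ R) (hX : z0 + n * R ≤ X) (c : ℝ) (hc : 0 < c)
    (hcy : c * Real.log X ^ 2 ≤ y) (θ : ℝ) (hθ : 0 < θ) (hn : 1 ≤ n)
    (hP : ∀ i < n, θ ≤ P.real (Bk A (z0 + i * R) y R)) :
    ∃ F : Set Ω, P F ≤ ENNReal.ofReal (4 / (n * θ)) ∧ ∀ ω, ω ∉ F → {k | ω ∈ A k}.Infinite →
      n * θ / 2 - 1 ≤ N A c X ω := by
  classical
  set E : ℕ → Set Ω := fun i => Bk A (z0 + i * R) y R with hE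
  have hm : n * θ ≤ mS P E n := by
    unfold mS
    have : ∑ k ∈ range n, θ ≤ ∑ k ∈ range n, P.real (E k) :=
      sum_le_sum fun i hi => hP i (mem_range.1 hi)
    rwa [sum_const, card_range, nsmul_eq_mul] at this
  have hn0 : (0 : ℝ) < n := by exact_mod_cast hn
  have hm0 : 0 < (n : ℝ) * θ := by positivity
  have h1 := cheb_low (P := P) E (fun i => measurable_Bk A hA _ _ _) (fun k l hkl => by
    refine (inter_Bk A hA hind _ _ y R hy ?_).le
    have : (k + 1) * R ≤ l * R := Nat.mul_le_mul_right _ hkl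
    nlinarith) n (hm0.trans_le hm)
  refine ⟨{ω | S E n ω < mS P E n / 2}, h1.trans (ENNReal.ofReal_le_ofReal ?_), fun ω hω hinf => ?_⟩
  · gcongr
  · rw [Set.mem_ofPred_eq, not_lt] at hω
    have h2 := blk_count A ω hinf z0 y R n X hR hX c hc hcy
    have h3 : S E n ω = (((range n).filter (fun i => ω ∈ Bk A (z0 + i * R) y R)).card : ℝ) := by
      unfold S
      rw [card_filter, Nat.cast_sum]
      refine sum_congr rfl fun k _ => ?_
      by_cases h : ω ∈ Bk A (z0 + k * R) y R <;> simp [hE, h]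
    have h4 : (((range n).filter (fun i => ω ∈ Bk A (z0 + i * R) y R)).card : ℝ) ≤ N A c X ω + 1 := by
      exact_mod_cast h2
    linarith

end Pool.Agent.T2H32.GM
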