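import Pool.Agent.T2H32.GM.FL

set_option autoImplicit false

/-! # Rough numbers: basic bounds and the logarithmic identity -/

open Finset Filter Topology
open Pool.Agent.T2H32.BF (V V_pos V_anti mertens pnt)

namespace Pool.Agent.T2H32.GM

/-- indicator of the rough numbers -/
noncomputable def c (T k : ℕ) : ℝ := if 1 ≤ k ∧ Rg T k then 1 else 0

theorem c_nonneg (T k : ℕ) : 0 ≤ c T k := by
  unfold c
  split_ifs <;> norm_num

theorem c_le (T k : ℕ) : c T k ≤ 1 := by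
  unfold c
  split_ifs <;> norm_num

theorem c_zero (T : ℕ) : c T 0 = 0 := by
  unfold c
  rw [if_neg]
  simp

theorem Rg_one (T : ℕ) : Rg T 1 := fun p _ hp hd => hp.one_lt.ne' (Nat.dvd_one.1 hd)

theorem c_one (T : ℕ) : c T 1 = 1 := by
  unfold c
  rw [if_pos ⟨le_rfl, Rg_one T⟩]

theorem c_small (T k : ℕ) (h1 : 2 ≤ k) (h2 : k ≤ T) : c T k = 0 := by
  unfold c
  rw [if_neg]
  rintro ⟨-, h⟩
  exact h k.minFac ((Nat.minFac_le (by omega)).trans h2) (Nat.minFac_prime (by omega)) (Nat.minFac_dvd k)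

/-- number of rough numbers up to `x` -/
noncomputable def Phi (T : ℕ) (x : ℝ) : ℝ := ∑ k ∈ Icc 0 ⌊x⌋₊, c T k

theorem Phi_nonneg (T : ℕ) (x : ℝ) : 0 ≤ Phi T x := sum_nonneg fun k _ => c_nonneg T k

theorem Phi_mono (T : ℕ) : Monotone (Phi T) := by
  intro x y hxy
  unfold Phi
  refine sum_le_sum_of_subset_of_nonneg (Icc_subset_Icc_right (Nat.floor_le_floor hxy)) fun k _ _ => c_nonneg T k

theorem Phi_eq (T : ℕ) (x : ℝ) : Phi T x = (((Ioc 0 (0 + ⌊x⌋₊)).filter (Rg T)).card : ℝ) := by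
  unfold Phi
  rw [card_filter, zero_add]
  push_cast
  have e : Icc 0 ⌊x⌋₊ = insert 0 (Ioc 0 ⌊x⌋₊) := by
    ext k
    simp only [mem_Icc, mem_insert, mem_Ioc]
    omega
  rw [e, sum_insert (by simp), c_zero, zero_add]
  refine sum_congr rfl fun k hk => ?_
  rw [mem_Ioc] at hk
  unfold c
  by_cases h : Rg T k
  · rw [if_pos ⟨hk.1, h⟩, if_pos h]
  · rw [if_neg (fun h' => h h'.2), if_neg h]

theorem Phi_one (T : ℕ) (x : ℝ) (h1 : 1 ≤ x) (h2 : x < T + 1) : Phi T x = 1 := by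
  unfold Phi
  have hf : 1 ≤ ⌊x⌋₊ := (Nat.one_le_floor_iff x).2 h1
  have hf2 : ⌊x⌋₊ ≤ T := by
    have : ⌊x⌋₊ < T + 1 := by
      rw [Nat.floor_lt (by linarith)]
      exact_mod_cast h2
    omega
  rw [sum_eq_single_of_mem 1 (mem_Icc.2 ⟨by norm_num, hf⟩)]
  · exact c_one T
  · intro k hk hk1
    rw [mem_Icc] at hk
    rcases Nat.eq_zero_or_pos k with h0 | h0
    · rw [h0, c_zero]
    · exact c_small T k (by omega) (by omega)

theorem Phi_le_self (T : ℕ) (x : ℝ) (hx : 0 ≤ x) : Phi T x ≤ x := by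
  rw [Phi_eq]
  have h1 : ((Ioc 0 (0 + ⌊x⌋₊)).filter (Rg T)).card ≤ ⌊x⌋₊ := (card_filter_le _ _).trans (by simp)
  have h2 := Nat.floor_le hx
  calc (((Ioc 0 (0 + ⌊x⌋₊)).filter (Rg T)).card : ℝ) ≤ (⌊x⌋₊ : ℝ) := by exact_mod_cast h1
    _ ≤ x := h2

theorem Phi_anti (T T' : ℕ) (h : T' ≤ T) (x : ℝ) : Phi T x ≤ Phi T' x := by
  rw [Phi_eq, Phi_eq]
  have : (Ioc 0 (0 + ⌊x⌋₊)).filter (Rg T) ⊆ (Ioc 0 (0 + ⌊x⌋₊)).filter (Rg T') := by
    intro n hn
    rw [mem_filter] at hn ⊢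
    exact ⟨hn.1, fun p hp => hn.2 p (hp.trans h)⟩
  exact_mod_cast card_le_card this

/-- Mertens, upper bound -/
theorem V_le : ∃ A : ℝ, 0 < A ∧ ∀ n : ℕ, 2 ≤ n → V n ≤ A / Real.log n := by
  obtain ⟨B, hB⟩ := mertens.bddAbove_range
  refine ⟨max B 1, lt_max_of_lt_right one_pos, fun n hn => ?_⟩
  have h1 : V n * Real.log n ≤ B := hB ⟨n, rfl⟩
  rw [le_div_iff₀ (Real.log_pos (by exact_mod_cast hn))]
  exact h1.trans (le_max_left _ _)

/-- **Upper bound** for the number of rough numbers. -/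
theorem Phi_le : ∃ C : ℝ, 0 < C ∧ ∀ T : ℕ, 2 ≤ T → ∀ x : ℝ, T ≤ x → Phi T x ≤ C * (x / Real.log T) := by
  obtain ⟨C0, hC0, hfl⟩ := fl_main
  obtain ⟨K, hK0, hK⟩ := hfl C0 le_rfl
  obtain ⟨A, hA0, hA⟩ := V_le
  set e : ℕ := 4 * C0 * C0 + 1 with he
  have he1 : 1 ≤ e := by omega
  have heR : (1 : ℝ) ≤ e := by exact_mod_cast he1
  refine ⟨2 * e * 2 + (2 * A * (4 * e) + K * 2), by positivity, fun T hT x hx => ?_⟩
  have hTR : (2 : ℝ) ≤ T := by exact_mod_cast hT
  have hlT : 0 < Real.log T := Real.log_pos (by linarith)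
  have hx0 : 0 < x := by linarith
  have hxl : 0 < x / Real.log T := by positivity
  rcases lt_or_ge (Real.log T) (2 * e * Real.log 2) with h | h
  · -- small `T`
    have h1 : x ≤ 2 * e * 2 * (x / Real.log T) := by
      have h2 : Real.log T ≤ 2 * e * 2 := by
        have := Real.log_two_lt_d9
        nlinarith
      rw [mul_div_assoc', le_div_iff₀ hlT]
      nlinarith
    have h2 := Phi_le_self T x hx0.le
    have h3 : 0 ≤ (2 * A * (4 * e) + K * 2) * (x / Real.log T) := by positivity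
    nlinarith
  · -- large `T`
    set R : ℝ := (T : ℝ) ^ (1 / (2 * e : ℝ)) with hR
    have hR2 : 2 ≤ R := by
      rw [hR, Real.rpow_def_of_pos (by linarith)]
      have h1 : Real.log 2 ≤ Real.log T * (1 / (2 * e)) := by
        rw [mul_one_div, le_div_iff₀ (by positivity)]
        linarith
      calc (2 : ℝ) = Real.exp (Real.log 2) := (Real.exp_log (by norm_num)).symm
        _ ≤ _ := Real.exp_le_exp.2 h1
    set T' : ℕ := ⌊R⌋₊ with hT'
    have hT'2 : 2 ≤ T' := Nat.le_floor (by exact_mod_cast hR2)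
    have hT'R : (T' : ℝ) ≤ R := Nat.floor_le (by linarith)
    have hRT' : R < T' + 1 := Nat.lt_floor_add_one R
    have hRT : R ≤ T := by
      rw [hR]
      calc (T : ℝ) ^ (1 / (2 * e : ℝ)) ≤ (T : ℝ) ^ (1 : ℝ) := by
            apply Real.rpow_le_rpow_of_exponent_le (by linarith)
            rw [div_le_one (by positivity)]
            linarith
        _ = T := Real.rpow_one _
    have hT'T : T' ≤ T := by exact_mod_cast hT'R.trans hRT
    -- `log T' ≥ log T / (4e)`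
    have hlog : Real.log T / (4 * e) ≤ Real.log T' := by
      have h1 : Real.log R = Real.log T / (2 * e) := by
        rw [hR, Real.log_rpow (by linarith)]
        ring
      have h2 : (2 : ℝ) ≤ T' := by exact_mod_cast hT'2
      have h3 : R ≤ (T' : ℝ) ^ 2 := by nlinarith
      have h4 := Real.log_le_log (by linarith) h3
      rw [Real.log_pow, h1] at h4
      push_cast at h4
      rw [div_le_iff₀ (by positivity)]
      rw [div_le_iff₀ (by positivity)] at h4
      linarith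
    have h1 : Phi T x ≤ Phi T' x := Phi_anti T T' hT'T x
    have h2 := hK T' 0 ⌊x⌋₊ (by omega)
    rw [← Phi_eq, abs_le] at h2
    have hN : (⌊x⌋₊ : ℝ) ≤ x := Nat.floor_le hx0.le
    have hVp := V_pos T'
    have h3 : Phi T' x ≤ 2 * (V T' * x) + K * (T' : ℝ) ^ e := by
      have h4 : (1 / 2 : ℝ) ^ C0 ≤ 1 := pow_le_one₀ (by norm_num) (by norm_num)
      have h5 : V T' * ⌊x⌋₊ ≤ V T' * x := by gcongr
      have h6 : (1 / 2 : ℝ) ^ C0 * (V T' * ⌊x⌋₊) ≤ 1 * (V T' * x) := by gcongr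
      linarith [h2.2]
    have h4 : V T' ≤ A * (4 * e) / Real.log T := by
      refine (hA T' hT'2).trans ?_
      have h5 : 0 < Real.log T / (4 * e) := by positivity
      calc A / Real.log T' ≤ A / (Real.log T / (4 * e)) := by gcongr
        _ = _ := by field_simp
    have h5 : (T' : ℝ) ^ e ≤ 2 * (x / Real.log T) := by
      have h6 : (T' : ℝ) ^ e ≤ (T : ℝ) ^ (1 / 2 : ℝ) := by
        calc (T' : ℝ) ^ e ≤ R ^ e := by gcongr
          _ = (T : ℝ) ^ (1 / 2 : ℝ) := by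
            rw [hR, ← Real.rpow_natCast, ← Real.rpow_mul (by linarith)]
            congr 1
            field_simp
      have h7 : Real.log T ≤ 2 * (T : ℝ) ^ (1 / 2 : ℝ) := by
        have := Real.log_le_rpow_div (by linarith : (0 : ℝ) ≤ T) (show (0 : ℝ) < 1 / 2 by norm_num)
        linarith
      have h8 : (T : ℝ) ^ (1 / 2 : ℝ) * (T : ℝ) ^ (1 / 2 : ℝ) = T := by
        rw [← Real.rpow_add (by linarith)]
        norm_num
      have h9 : 0 ≤ (T : ℝ) ^ (1 / 2 : ℝ) := by positivity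
      refine h6.trans ?_
      rw [mul_div_assoc', le_div_iff₀ hlT]
      nlinarith
    have h6 : 0 < V T' * x := by positivity
    calc Phi T x ≤ 2 * (V T' * x) + K * (T' : ℝ) ^ e := h1.trans h3
      _ ≤ 2 * (A * (4 * e) / Real.log T * x) + K * (2 * (x / Real.log T)) := by gcongr
      _ = (2 * A * (4 * e) + K * 2) * (x / Real.log T) := by ring
      _ ≤ _ := by
        have : 0 ≤ 2 * (e : ℝ) * 2 * (x / Real.log T) := by positivity
        linarith

/-- sum of `Λ` over the rough numbers up to `t` -/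
noncomputable def psT (T t : ℕ) : ℝ := ∑ d ∈ (Icc 1 t).filter (Rg T), ArithmeticFunction.vonMangoldt d

theorem psT_le (T t : ℕ) : psT T t ≤ Chebyshev.psi t := by
  unfold psT Chebyshev.psi
  rw [Nat.floor_natCast]
  refine sum_le_sum_of_subset_of_nonneg ?_ fun _ _ _ => ArithmeticFunction.vonMangoldt_nonneg
  intro d hd
  rw [mem_filter, mem_Icc] at hd
  rw [mem_Ioc]
  omega

theorem psT_zero (T t : ℕ) (h : t ≤ T) : psT T t = 0 := by
  unfold psT
  refine sum_eq_zero fun d hd => ?_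
  rw [mem_filter, mem_Icc] at hd
  rcases Nat.lt_or_ge d 2 with h1 | h1
  · have : d = 1 := by omega
    rw [this]
    exact ArithmeticFunction.vonMangoldt_apply_one
  · exact absurd hd.2 (fun h' => h' d.minFac ((Nat.minFac_le (by omega)).trans (by omega))
      (Nat.minFac_prime (by omega)) (Nat.minFac_dvd d))

theorem psT_ge (T t : ℕ) (ht : 1 ≤ t) : Chebyshev.psi t - Nat.primeCounting T * Real.log t ≤ psT T t := by
  have h1 : Chebyshev.psi t - psT T t = ∑ d ∈ (Icc 1 t).filter (fun d => ¬ Rg T d), ArithmeticFunction.vonMangoldt d := by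
    unfold psT Chebyshev.psi
    rw [Nat.floor_natCast, sub_eq_iff_eq_add, add_comm]
    rw [sum_filter_add_sum_filter_not]
    rfl
  have h2 : ∑ d ∈ (Icc 1 t).filter (fun d => ¬ Rg T d), ArithmeticFunction.vonMangoldt d ≤
      ∑ p ∈ (range (T + 1)).filter Nat.Prime, ∑ k ∈ Icc 1 (Nat.log p t), Real.log p := by
    rw [sum_sigma']
    have h3 : ∑ d ∈ (Icc 1 t).filter (fun d => ¬ Rg T d), ArithmeticFunction.vonMangoldt d =
        ∑ d ∈ ((Icc 1 t).filter (fun d => ¬ Rg T d)).filter IsPrimePow, ArithmeticFunction.vonMangoldt d :=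
      (sum_filter_of_ne fun d _ hd => ArithmeticFunction.vonMangoldt_ne_zero_iff.1 hd).symm
    rw [h3]
    -- inject `d = p ^ k`
    have h4 : ((Icc 1 t).filter (fun d => ¬ Rg T d)).filter IsPrimePow ⊆
        (((range (T + 1)).filter Nat.Prime).sigma (fun p => Icc 1 (Nat.log p t))).image (fun x => x.1 ^ x.2) := by
      intro d hd
      rw [mem_filter, mem_filter, mem_Icc] at hd
      obtain ⟨⟨⟨hd1, hd2⟩, hd3⟩, hd4⟩ := hd
      obtain ⟨p, k, hp, hk, rfl⟩ := (isPrimePow_nat_iff _).1 hd4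
      rw [mem_image]
      refine ⟨⟨p, k⟩, ?_, rfl⟩
      rw [mem_sigma, mem_filter, mem_range, mem_Icc]
      refine ⟨⟨?_, hp⟩, hk, Nat.le_log_of_pow_le hp.one_lt hd2⟩
      unfold Rg at hd3
      push Not at hd3
      obtain ⟨q, hq1, hq2, hq3⟩ := hd3
      have := (Nat.prime_dvd_prime_iff_eq hq2 hp).1 (hq2.dvd_of_dvd_pow hq3)
      show p < T + 1
      omega
    refine (sum_le_sum_of_subset_of_nonneg h4 fun _ _ _ => ArithmeticFunction.vonMangoldt_nonneg).trans ?_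
    rw [sum_image]
    · refine sum_le_sum fun x hx => ?_
      rw [mem_sigma, mem_filter, mem_Icc] at hx
      have : ArithmeticFunction.vonMangoldt (x.1 ^ x.2) = Real.log x.1 := by
        rw [ArithmeticFunction.vonMangoldt_apply_pow (by omega), ArithmeticFunction.vonMangoldt_apply_prime hx.1.2]
      rw [this]
    · rintro ⟨p, k⟩ hx ⟨q, l⟩ hy hxy
      rw [mem_coe, mem_sigma, mem_filter, mem_Icc] at hx hy
      simp only at hxy hx hy
      have h5 : p = q := by
        have h6 : p ∣ q ^ l := hxy ▸ dvd_pow_self p (by omega)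
        exact (Nat.prime_dvd_prime_iff_eq hx.1.2 hy.1.2).1 (hx.1.2.dvd_of_dvd_pow h6)
      subst h5
      have h6 : k = l := Nat.pow_right_injective hx.1.2.two_le hxy
      rw [h6]
  have h3 : ∑ p ∈ (range (T + 1)).filter Nat.Prime, ∑ k ∈ Icc 1 (Nat.log p t), Real.log p ≤
      ∑ p ∈ (range (T + 1)).filter Nat.Prime, Real.log t := by
    refine sum_le_sum fun p hp => ?_
    rw [mem_filter] at hp
    rw [sum_const, Nat.card_Icc, nsmul_eq_mul, Nat.add_sub_cancel, ← Real.log_pow]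
    have h4 := Nat.pow_log_le_self p (by omega : t ≠ 0)
    have h5 : 0 < p ^ Nat.log p t := pow_pos hp.2.pos _
    refine Real.log_le_log (by exact_mod_cast h5) ?_
    exact_mod_cast h4
  have h4 : (((range (T + 1)).filter Nat.Prime).card : ℝ) = Nat.primeCounting T := by
    rw [Nat.primeCounting, Nat.primeCounting', Nat.count_eq_card_filter_range]
  rw [sum_const, nsmul_eq_mul, h4] at h3
  linarith

/-- **The identity.** -/
theorem L_id (T N : ℕ) : ∑ n ∈ (Icc 1 N).filter (Rg T), Real.log n =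
    ∑ m ∈ (Icc 1 N).filter (Rg T), psT T (N / m) := by
  have h1 : ∀ n ∈ (Icc 1 N).filter (Rg T), Real.log n =
      ∑ m ∈ n.divisors, ArithmeticFunction.vonMangoldt (n / m) := by
    intro n _
    rw [Nat.sum_div_divisors, ArithmeticFunction.vonMangoldt_sum]
  rw [sum_congr rfl h1]
  have h2 : ∑ n ∈ (Icc 1 N).filter (Rg T), ∑ m ∈ n.divisors, ArithmeticFunction.vonMangoldt (n / m) =
      ∑ m ∈ (Icc 1 N).filter (Rg T), ∑ n ∈ ((Icc 1 N).filter (Rg T)).filter (fun n => m ∣ n),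
        ArithmeticFunction.vonMangoldt (n / m) := by
    refine sum_comm' fun n m => ?_
    simp only [mem_filter, mem_Icc, Nat.mem_divisors]
    constructor
    · rintro ⟨⟨⟨h1, h2⟩, h3⟩, h4, h5⟩
      refine ⟨⟨⟨⟨h1, h2⟩, h3⟩, h4⟩, ⟨Nat.pos_of_dvd_of_pos h4 h1, (Nat.le_of_dvd h1 h4).trans h2⟩, ?_⟩
      exact fun p hp1 hp2 hp3 => h3 p hp1 hp2 (hp3.trans h4)
    · rintro ⟨⟨⟨⟨h1, h2⟩, h3⟩, h4⟩, -, -⟩
      exact ⟨⟨⟨h1, h2⟩, h3⟩, h4, by omega⟩
  rw [h2]
  refine sum_congr rfl fun m hm => ?_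
  rw [mem_filter, mem_Icc] at hm
  unfold psT
  refine sum_bij' (fun n _ => n / m) (fun d _ => m * d) ?_ ?_ ?_ ?_ ?_
  · intro n hn
    simp only [mem_filter, mem_Icc] at hn ⊢
    obtain ⟨⟨⟨h1, h2⟩, h3⟩, d, rfl⟩ := hn
    rw [Nat.mul_div_cancel_left _ (by omega : 0 < m)]
    have hd : 1 ≤ d := Nat.pos_of_ne_zero (by rintro rfl; simp at h1)
    refine ⟨⟨hd, ?_⟩, fun p hp1 hp2 hp3 => h3 p hp1 hp2 (hp3.mul_left m)⟩
    rw [Nat.le_div_iff_mul_le (by omega)]
    linarith [mul_comm m d]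
  · intro d hd
    simp only [mem_filter, mem_Icc] at hd ⊢
    obtain ⟨⟨h1, h2⟩, h3⟩ := hd
    rw [Nat.le_div_iff_mul_le (by omega)] at h2
    refine ⟨⟨⟨Nat.mul_pos (by omega) h1, by linarith [mul_comm m d]⟩, ?_⟩, Dvd.intro _ rfl⟩
    intro p hp1 hp2 hp3
    rcases (Nat.Prime.dvd_mul hp2).1 hp3 with h | h
    · exact hm.2 p hp1 hp2 h
    · exact h3 p hp1 hp2 h
  · intro n hn
    simp only [mem_filter, mem_Icc] at hn
    exact Nat.mul_div_cancel' hn.2
  · intro d hd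
    exact Nat.mul_div_cancel_left _ (by omega)
  · intro n hn
    rfl

end Pool.Agent.T2H32.GM
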